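import Pool.Agent.Helper82.LCY.Lat

/-!
Row BETA: the direction of the rank reduction.
-/

namespace Pool.Agent.Helper82.LCY

open Finset

variable {ι : Type*} [Fintype ι] {κ : Type*}

/-- `T` spans `K^perp` rationally. -/
def SpansPerp (T : Set (Cl ℤ ι)) : Prop :=
  ∀ x : Cl ℤ ι, ip KK x = 0 → ∃ n : ℤ, n ≠ 0 ∧ n • x ∈ Submodule.span ℤ T

/-- a rational span is a rational multiple of the integral one -/
theorem span_int {T : Set (Cl ℤ ι)} {x : Cl ℚ ι} (hx : x ∈ Submodule.span ℚ (toQ '' T)) :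
    ∃ (n : ℤ) (y : Cl ℤ ι), n ≠ 0 ∧ y ∈ Submodule.span ℤ T ∧ toQ y = (n : ℚ) • x := by
  induction hx using Submodule.span_induction with
  | mem x h =>
    obtain ⟨y, hy, rfl⟩ := h
    exact ⟨1, y, one_ne_zero, Submodule.subset_span hy, by simp⟩
  | zero => exact ⟨1, 0, one_ne_zero, Submodule.zero_mem _, by simp⟩
  | add x x' _ _ h h' =>
    obtain ⟨n, y, hn, hy, e⟩ := h
    obtain ⟨n', y', hn', hy', e'⟩ := h'
    refine ⟨n * n', n' • y + n • y', mul_ne_zero hn hn',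
      Submodule.add_mem _ (Submodule.smul_mem _ _ hy) (Submodule.smul_mem _ _ hy'), ?_⟩
    rw [map_add, map_smul, map_smul, e, e', ← Int.cast_smul_eq_zsmul ℚ,
      ← Int.cast_smul_eq_zsmul ℚ, smul_smul, smul_smul, smul_add]
    push_cast
    rw [mul_comm (n' : ℚ) n]
  | smul a x _ h =>
    obtain ⟨n, y, hn, hy, e⟩ := h
    refine ⟨n * a.den, a.num • y, mul_ne_zero hn (by exact_mod_cast a.den_nz),
      Submodule.smul_mem _ _ hy, ?_⟩
    rw [map_smul, e, ← Int.cast_smul_eq_zsmul ℚ, smul_smul, smul_smul]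
    congr 1
    have : (a.num : ℚ) = a * a.den := (Rat.mul_den_eq_num a).symm
    push_cast
    rw [this]
    ring

/-- every linear functional is given by a class -/
theorem rep (f : Cl ℚ ι →ₗ[ℚ] ℚ) : ∃ b : Cl ℚ ι, ∀ x, ip b x = f x := by
  classical
  refine ⟨(f (1, 0), fun i => -f (0, Pi.single i 1)), fun x => ?_⟩
  have hx : x = x.1 • ((1, 0) : Cl ℚ ι) + ∑ i, x.2 i • ((0, Pi.single i 1) : Cl ℚ ι) := by
    refine Prod.ext ?_ ?_
    · simp [Prod.fst_sum]
    · funext j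
      simp only [Prod.snd_add, Prod.smul_snd, smul_zero, zero_add, Prod.snd_sum,
        Finset.sum_apply, Pi.smul_apply, Pi.single_apply, smul_eq_mul, mul_ite, mul_one, mul_zero,
        Finset.sum_ite_eq, Finset.mem_univ, if_true]
  conv_rhs => rw [hx]
  rw [map_add, map_smul, map_sum]
  simp only [map_smul, smul_eq_mul, ip, neg_mul, Finset.sum_neg_distrib, sub_neg_eq_add]
  rw [mul_comm]
  congr 1
  exact Finset.sum_congr rfl fun i _ => mul_comm _ _

/-- every functional agrees on `K^perp` with a class of `K^perp` -/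
theorem rep_perp (hk : Fintype.card ι ≤ 8) (f : Cl ℚ ι →ₗ[ℚ] ℚ) :
    ∃ (n : ℕ) (b : Cl ℤ ι), 0 < n ∧ ip KK b = 0 ∧
      ∀ x : Cl ℤ ι, ip KK x = 0 → ((ip b x : ℤ) : ℚ) = n * f (toQ x) := by
  obtain ⟨b0, hb0⟩ := rep f
  have hKpos : (0 : ℚ) < ip (KK : Cl ℚ ι) KK := KK_sq_pos hk
  set b1 : Cl ℚ ι := b0 - (ip KK b0 / ip (KK : Cl ℚ ι) KK) • KK with hb1
  have hK1 : ip KK b1 = 0 := by
    rw [hb1, ip_sub_right, ip_smul_right, div_mul_cancel₀ _ hKpos.ne', sub_self]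
  have h1 : ∀ x : Cl ℚ ι, ip KK x = 0 → ip b1 x = f x := by
    intro x hx
    rw [hb1, ip_sub_left, ip_smul_left, hx, mul_zero, sub_zero, hb0]
  obtain ⟨n, b, hn, hb⟩ := exists_int b1
  refine ⟨n, b, hn, ?_, fun x hx => ?_⟩
  · have h2 : ((ip KK b : ℤ) : ℚ) = 0 := by
      rw [← ip_toQ, toQ_KK, hb, ip_smul_right, hK1, mul_zero]
    exact_mod_cast h2
  · rw [← ip_toQ, hb, ip_smul_left, h1 _ (by rw [← toQ_KK, ip_toQ, hx]; simp)]

/-- **BETA.** -/
theorem beta_exists (hk : Fintype.card ι ≤ 8) (C : κ → Cl ℤ ι) (hK : ∀ c, ip KK (C c) = 0)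
    (hli : LinearIndependent ℤ C) (EE : Set κ) (hns : ¬ SpansPerp (C '' EE)) :
    ∃ β : Cl ℤ ι, β ≠ 0 ∧ ip KK β = 0 ∧ (∀ e ∈ EE, ip β (C e) = 0) ∧
      ∀ c, 0 ≤ ip β (C c) := by
  classical
  by_cases hE : ∃ c0, c0 ∉ EE
  · obtain ⟨c0, hc0⟩ := hE
    have hq := linInd_toQ hli
    have hnm := hq.notMem_span_image (s := {c | c ≠ c0}) (x := c0) (by simp)
    obtain ⟨f0, hf0, hker0⟩ := Submodule.exists_le_ker_of_notMem hnm
    obtain ⟨f, hf, hker⟩ : ∃ f : Cl ℚ ι →ₗ[ℚ] ℚ, 0 < f (toQ (C c0)) ∧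
        ∀ c, c ≠ c0 → f (toQ (C c)) = 0 := by
      have h0 : ∀ c, c ≠ c0 → f0 (toQ (C c)) = 0 := fun c hc =>
        LinearMap.mem_ker.1 (hker0 (Submodule.subset_span ⟨c, hc, rfl⟩))
      rcases lt_or_gt_of_ne hf0 with h | h
      · exact ⟨-f0, by simpa using h, fun c hc => by simp [h0 c hc]⟩
      · exact ⟨f0, h, h0⟩
    obtain ⟨n, β, hn, hKβ, hβ⟩ := rep_perp hk f
    have hn' : (0 : ℚ) < n := by exact_mod_cast hn
    have hpos : 0 < ip β (C c0) := by
      have : (0 : ℚ) < ((ip β (C c0) : ℤ) : ℚ) := by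
        rw [hβ _ (hK c0)]; positivity
      exact_mod_cast this
    have hz : ∀ c, c ≠ c0 → ip β (C c) = 0 := by
      intro c hc
      have : ((ip β (C c) : ℤ) : ℚ) = 0 := by rw [hβ _ (hK c), hker c hc, mul_zero]
      exact_mod_cast this
    refine ⟨β, ?_, hKβ, fun e he => hz e (fun h => hc0 (h ▸ he)), fun c => ?_⟩
    · rintro rfl
      simp at hpos
    · by_cases h : c = c0
      · rw [h]; exact hpos.le
      · rw [hz c h]
  · push Not at hE
    simp only [SpansPerp, not_forall, not_exists, not_and] at hns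
    obtain ⟨x0, hx0, hn0⟩ := hns
    set S : Submodule ℚ (Cl ℚ ι) := Submodule.span ℚ (toQ '' (C '' EE)) with hS
    have hKpos : (0 : ℚ) < ip (KK : Cl ℚ ι) KK := KK_sq_pos hk
    have _hSK : ∀ s ∈ S, ip KK s = 0 := by
      intro s hs
      induction hs using Submodule.span_induction with
      | mem x h =>
        obtain ⟨y, ⟨c, _, rfl⟩, rfl⟩ := h
        rw [← toQ_KK, ip_toQ, hK]; simp
      | zero => simp
      | add x x' _ _ h h' => rw [ip_add_right, h, h', add_zero]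
      | smul a x _ h => rw [ip_smul_right, h, mul_zero]
    have hnS : toQ x0 ∉ S := by
      intro h
      obtain ⟨n, y, hn, hy, e⟩ := span_int h
      have : n • x0 = y := toQ_inj (by
        rw [map_smul, e, ← Int.cast_smul_eq_zsmul ℚ])
      exact hn0 n hn (this ▸ hy)
    obtain ⟨f, hf, hker⟩ := Submodule.exists_le_ker_of_notMem hnS
    obtain ⟨n, β, hn, hKβ, hβ⟩ := rep_perp hk f
    have hn' : (0 : ℚ) < n := by exact_mod_cast hn
    have hz : ∀ c, ip β (C c) = 0 := by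
      intro c
      have h1 : f (toQ (C c)) = 0 := LinearMap.mem_ker.1 (hker (Submodule.subset_span
        ⟨C c, ⟨c, hE c, rfl⟩, rfl⟩))
      have : ((ip β (C c) : ℤ) : ℚ) = 0 := by rw [hβ _ (hK c), h1, mul_zero]
      exact_mod_cast this
    refine ⟨β, ?_, hKβ, fun e _ => hz e, fun c => (hz c).ge⟩
    rintro rfl
    have h1 := hβ x0 hx0
    rw [ip_zero_left] at h1
    have h2 : (n : ℚ) * f (toQ x0) ≠ 0 := mul_ne_zero hn'.ne' hf
    exact h2 (by rw [← h1]; simp)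

end Pool.Agent.Helper82.LCY
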