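import Pool.Agent.Helper82.LCY.Beta

/-!
Rows DOM (the chamber decomposition) and ROOTS.
-/

namespace Pool.Agent.Helper82.LCY

open Finset

/-- extension by zero -/
def ext {k : ℕ} (m : Fin k → ℤ) (i : ℕ) : ℤ := if h : i < k then m ⟨i, h⟩ else 0

theorem ext_fin {k : ℕ} (m : Fin k → ℤ) (i : Fin k) : ext m i = m i := by
  simp [ext]

theorem ext_ge {k : ℕ} (m : Fin k → ℤ) {i : ℕ} (h : k ≤ i) : ext m i = 0 := by
  simp [ext, not_lt.2 h]

theorem ext_nonneg {k : ℕ} {m : Fin k → ℤ} (h0 : ∀ i, 0 ≤ m i) (i : ℕ) : 0 ≤ ext m i := by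
  unfold ext
  split_ifs
  · exact h0 _
  · exact le_rfl

theorem ext_anti {k : ℕ} {m : Fin k → ℤ} (h0 : ∀ i, 0 ≤ m i) (hm : Antitone m) :
    Antitone (ext m) := by
  intro i j hij
  by_cases h : j < k
  · have h' : i < k := lt_of_le_of_lt hij h
    simp only [ext, h, h', dif_pos]
    exact hm (by simpa using hij)
  · rw [ext_ge m (not_lt.1 h)]
    exact ext_nonneg h0 i

/-- the nef classes `H, H-e1, 2H-e1-e2, 3H-e1-..-ej` -/
def fcl (k j : ℕ) : Cl ℤ (Fin k) :=
  (if j = 0 then 1 else if j = 1 then 1 else if j = 2 then 2 else 3,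
    fun i => if (i : ℕ) < j then 1 else 0)

/-- the coordinates of a dominant class -/
def xco {k : ℕ} (b : ℤ) (m : Fin k → ℤ) (j : ℕ) : ℤ :=
  if j = 0 then b - ext m 0 - ext m 1 - ext m 2 else ext m (j - 1) - ext m j

theorem xco_zero {k : ℕ} (b : ℤ) (m : Fin k → ℤ) :
    xco b m 0 = b - ext m 0 - ext m 1 - ext m 2 := rfl

theorem xco_succ {k : ℕ} (b : ℤ) (m : Fin k → ℤ) (j : ℕ) :
    xco b m (j + 1) = ext m j - ext m (j + 1) := by
  simp [xco]

theorem decomp {k : ℕ} (b : ℤ) (m : Fin k → ℤ) (N : ℕ) (hN : k ≤ N) :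
    ((b, m) : Cl ℤ (Fin k)) = ∑ j ∈ range (N + 3), xco b m j • fcl k j := by
  refine Prod.ext ?_ (funext fun i => ?_)
  · rw [Prod.fst_sum]
    simp only [Prod.smul_fst, smul_eq_mul]
    rw [Finset.sum_range_succ', Finset.sum_range_succ', Finset.sum_range_succ']
    have h1 : ∀ j, xco b m (j + 1 + 1 + 1) * (fcl k (j + 1 + 1 + 1)).1
        = 3 * (ext m (j + 2) - ext m (j + 1 + 2)) := by
      intro j
      rw [xco_succ]
      simp [fcl]
      ring
    simp only [h1]
    rw [← Finset.mul_sum, Finset.sum_range_sub' (fun j => ext m (j + 2))]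
    rw [xco_succ, xco_succ, xco_zero, ext_ge m (i := N + 2) (by omega)]
    simp [fcl]
    ring
  · rw [Prod.snd_sum, Finset.sum_apply]
    simp only [Prod.smul_snd, Pi.smul_apply, smul_eq_mul]
    have h1 : ∑ j ∈ range (N + 3), xco b m j * (fcl k j).2 i
        = ∑ j ∈ Finset.Ico ((i : ℕ) + 1) (N + 3), xco b m j := by
      rw [← Finset.sum_filter_add_sum_filter_not (range (N + 3)) (fun j => (i : ℕ) < j)]
      have h2 : ∑ j ∈ (range (N + 3)).filter (fun j => ¬ (i : ℕ) < j),
          xco b m j * (fcl k j).2 i = 0 := by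
        refine Finset.sum_eq_zero fun j hj => ?_
        rw [Finset.mem_filter] at hj
        simp [fcl, hj.2]
      rw [h2, add_zero]
      refine Finset.sum_congr ?_ fun j hj => ?_
      · ext j
        simp only [Finset.mem_filter, Finset.mem_range, Finset.mem_Ico]
        omega
      · rw [Finset.mem_Ico] at hj
        have : (i : ℕ) < j := by omega
        simp [fcl, this]
    rw [h1, Finset.sum_Ico_eq_sum_range]
    have h3 : ∀ j, xco b m ((i : ℕ) + 1 + j) = ext m ((i : ℕ) + j) - ext m ((i : ℕ) + (j + 1)) := by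
      intro j
      have : (i : ℕ) + 1 + j = ((i : ℕ) + j) + 1 := by ring
      rw [this, xco_succ]
      rfl
    simp only [h3]
    rw [Finset.sum_range_sub' (fun j => ext m ((i : ℕ) + j))]
    have hi := i.2
    rw [ext_ge m (i := (i : ℕ) + (N + 3 - ((i : ℕ) + 1))) (by omega)]
    simp [ext_fin]

theorem xco_nonneg {k : ℕ} {b : ℤ} {m : Fin k → ℤ} (hm : Antitone m) (h0 : ∀ i, 0 ≤ m i)
    (hb : ext m 0 + ext m 1 + ext m 2 ≤ b) (j : ℕ) : 0 ≤ xco b m j := by
  rcases j with _ | j
  · rw [xco_zero]; linarith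
  · rw [xco_succ]
    have := ext_anti h0 hm (Nat.le_succ j)
    simp only [Nat.succ_eq_add_one] at this
    linarith

theorem xco_le {k : ℕ} {b : ℤ} {m : Fin k → ℤ} {j : ℕ} (hj : xco b m j ≠ 0) : j ≤ k := by
  rcases j with _ | j
  · exact Nat.zero_le _
  · by_contra h
    apply hj
    rw [xco_succ, ext_ge m (by omega), ext_ge m (by omega)]
    rfl

/-- if `x_1 = .. = x_(j-1) = 0` then the first `j` multiplicities are equal -/
theorem ext_eq_of_xco {k : ℕ} {b : ℤ} {m : Fin k → ℤ} {j : ℕ}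
    (h : ∀ i, i < j → xco b m i = 0) : ∀ i, i < j → ext m i = ext m 0 := by
  intro i hi
  induction i with
  | zero => rfl
  | succ i ih =>
    have h1 := h (i + 1) hi
    rw [xco_succ] at h1
    rw [← ih (by omega)]
    linarith

theorem b_eq_of_xco {k : ℕ} {b : ℤ} {m : Fin k → ℤ} {j : ℕ} (hj : 3 ≤ j)
    (h : ∀ i, i < j → xco b m i = 0) : b = 3 * ext m 0 := by
  have h0 := h 0 (by omega)
  rw [xco_zero, ext_eq_of_xco h 1 (by omega), ext_eq_of_xco h 2 (by omega)] at h0
  linarith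

theorem sum_sq_ext {k : ℕ} (m : Fin k → ℤ) (N : ℕ) :
    ∑ i ∈ range N, ext m i * ext m i ≤ ∑ i, m i * m i := by
  have h1 : ∑ i, m i * m i = ∑ i ∈ range k, ext m i * ext m i := by
    rw [Finset.sum_range]
    exact Finset.sum_congr rfl fun i _ => by rw [ext_fin]
  have h2 : ∑ i ∈ range N, ext m i * ext m i ≤ ∑ i ∈ range (max N k), ext m i * ext m i :=
    Finset.sum_le_sum_of_subset_of_nonneg (Finset.range_mono (le_max_left _ _))
      fun i _ _ => mul_self_nonneg _
  have h3 : ∑ i ∈ range (max N k), ext m i * ext m i = ∑ i ∈ range k, ext m i * ext m i := by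
    symm
    refine Finset.sum_subset (Finset.range_mono (le_max_right _ _)) fun i _ hi => ?_
    rw [ext_ge m (by simpa using hi)]
    rfl
  rw [h1, ← h3]
  exact h2

/-- **DOM.** A dominant class with positive square is a nonnegative combination of the
`f_j`, the least `j` with nonzero coefficient is `≤ 8`, and `f_j.C = 0` as soon as `B.C = 0`. -/
theorem dom {k : ℕ} (b : ℤ) (m : Fin k → ℤ) (hm : Antitone m) (h0 : ∀ i, 0 ≤ m i)
    (hb : ext m 0 + ext m 1 + ext m 2 ≤ b)
    (hpos : 0 < ip ((b, m) : Cl ℤ (Fin k)) (b, m)) :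
    ∃ j, j ≤ k ∧ j ≤ 8 ∧ 0 < xco b m j ∧ (∀ i, i < j → xco b m i = 0) ∧
      ∀ C : Cl ℤ (Fin k), (∀ i, i ≤ k → 0 ≤ ip (fcl k i) C) →
        ip ((b, m) : Cl ℤ (Fin k)) C = 0 → ip (fcl k j) C = 0 := by
  classical
  have hex : ∃ j, xco b m j ≠ 0 ∧ j ≤ 8 := by
    by_contra hno
    push Not at hno
    have hz : ∀ i, i < 9 → xco b m i = 0 := by
      intro i hi
      by_contra h
      have := hno i h
      omega
    have he := ext_eq_of_xco hz
    have hb3 := b_eq_of_xco (by norm_num) hz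
    have hs := sum_sq_ext m 9
    have hs2 : ∑ i ∈ range 9, ext m i * ext m i = 9 * (ext m 0 * ext m 0) := by
      rw [Finset.sum_congr rfl (fun i hi => by rw [he i (Finset.mem_range.1 hi)])]
      simp
    rw [hs2] at hs
    simp only [ip] at hpos
    rw [hb3] at hpos
    nlinarith
  set j := Nat.find hex with hj
  have hjs : xco b m j ≠ 0 ∧ j ≤ 8 := Nat.find_spec hex
  have hjpos : 0 < xco b m j := lt_of_le_of_ne (xco_nonneg hm h0 hb j) (Ne.symm hjs.1)
  refine ⟨j, xco_le hjs.1, hjs.2, hjpos, fun i hi => ?_, fun C hC hBC => ?_⟩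
  · by_contra h
    exact Nat.find_min hex hi ⟨h, by omega⟩
  · have hd := decomp b m k le_rfl
    rw [hd, ip_sum_left] at hBC
    have hterm : ∀ i ∈ range (k + 3), 0 ≤ ip (xco b m i • fcl k i) C := by
      intro i _
      rw [ip_smul_left]
      by_cases hi : xco b m i = 0
      · rw [hi, zero_mul]
      · exact mul_nonneg (xco_nonneg hm h0 hb i) (hC i (xco_le hi))
    have := (Finset.sum_eq_zero_iff_of_nonneg hterm).1 hBC j
      (Finset.mem_range.2 (by have := xco_le hjs.1; omega))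
    rw [ip_smul_left] at this
    exact (mul_eq_zero.1 this).resolve_left hjs.1

/-- supplement to DOM: if the least index is `j = k` with `3 ≤ k` then `B` is a multiple
of `K`. -/
theorem dom_K {k : ℕ} {b : ℤ} {m : Fin k → ℤ} (hk : 3 ≤ k)
    (h : ∀ i, i < k → xco b m i = 0) : ((b, m) : Cl ℤ (Fin k)) = (-ext m 0) • KK := by
  refine Prod.ext ?_ (funext fun i => ?_)
  · simp [KK, b_eq_of_xco hk h]; ring
  · have := ext_eq_of_xco h i i.2
    rw [ext_fin] at this
    simp [KK, this]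

section Roots

variable {ι : Type*} [Fintype ι]

private theorem int_mul_pred (a : ℤ) : 0 ≤ a * (a - 1) := by
  rcases le_or_gt a 0 with h | h
  · nlinarith
  · nlinarith

/-- **ROOTS.** The classes of plane curves of square `-2` orthogonal to `K` for at most
eight points. -/
theorem roots (hk : Fintype.card ι ≤ 8) {C : Cl ℤ ι} (hd : 0 ≤ C.1) (hm : ∀ i, 0 ≤ C.2 i)
    (h2 : ip C C = -2) (hK : ip KK C = 0) :
    (C.1 = 1 ∧ ∀ i, C.2 i = 0 ∨ C.2 i = 1) ∨ (C.1 = 2 ∧ ∀ i, C.2 i = 0 ∨ C.2 i = 1) ∨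
    (C.1 = 3 ∧ Fintype.card ι = 8 ∧ ∃ i0, C.2 i0 = 2 ∧ ∀ i, i ≠ i0 → C.2 i = 1) := by
  classical
  obtain ⟨d, m⟩ := C
  simp only at hd hm
  have hs1 : ∑ i, m i = 3 * d := by
    have := hK; rw [ip_KK] at this; simp only at this; linarith
  have hs2 : ∑ i, m i * m i = d * d + 2 := by
    have := h2; simp only [ip] at this; linarith
  have hk' : (Fintype.card ι : ℤ) ≤ 8 := by exact_mod_cast hk
  have hcard : ∑ _i : ι, (1 : ℤ) = Fintype.card ι := by simp
  have hd4 : d ≤ 4 := by
    have h := Finset.sum_mul_sq_le_sq_mul_sq (Finset.univ : Finset ι) m (fun _ => 1)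
    simp only [mul_one, one_pow, hcard, hs1] at h
    have h' : ∑ i, m i ^ 2 = d * d + 2 := by
      rw [← hs2]; exact Finset.sum_congr rfl fun i _ => sq _
    rw [h'] at h
    by_contra hcon
    push Not at hcon
    nlinarith
  have hd0 : d ≠ 0 := by
    rintro rfl
    have : ∀ i ∈ Finset.univ, m i = 0 :=
      (Finset.sum_eq_zero_iff_of_nonneg (fun i _ => hm i)).1 (by rw [hs1]; ring)
    have h3 : ∑ i, m i * m i = 0 := Finset.sum_eq_zero fun i hi => by rw [this i hi]; ring
    rw [h3] at hs2; norm_num at hs2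
  have hd4' : d ≠ 4 := by
    rintro rfl
    have h3 : ∑ i, (2 * m i - 3) * (2 * m i - 3) = 4 * ∑ i, m i * m i - 12 * ∑ i, m i
        + 9 * ∑ _i : ι, (1 : ℤ) := by
      rw [Finset.mul_sum, Finset.mul_sum, Finset.mul_sum, ← Finset.sum_sub_distrib,
        ← Finset.sum_add_distrib]
      exact Finset.sum_congr rfl fun i _ => by ring
    have h4 : ∑ _i : ι, (1 : ℤ) ≤ ∑ i, (2 * m i - 3) * (2 * m i - 3) := by
      refine Finset.sum_le_sum fun i _ => ?_
      have : 2 * m i - 3 ≤ -1 ∨ 1 ≤ 2 * m i - 3 := by omega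
      rcases this with h | h <;> nlinarith
    rw [h3, hs1, hs2, hcard] at h4
    linarith
  have hpm : ∀ i ∈ (Finset.univ : Finset ι), 0 ≤ m i * (m i - 1) := fun i _ => int_mul_pred _
  have hsum1 : ∑ i, m i * (m i - 1) = d * d + 2 - 3 * d := by
    rw [← hs2, ← hs1, ← Finset.sum_sub_distrib]
    exact Finset.sum_congr rfl fun i _ => by ring
  have h01 : d * d + 2 - 3 * d = 0 → ∀ i, m i = 0 ∨ m i = 1 := by
    intro h i
    rw [h] at hsum1
    have := (Finset.sum_eq_zero_iff_of_nonneg hpm).1 hsum1 i (Finset.mem_univ i)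
    rcases mul_eq_zero.1 this with h | h
    · exact Or.inl h
    · exact Or.inr (by linarith)
  have hcases : d = 1 ∨ d = 2 ∨ d = 3 := by omega
  rcases hcases with rfl | rfl | rfl
  · exact Or.inl ⟨rfl, h01 (by norm_num)⟩
  · exact Or.inr (Or.inl ⟨rfl, h01 (by norm_num)⟩)
  · refine Or.inr (Or.inr ⟨rfl, ?_⟩)
    have hpm2 : ∀ i ∈ (Finset.univ : Finset ι), 0 ≤ (m i - 1) * ((m i - 1) - 1) :=
      fun i _ => int_mul_pred _
    have hsum2 : ∑ i, (m i - 1) * ((m i - 1) - 1) = 2 * (Fintype.card ι : ℤ) - 16 := by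
      have : ∑ i, (m i - 1) * ((m i - 1) - 1) = ∑ i, m i * m i - 3 * ∑ i, m i
          + 2 * ∑ _i : ι, (1 : ℤ) := by
        rw [Finset.mul_sum, Finset.mul_sum, ← Finset.sum_sub_distrib, ← Finset.sum_add_distrib]
        exact Finset.sum_congr rfl fun i _ => by ring
      rw [this, hs1, hs2, hcard]; ring
    have hc8 : (Fintype.card ι : ℤ) = 8 := by
      have := Finset.sum_nonneg hpm2
      rw [hsum2] at this
      omega
    have h12 : ∀ i, m i = 1 ∨ m i = 2 := by
      intro i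
      have := (Finset.sum_eq_zero_iff_of_nonneg hpm2).1 (by rw [hsum2, hc8]; norm_num) i
        (Finset.mem_univ i)
      rcases mul_eq_zero.1 this with h | h
      · exact Or.inl (by linarith)
      · exact Or.inr (by linarith)
    refine ⟨by exact_mod_cast hc8, ?_⟩
    have hsum3 : ∑ i, (m i - 1) = 1 := by
      rw [Finset.sum_sub_distrib, hs1, hcard, hc8]; norm_num
    obtain ⟨i0, hi0⟩ : ∃ i0, m i0 = 2 := by
      by_contra hno
      push Not at hno
      have : ∑ i, (m i - 1) = 0 := Finset.sum_eq_zero fun i _ => by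
        rcases h12 i with h | h
        · rw [h]; ring
        · exact absurd h (hno i)
      rw [this] at hsum3; norm_num at hsum3
    refine ⟨i0, hi0, fun i hi => ?_⟩
    rcases h12 i with h | h
    · exact h
    · exfalso
      have hsub : ∑ j ∈ ({i0, i} : Finset ι), (m j - 1) ≤ ∑ j, (m j - 1) :=
        Finset.sum_le_sum_of_subset_of_nonneg (Finset.subset_univ _) fun j _ _ => by
          rcases h12 j with h | h <;> rw [h] <;> norm_num
      rw [Finset.sum_pair (Ne.symm hi), hi0, h, hsum3] at hsub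
      norm_num at hsub

end Roots

end Pool.Agent.Helper82.LCY
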