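import Pool.Agent.Helper82.LCY.Val

/-!
The points of the projective plane.
-/

open Polynomial

namespace LCY

noncomputable section

variable {L : Type} [Field L] [Algebra ℂ L]

namespace H82

open H62

/-- The local ring `R` is the local ring of the coordinates `u, v`. -/
def PtAt (u v : L) (R : Subalgebra ℂ L) : Prop := ∃ Q : Coord L, Q.x = u ∧ Q.y = v ∧ Q.loc = R

theorem PtAt.unique {u v : L} {R R' : Subalgebra ℂ L} (h : PtAt u v R) (h' : PtAt u v R') :
    R = R' := by
  obtain ⟨Q, rfl, rfl, rfl⟩ := h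
  obtain ⟨Q', h1, h2, rfl⟩ := h'
  exact (loc_congr h1 h2).symm

theorem PtAt.vl_x {u v : L} {R : Subalgebra ℂ L} (h : PtAt u v R) : Vl R u 0 := by
  obtain ⟨Q, rfl, rfl, rfl⟩ := h
  exact H82.vl_x

theorem PtAt.vl_y {u v : L} {R : Subalgebra ℂ L} (h : PtAt u v R) : Vl R v 0 := by
  obtain ⟨Q, rfl, rfl, rfl⟩ := h
  exact H82.vl_y

/-- Equality of points. -/
theorem PtAt.of_vl {u v u' v' : L} {R R' : Subalgebra ℂ L} (h : PtAt u v R) (h' : PtAt u' v' R')
    (h1 : Vl R u' 0) (h2 : Vl R v' 0) (h3 : Vl R' u 0) (h4 : Vl R' v 0) : R = R' := by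
  obtain ⟨Q, rfl, rfl, rfl⟩ := h
  obtain ⟨Q', rfl, rfl, rfl⟩ := h'
  exact loc_eq h1 h2 h3 h4

/-- Another pair of coordinates at the same point. -/
theorem PtAt.change {u v u' v' : L} {R R' : Subalgebra ℂ L} (h : PtAt u v R)
    (h' : PtAt u' v' R') (h1 : Vl R u' 0) (h2 : Vl R v' 0) (h3 : Vl R' u 0) (h4 : Vl R' v 0) :
    PtAt u' v' R := by
  rw [PtAt.of_vl h h' h1 h2 h3 h4]
  exact h'

theorem ptAt_swap {u v : L} {R : Subalgebra ℂ L} (h : PtAt u v R) : PtAt v u R := by
  obtain ⟨Q, rfl, rfl, rfl⟩ := h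
  obtain ⟨Q', h1, h2⟩ := Q.swap
  refine ⟨Q', h1, h2, ?_⟩
  refine loc_eq ?_ ?_ ?_ ?_
  · rw [← h2]; exact H82.vl_y
  · rw [← h1]; exact H82.vl_x
  · rw [h1]; exact H82.vl_y
  · rw [h2]; exact H82.vl_x

theorem lin_def (S : Coord L) (a : Fin 3 → ℂ) : lin S a =
    algebraMap ℂ L (a 0) + algebraMap ℂ L (a 1) * S.x + algebraMap ℂ L (a 2) * S.y := rfl

theorem vl_lin {P : Coord L} {S : Coord L} {a b : ℂ} (hx : Vl P.loc S.x a) (hy : Vl P.loc S.y b)
    (m : Fin 3 → ℂ) : Vl P.loc (lin S m) (m 0 + m 1 * a + m 2 * b) :=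
  vl_add (vl_add (vl_const _) (vl_mul (vl_const _) hx)) (vl_mul (vl_const _) hy)

/-- **The points of the plane.** -/
theorem mem_plane {S : Coord L} {R : Subalgebra ℂ L} (h : R ∈ plane S) :
    (∃ a b : ℂ, PtAt (S.x - algebraMap ℂ L a) (S.y - algebraMap ℂ L b) R) ∨
    (∃ b : ℂ, PtAt S.x⁻¹ (S.y / S.x - algebraMap ℂ L b) R) ∨
    PtAt S.y⁻¹ (S.x / S.y) R := by
  obtain ⟨A, Q, hdet, hR, hx, hy⟩ := h
  have hx0 := S.x_ne
  have hy0 := S.y_ne
  set m0 := lin S (A 0) with hm0
  set m1 := lin S (A 1) with hm1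
  set m2 := lin S (A 2) with hm2
  have hm0' : m0 ≠ 0 := by
    intro h
    rw [h, div_zero] at hx
    exact Q.x_ne hx
  have hu : IsUnit A.det := isUnit_iff_ne_zero.2 hdet
  set B := A⁻¹ with hB
  have hAB : A * B = 1 := Matrix.mul_nonsing_inv A hu
  have hBA : B * A = 1 := Matrix.nonsing_inv_mul A hu
  have eBA : ∀ i j, B i 0 * A 0 j + B i 1 * A 1 j + B i 2 * A 2 j = if i = j then 1 else 0 := by
    intro i j
    have := congrFun (congrFun hBA i) j
    rw [Matrix.mul_apply, Fin.sum_univ_three, Matrix.one_apply] at this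
    exact this
  have eAB : ∀ i j, A i 0 * B 0 j + A i 1 * B 1 j + A i 2 * B 2 j = if i = j then 1 else 0 := by
    intro i j
    have := congrFun (congrFun hAB i) j
    rw [Matrix.mul_apply, Fin.sum_univ_three, Matrix.one_apply] at this
    exact this
  have am : ∀ i j, algebraMap ℂ L (B i 0) * algebraMap ℂ L (A 0 j)
      + algebraMap ℂ L (B i 1) * algebraMap ℂ L (A 1 j)
      + algebraMap ℂ L (B i 2) * algebraMap ℂ L (A 2 j) = algebraMap ℂ L (if i = j then 1 else 0) := by
    intro i j
    rw [← eBA i j]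
    simp only [map_add, map_mul]
  -- the values of `1/m0, x/m0, y/m0`
  have v0 : Vl Q.loc (m0⁻¹) (B 0 0) := by
    have h1 : m0⁻¹ = algebraMap ℂ L (B 0 0) + algebraMap ℂ L (B 0 1) * Q.x
        + algebraMap ℂ L (B 0 2) * Q.y := by
      rw [hx, hy]
      have h00 := am 0 0
      have h01 := am 0 1
      have h02 := am 0 2
      simp only [if_true, map_one] at h00
      rw [if_neg (by decide), map_zero] at h01 h02
      field_simp
      rw [hm0, hm1, hm2, lin_def, lin_def, lin_def]
      linear_combination -h00 - S.x * h01 - S.y * h02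
    rw [h1]
    have := vl_add (vl_add (vl_const (P := Q) (B 0 0)) (vl_mul (vl_const (B 0 1)) vl_x))
      (vl_mul (vl_const (B 0 2)) vl_y)
    simpa using this
  have v1 : Vl Q.loc (S.x / m0) (B 1 0) := by
    have h1 : S.x / m0 = algebraMap ℂ L (B 1 0) + algebraMap ℂ L (B 1 1) * Q.x
        + algebraMap ℂ L (B 1 2) * Q.y := by
      rw [hx, hy]
      have h00 := am 1 0
      have h01 := am 1 1
      have h02 := am 1 2
      simp only [if_true, map_one] at h01
      rw [if_neg (by decide), map_zero] at h00 h02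
      field_simp
      rw [hm0, hm1, hm2, lin_def, lin_def, lin_def]
      linear_combination -h00 - S.x * h01 - S.y * h02
    rw [h1]
    have := vl_add (vl_add (vl_const (P := Q) (B 1 0)) (vl_mul (vl_const (B 1 1)) vl_x))
      (vl_mul (vl_const (B 1 2)) vl_y)
    simpa using this
  have v2 : Vl Q.loc (S.y / m0) (B 2 0) := by
    have h1 : S.y / m0 = algebraMap ℂ L (B 2 0) + algebraMap ℂ L (B 2 1) * Q.x
        + algebraMap ℂ L (B 2 2) * Q.y := by
      rw [hx, hy]
      have h00 := am 2 0
      have h01 := am 2 1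
      have h02 := am 2 2
      simp only [if_true, map_one] at h02
      rw [if_neg (by decide), map_zero] at h00 h01
      field_simp
      rw [hm0, hm1, hm2, lin_def, lin_def, lin_def]
      linear_combination -h00 - S.x * h01 - S.y * h02
    rw [h1]
    have := vl_add (vl_add (vl_const (P := Q) (B 2 0)) (vl_mul (vl_const (B 2 1)) vl_x))
      (vl_mul (vl_const (B 2 2)) vl_y)
    simpa using this
  have e0 := eAB 0 0
  have e1 := eAB 1 0
  have e2 := eAB 2 0
  simp only [if_true] at e0
  rw [if_neg (by decide)] at e1 e2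
  by_cases hp0 : B 0 0 = 0
  · by_cases hp1 : B 1 0 = 0
    · -- the point `(0 : 0 : 1)`
      right; right
      have hp2 : B 2 0 ≠ 0 := by
        intro h; rw [hp0, hp1, h] at e0; simp at e0
      obtain ⟨T, hT1, hT2⟩ := S.tor 0 (-1) 1 (-1) (Or.inl (by norm_num))
      have t1 : T.x = S.y⁻¹ := by rw [hT1]; simp
      have t2 : T.y = S.x / S.y := by rw [hT2]; simp [div_eq_mul_inv]
      refine ⟨T, t1, t2, ?_⟩
      rw [← hR]
      have w1 : Vl Q.loc S.y⁻¹ 0 := by
        have : S.y⁻¹ = m0⁻¹ / (S.y / m0) := by field_simp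
        rw [this]
        have := vl_div v0 v2 hp2
        rwa [hp0, zero_div] at this
      have w2 : Vl Q.loc (S.x / S.y) 0 := by
        have : S.x / S.y = (S.x / m0) / (S.y / m0) := by field_simp
        rw [this]
        have := vl_div v1 v2 hp2
        rwa [hp1, zero_div] at this
      have u1 : Vl T.loc S.y⁻¹ 0 := by rw [← t1]; exact vl_x
      have u2 : Vl T.loc (S.x / S.y) 0 := by rw [← t2]; exact vl_y
      have key : ∀ i, Vl T.loc (lin S (A i) / S.y) (A i 2) := by
        intro i
        have h1 : lin S (A i) / S.y = algebraMap ℂ L (A i 0) * S.y⁻¹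
            + algebraMap ℂ L (A i 1) * (S.x / S.y) + algebraMap ℂ L (A i 2) := by
          rw [lin_def]; field_simp
        rw [h1]
        have := vl_add (vl_add (vl_mul (vl_const (P := T) (A i 0)) u1)
          (vl_mul (vl_const (A i 1)) u2)) (vl_const (A i 2))
        simpa using this
      rw [hp0, hp1] at e0 e1 e2
      simp only [mul_zero, zero_add] at e0 e1 e2
      have a02 : A 0 2 ≠ 0 := by intro h; rw [h] at e0; simp at e0
      have a12 : A 1 2 = 0 := (mul_eq_zero.1 e1).resolve_right hp2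
      have a22 : A 2 2 = 0 := (mul_eq_zero.1 e2).resolve_right hp2
      refine loc_eq ?_ ?_ ?_ ?_
      · have : Q.x = (m1 / S.y) / (m0 / S.y) := by rw [hx]; field_simp
        rw [this]
        have := vl_div (key 1) (key 0) a02
        rwa [a12, zero_div] at this
      · have : Q.y = (m2 / S.y) / (m0 / S.y) := by rw [hy]; field_simp
        rw [this]
        have := vl_div (key 2) (key 0) a02
        rwa [a22, zero_div] at this
      · rw [t1]; exact w1
      · rw [t2]; exact w2
    · -- the point `(0 : 1 : b)`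
      right; left
      refine ⟨B 2 0 / B 1 0, ?_⟩
      set b := B 2 0 / B 1 0 with hb
      obtain ⟨T0, hT1, hT2⟩ := S.tor (-1) 0 (-1) 1 (Or.inr (by norm_num))
      obtain ⟨T, hT3, hT4⟩ := T0.trans 0 b
      have t1 : T.x = S.x⁻¹ := by rw [hT3, hT1]; simp
      have t2 : T.y = S.y / S.x - algebraMap ℂ L b := by
        rw [hT4, hT2]; simp [div_eq_mul_inv, mul_comm]
      refine ⟨T, t1, t2, ?_⟩
      rw [← hR]
      have w1 : Vl Q.loc S.x⁻¹ 0 := by
        have : S.x⁻¹ = m0⁻¹ / (S.x / m0) := by field_simp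
        rw [this]
        have := vl_div v0 v1 hp1
        rwa [hp0, zero_div] at this
      have w2 : Vl Q.loc (S.y / S.x) b := by
        have : S.y / S.x = (S.y / m0) / (S.x / m0) := by field_simp
        rw [this]
        exact vl_div v2 v1 hp1
      have u1 : Vl T.loc S.x⁻¹ 0 := by rw [← t1]; exact vl_x
      have u2 : Vl T.loc (S.y / S.x) b := by
        have h1 := vl_add (vl_y (P := T)) (vl_const (P := T) b)
        rw [t2, sub_add_cancel, zero_add] at h1
        exact h1
      have key : ∀ i, Vl T.loc (lin S (A i) / S.x) (A i 1 + A i 2 * b) := by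
        intro i
        have h1 : lin S (A i) / S.x = algebraMap ℂ L (A i 0) * S.x⁻¹
            + algebraMap ℂ L (A i 1) + algebraMap ℂ L (A i 2) * (S.y / S.x) := by
          rw [lin_def]; field_simp
        rw [h1]
        have := vl_add (vl_add (vl_mul (vl_const (P := T) (A i 0)) u1)
          (vl_const (A i 1))) (vl_mul (vl_const (A i 2)) u2)
        simpa using this
      have hAi : ∀ i, (A i 1 + A i 2 * b) * B 1 0 = A i 0 * B 0 0 + A i 1 * B 1 0
          + A i 2 * B 2 0 := by
        intro i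
        rw [hb, hp0]; field_simp; ring
      have a0 : A 0 1 + A 0 2 * b ≠ 0 := by
        intro h
        have := hAi 0
        rw [h, e0] at this; simp at this
      have a1 : A 1 1 + A 1 2 * b = 0 := by
        have := hAi 1
        rw [e1] at this
        exact (mul_eq_zero.1 this).resolve_right hp1
      have a2 : A 2 1 + A 2 2 * b = 0 := by
        have := hAi 2
        rw [e2] at this
        exact (mul_eq_zero.1 this).resolve_right hp1
      refine loc_eq ?_ ?_ ?_ ?_
      · have : Q.x = (m1 / S.x) / (m0 / S.x) := by rw [hx]; field_simp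
        rw [this]
        have := vl_div (key 1) (key 0) a0
        rwa [a1, zero_div] at this
      · have : Q.y = (m2 / S.x) / (m0 / S.x) := by rw [hy]; field_simp
        rw [this]
        have := vl_div (key 2) (key 0) a0
        rwa [a2, zero_div] at this
      · rw [t1]; exact w1
      · rw [t2]
        have := vl_sub w2 (vl_const (P := Q) b)
        rwa [sub_self] at this
  · -- an affine point
    left
    refine ⟨B 1 0 / B 0 0, B 2 0 / B 0 0, ?_⟩
    set a := B 1 0 / B 0 0 with ha
    set b := B 2 0 / B 0 0 with hb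
    obtain ⟨T, t1, t2⟩ := S.trans a b
    refine ⟨T, t1, t2, ?_⟩
    rw [← hR]
    have w1 : Vl Q.loc S.x a := by
      have : S.x = (S.x / m0) / m0⁻¹ := by field_simp
      rw [this]
      exact vl_div v1 v0 hp0
    have w2 : Vl Q.loc S.y b := by
      have : S.y = (S.y / m0) / m0⁻¹ := by field_simp
      rw [this]
      exact vl_div v2 v0 hp0
    have u1 : Vl T.loc S.x a := by
      have h1 := vl_add (vl_x (P := T)) (vl_const (P := T) a)
      rw [t1, sub_add_cancel, zero_add] at h1
      exact h1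
    have u2 : Vl T.loc S.y b := by
      have h1 := vl_add (vl_y (P := T)) (vl_const (P := T) b)
      rw [t2, sub_add_cancel, zero_add] at h1
      exact h1
    have key : ∀ i, Vl T.loc (lin S (A i)) (A i 0 + A i 1 * a + A i 2 * b) :=
      fun i => vl_lin u1 u2 (A i)
    have hAi : ∀ i, (A i 0 + A i 1 * a + A i 2 * b) * B 0 0 = A i 0 * B 0 0 + A i 1 * B 1 0
        + A i 2 * B 2 0 := by
      intro i
      rw [ha, hb]; field_simp
    have a0 : A 0 0 + A 0 1 * a + A 0 2 * b ≠ 0 := by
      intro h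
      have := hAi 0
      rw [h, e0] at this; simp at this
    have a1 : A 1 0 + A 1 1 * a + A 1 2 * b = 0 := by
      have := hAi 1
      rw [e1] at this
      exact (mul_eq_zero.1 this).resolve_right hp0
    have a2 : A 2 0 + A 2 1 * a + A 2 2 * b = 0 := by
      have := hAi 2
      rw [e2] at this
      exact (mul_eq_zero.1 this).resolve_right hp0
    refine loc_eq ?_ ?_ ?_ ?_
    · rw [hx]
      have := vl_div (key 1) (key 0) a0
      rwa [a1, zero_div] at this
    · rw [hy]
      have := vl_div (key 2) (key 0) a0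
      rwa [a2, zero_div] at this
    · rw [t1]
      have := vl_sub w1 (vl_const (P := Q) a)
      rwa [sub_self] at this
    · rw [t2]
      have := vl_sub w2 (vl_const (P := Q) b)
      rwa [sub_self] at this

theorem plane_aff {S : Coord L} {R : Subalgebra ℂ L} {a b : ℂ}
    (h : PtAt (S.x - algebraMap ℂ L a) (S.y - algebraMap ℂ L b) R) : R ∈ plane S := by
  obtain ⟨Q, h1, h2, h3⟩ := h
  refine ⟨!![1, 0, 0; -a, 1, 0; -b, 0, 1], Q, ?_, h3, ?_, ?_⟩
  · rw [Matrix.det_fin_three]; simp
  · rw [h1, lin_def, lin_def]; simp; ring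
  · rw [h2, lin_def, lin_def]; simp; ring

theorem plane_inf {S : Coord L} {R : Subalgebra ℂ L} {b : ℂ}
    (h : PtAt S.x⁻¹ (S.y / S.x - algebraMap ℂ L b) R) : R ∈ plane S := by
  obtain ⟨Q, h1, h2, h3⟩ := h
  have hx := S.x_ne
  refine ⟨!![0, 1, 0; 1, 0, 0; 0, -b, 1], Q, ?_, h3, ?_, ?_⟩
  · rw [Matrix.det_fin_three]; simp
  · rw [h1, lin_def, lin_def]; simp
  · rw [h2, lin_def, lin_def]; simp; field_simp; ring

theorem plane_ver {S : Coord L} {R : Subalgebra ℂ L}
    (h : PtAt S.y⁻¹ (S.x / S.y) R) : R ∈ plane S := by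
  obtain ⟨Q, h1, h2, h3⟩ := h
  have hy := S.y_ne
  refine ⟨!![0, 0, 1; 1, 0, 0; 0, 1, 0], Q, ?_, h3, ?_, ?_⟩
  · rw [Matrix.det_fin_three]; simp
  · rw [h1, lin_def, lin_def]; simp
  · rw [h2, lin_def, lin_def]; simp

end H82

end

end LCY
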