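import Pool.Agent.Helper82.LCY.Qax
import Pool.Agent.Helper50.LCY.Div

/-!
Two structures on the same surface: the classes are determined by the classes of the line at
infinity and of the exceptional curves.
-/

open Polynomial Pool.Agent.Helper82.LCY

namespace LCY

noncomputable section

variable {L : Type} [Field L] [Algebra ℂ L]

namespace H82

open H62

theorem cur_iff_of_X {k : ℕ} {T T' : PStr L k} (hX : T'.X = T.X) (v : DVal L) :
    T'.Cur v ↔ T.Cur v := by
  unfold PStr.Cur; rw [hX]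

theorem C_of_X {k : ℕ} {T T' : PStr L k} (hX : T'.X = T.X) : T'.C = T.C := by
  unfold PStr.C
  ext v
  simp only [Set.mem_ofPred_eq, cur_iff_of_X hX]

theorem isDiv_of_X {k : ℕ} {T T' : PStr L k} (hX : T'.X = T.X) {D : DVal L → ℤ} :
    T'.IsDiv D ↔ T.IsDiv D := by
  unfold PStr.IsDiv; rw [C_of_X hX]

theorem clD_congr {k : ℕ} {T : PStr L k} {D D' : DVal L → ℤ} (h : ∀ v ∈ T.C, D v = D' v) :
    T.clD D = T.clD D' := by
  unfold PStr.clD
  exact finsum_mem_congr rfl fun v hv => by rw [h v hv]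

theorem ext_gen (h16 : ST_A16) (h17 : ST_A17) (h18 : ST_A18) (hB1 : ST_B1) (hB3 : ST_B3)
    {k : ℕ} (T T' : PStr L k) (hX : T'.X = T.X) (q : Cl ℤ (Fin k) →+ Cl ℤ (Fin k))
    (hinf : ∀ v, IsInf T.S v → T'.cl v = q (T.cl v))
    (hord : ∀ i v, IsOrd (T.R i) v → T'.cl v = q (T.cl v)) {v : DVal L} (hv : T.Cur v) :
    T'.cl v = q (T.cl v) := by
  obtain ⟨E, hE⟩ := H50.exists_Cf h16 h17 h18 T
  have hC : T'.C = T.C := C_of_X hX
  have key : ∀ (c : Cl ℤ (Fin k)) (m : ℕ), m ≤ k → ∃ D, T.IsDiv D ∧ T'.clD D = q (T.clD D) ∧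
      (T.clD D).1 = c.1 ∧ ∀ i : Fin k, (i : ℕ) < m → (T.clD D).2 i = c.2 i := by
    intro c m
    induction m with
    | zero =>
      intro _
      refine ⟨H50.sgl T.S.inf c.1, H50.isDiv_sgl _ _ _, ?_, ?_,
        fun i hi => absurd hi (Nat.not_lt_zero _)⟩
      · rw [H50.clD_sgl T hE.inf, H50.clD_sgl T' (hC ▸ hE.inf), hinf _ (H97.isInf_inf _), map_zsmul]
      · rw [H50.clD_sgl T hE.inf, Prod.smul_fst, hE.dinf, smul_eq_mul, mul_one]
    | succ m ih =>
      intro hm
      obtain ⟨D, h1, h0, h2, h3⟩ := ih (Nat.le_of_succ_le hm)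
      set i0 : Fin k := ⟨m, hm⟩ with hi0
      set n := (T.clD D).2 i0 - c.2 i0 with hn
      have hs := H50.isDiv_sgl T (E i0) n
      have h1' := (isDiv_of_X hX).2 h1
      have hs' := (isDiv_of_X hX).2 hs
      refine ⟨fun v => D v + H50.sgl (E i0) n v, H50.isDiv_add h1 hs, ?_, ?_, ?_⟩
      · rw [H50.clD_add h1 hs, H50.clD_add h1' hs', H50.clD_sgl T (hE.mem i0),
          H50.clD_sgl T' (hC ▸ hE.mem i0), h0, hord i0 _ (hE.ord i0), _root_.map_add, map_zsmul]
      · rw [H50.clD_add h1 hs, H50.clD_sgl T (hE.mem i0), Prod.fst_add, Prod.smul_fst,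
          hE.dexc, smul_zero, add_zero, h2]
      · intro i hi
        rw [H50.clD_add h1 hs, H50.clD_sgl T (hE.mem i0), Prod.snd_add, Prod.smul_snd,
          Pi.add_apply, Pi.smul_apply]
        by_cases h4 : (i : ℕ) = m
        · have h5 : i = i0 := Fin.ext h4
          rw [h5, hE.diag, smul_eq_mul]
          ring
        · have h5 : i < i0 := by
            rw [Fin.lt_def]
            show (i : ℕ) < m
            omega
          rw [hE.low i0 i h5, smul_zero, add_zero, h3 i (by omega)]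
  have hvC : H97.nrm v ∈ T.C := ⟨H97.nrm_zero v, H97.cur_congr (H97.nrm_same v) hv⟩
  rw [H97.cl_congr (H97.nrm_same v) T, H97.cl_congr (H97.nrm_same v) T']
  obtain ⟨D, h1, h0, h2, h3⟩ := key (T.cl (H97.nrm v)) k le_rfl
  have hD : T.clD D = T.cl (H97.nrm v) := Prod.ext h2 (funext fun i => h3 i i.2)
  have hs := H50.isDiv_sgl T (H97.nrm v) 1
  have hs' := (isDiv_of_X hX).2 hs
  have h1' := (isDiv_of_X hX).2 h1
  have h4 : T.clD (fun w => H50.sgl (H97.nrm v) 1 w - D w) = 0 := by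
    rw [H50.clD_sub hs h1, H50.clD_sgl T hvC, hD, one_smul, sub_self]
  obtain ⟨f, hf, hval⟩ := hB3 L k T _ (H50.isDiv_sub hs h1) h4
  have h5 : T'.clD (fun w => H50.sgl (H97.nrm v) 1 w - D w) = 0 := by
    rw [clD_congr (D' := fun w => w.v f), (hB1 L k T' f hf).2]
    intro w hw
    rw [hC] at hw
    exact (hval w hw).symm
  rw [H50.clD_sub hs' h1', H50.clD_sgl T' (hC ▸ hvC), one_smul, sub_eq_zero] at h5
  rw [h5, h0, hD]

/-- The quadratic transformation of the classes with three multiplicities. -/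
def q3 : Cl ℤ (Fin 3) →+ Cl ℤ (Fin 3) where
  toFun c := (2 * c.1 - c.2 0 - c.2 1 - c.2 2,
    ![c.1 - c.2 1 - c.2 2, c.1 - c.2 0 - c.2 2, c.1 - c.2 0 - c.2 1])
  map_zero' := by
    refine Prod.ext ?_ (funext fun i => ?_)
    · simp
    · fin_cases i <;> simp
  map_add' a b := by
    refine Prod.ext ?_ (funext fun i => ?_)
    · simp only [Prod.fst_add, Prod.snd_add, Pi.add_apply]; ring
    · fin_cases i <;> simp only [Prod.fst_add, Prod.snd_add, Pi.add_apply, Matrix.cons_val,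
        Fin.zero_eta, Fin.mk_one, Fin.reduceFinMk] <;> ring

/-- The class with given entries. -/
theorem cl_eq {T : PStr L 3} {v : DVal L} {d a b c : ℤ} (hd : deg T.S v = d)
    (h0 : mul (T.R 0) v = a) (h1 : mul (T.R 1) v = b) (h2 : mul (T.R 2) v = c) :
    T.cl v = (d, ![a, b, c]) := by
  refine Prod.ext hd (funext fun i => ?_)
  fin_cases i
  · exact h0
  · exact h1
  · exact h2

theorem q3_mk (d a b c : ℤ) : q3 (d, ![a, b, c]) =
    (2 * d - a - b - c, ![d - b - c, d - a - c, d - a - b]) := rfl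

/-- The class part of `QuadPair` from the surface part. -/
theorem quadPair_of {S S' : Coord L} {R R' : Fin 3 → Subalgebra ℂ L}
    (hR : ∀ i : Fin 3, R i ∈ surf S R i) (hR' : ∀ i : Fin 3, R' i ∈ surf S' R' i)
    (hX : surf S' R' 3 = surf S R 3)
    (h : ∀ v, (⟨S, R, hR⟩ : PStr L 3).Cur v →
      (⟨S', R', hR'⟩ : PStr L 3).cl v = q3 ((⟨S, R, hR⟩ : PStr L 3).cl v)) :
    QuadPair S S' R R' := by
  refine ⟨hR', hX, fun v hv => ?_⟩
  have h1 := h v hv
  have e1 := congrArg Prod.fst h1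
  have e2 := fun i => congrFun (congrArg Prod.snd h1) i
  exact ⟨e1, e2 0, e2 1, e2 2⟩

end H82

end

end LCY
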