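import Pool.Agent.Helper82.LCY.Step
import Pool.Agent.Helper82.LCY.Qcl

/-!
Row GM: the geometric form of the theorems of `Gm.lean`.
-/

open Polynomial Pool.Agent.Helper82.LCY

namespace LCY

noncomputable section

variable {L : Type} [Field L] [Algebra ℂ L]

namespace H82

theorem ff_eq_fcl (k j : ℕ) : (ff k j : Cl ℤ (Fin k)) = fcl k j := by
  refine Prod.ext ?_ rfl
  show (if j ≤ 1 then (1 : ℤ) else if j = 2 then 2 else 3) =
    if j = 0 then 1 else if j = 1 then 1 else if j = 2 then 2 else 3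
  rcases j with _ | _ | _ | j
  · rfl
  · rfl
  · rfl
  · simp

theorem v1 (k : ℕ) : ((1 : Fin (k + 3)) : ℕ) = 1 := by simp

theorem v2 (k : ℕ) : ((2 : Fin (k + 3)) : ℕ) = 2 := by
  change 2 % (k + 3) = 2
  rw [Nat.mod_eq_of_lt (by omega)]

theorem quad_eq {k : ℕ} (c : Cl ℤ (Fin (k + 3))) : quad c = quadCl c := by
  have h := ip_al0 (k := k + 3) (by omega) c
  have e0 : ext c.2 0 = c.2 0 := ext_fin c.2 0
  have e1 : ext c.2 1 = c.2 1 := by
    have := ext_fin c.2 1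
    rwa [v1] at this
  have e2 : ext c.2 2 = c.2 2 := by
    have := ext_fin c.2 2
    rwa [v2] at this
  rw [e0, e1, e2] at h
  refine Prod.ext ?_ (funext fun i => ?_)
  · show 2 * c.1 - c.2 0 - c.2 1 - c.2 2 = c.1 + ip c (al0 (k + 3)) * 1
    rw [h]; ring
  · show (if i = 0 then c.1 - c.2 1 - c.2 2
      else if i = 1 then c.1 - c.2 0 - c.2 2 else if i = 2 then c.1 - c.2 0 - c.2 1 else c.2 i) =
      c.2 i + ip c (al0 (k + 3)) * (if (i : ℕ) < 3 then 1 else 0)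
    rw [h]
    by_cases h0 : i = 0
    · rw [if_pos h0, h0, if_pos (by simp)]; ring
    by_cases h1 : i = 1
    · rw [if_neg h0, if_pos h1, h1, if_pos (by rw [v1]; norm_num)]; ring
    by_cases h2 : i = 2
    · rw [if_neg h0, if_neg h1, if_pos h2, h2, if_pos (by rw [v2]; norm_num)]; ring
    rw [if_neg h0, if_neg h1, if_neg h2, if_neg, mul_zero, add_zero]
    intro h3
    have h4 : (i : ℕ) ≠ 0 := fun h => h0 (Fin.ext h)
    have h5 : (i : ℕ) ≠ 1 := fun h => h1 (Fin.ext (by rw [v1]; exact h))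
    have h6 : (i : ℕ) ≠ 2 := fun h => h2 (Fin.ext (by rw [v2]; exact h))
    omega

theorem chi2_eq {k : ℕ} (c : Cl ℤ (Fin k)) : chi2 c = ip c c - ip KK c + 2 := by
  unfold chi2
  rw [ip_KK]
  simp only [ip, mul_add, mul_one, Finset.sum_add_distrib]
  ring

/-! ### The types of curves -/

theorem cur_ord (h17 : ST_A17) {k : ℕ} {T : PStr L k} {p : Fin k} {v : DVal L}
    (h : IsOrd (T.R p) v) : T.Cur v := (h17 L k T v).2 (Or.inr ⟨p, h⟩)

theorem typeB_ord (h17 : ST_A17) (h18 : ST_A18) (hTY : ST_TY) {k : ℕ} {T : PStr L k} {p : Fin k}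
    {v : DVal L} (h : IsOrd (T.R p) v) : TypeB p (T.cl v) := by
  obtain ⟨-, h1, h2, -⟩ := h18 L k T p v h
  rcases hTY L k T v (cur_ord h17 h) with h3 | ⟨h3, q, h4, h5, h6, h7⟩
  · exfalso
    have h4 : (T.cl v).1 = 0 := h1
    omega
  · obtain rfl := h2 q h4
    exact ⟨h3, h5, h6, h7⟩

theorem types_cur (hTY : ST_TY) {k : ℕ} {T : PStr L k} {v : DVal L} (h : T.Cur v) :
    TypeA (T.cl v) ∨ ∃ p, TypeB p (T.cl v) ∧ IsOrd (T.R p) v := by
  rcases hTY L k T v h with h3 | ⟨h3, q, h4, h5, h6, h7⟩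
  · exact Or.inl h3
  · exact Or.inr ⟨q, ⟨h3, h5, h6, h7⟩, h4⟩

theorem types_cur' (hTY : ST_TY) {k : ℕ} {T : PStr L k} {v : DVal L} (h : T.Cur v) :
    TypeA (T.cl v) ∨ ∃ p, TypeB p (T.cl v) := by
  rcases types_cur hTY h with h | ⟨p, h, -⟩
  · exact Or.inl h
  · exact Or.inr ⟨p, h⟩

theorem inf_mem (h17 : ST_A17) {k : ℕ} (T : PStr L k) : T.S.inf ∈ T.C :=
  ⟨H50.inf_zero _, (h17 L k T _).2 (Or.inl (Or.inl (H97.isInf_inf _)))⟩

theorem nrm_mem {k : ℕ} {T : PStr L k} {v : DVal L} (hv : T.Cur v) : H97.nrm v ∈ T.C :=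
  ⟨H97.nrm_zero v, H97.cur_congr (H97.nrm_same v) hv⟩

theorem cl_nrm {k : ℕ} (T : PStr L k) (v : DVal L) : T.cl (H97.nrm v) = T.cl v :=
  (H97.cl_congr (H97.nrm_same v) T).symm

theorem exists_ord (h16 : ST_A16) {k : ℕ} (T : PStr L k) (p : Fin k) :
    ∃ v, IsOrd (T.R p) v := by
  obtain ⟨P, hP⟩ := h16 L k T p _ (T.valid p)
  exact ⟨P.ord, hP ▸ H97.isOrd_ord P⟩

/-! ### The two moves -/

theorem swap_geo (h13 : ST_A13) (h16 : ST_A16) (h17 : ST_A17) (h18 : ST_A18) (hTY : ST_TY)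
    (hSW : ST_SW) {k : ℕ} (T : PStr L k) (i : ℕ) (h : i + 1 < k)
    (hno : ¬ ∃ v, T.Cur v ∧ TypeB ⟨i, Nat.lt_of_succ_lt h⟩ (T.cl v) ∧
      (T.cl v).2 ⟨i + 1, h⟩ = 1) :
    ∃ T' : PStr L k, T'.X = T.X ∧ ∀ v, T'.cl v =
      permCl (Equiv.swap ⟨i, Nat.lt_of_succ_lt h⟩ ⟨i + 1, h⟩) (T.cl v) := by
  obtain ⟨T', h1, h2, h3⟩ := hSW L k T i h (by
    intro hN
    obtain ⟨v, hv⟩ := exists_ord h16 T ⟨i, Nat.lt_of_succ_lt h⟩
    exact hno ⟨v, cur_ord h17 hv, typeB_ord h17 h18 hTY hv, ((h13 L _ _ v hN).2.2.2.2 hv).2⟩)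
  refine ⟨T', h2, fun v => ?_⟩
  unfold PStr.cl permCl
  rw [h1, h3]
  rfl

theorem quad_geo (hQD : ST_QD) {k : ℕ} (T : PStr L k) (hk : 3 ≤ k)
    (hK : ∀ v, T.Cur v → ip KK (T.cl v) ≤ 0)
    (hno : ¬ ∃ v, T.Cur v ∧ (T.cl v).1 = 1 ∧ ∀ i : Fin k, (i : ℕ) < 3 → (T.cl v).2 i = 1) :
    ∃ T' : PStr L k, T'.X = T.X ∧ ∀ v, T.Cur v → T'.cl v = quadCl (T.cl v) := by
  obtain ⟨k, rfl⟩ : ∃ k', k = k' + 3 := ⟨k - 3, by omega⟩
  obtain ⟨T', h1, h2⟩ := hQD L k T hK (by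
    rintro v hv ⟨a, b, c, d⟩
    refine hno ⟨v, hv, a, fun i hi => ?_⟩
    have : i = 0 ∨ i = 1 ∨ i = 2 := by
      rcases (by omega : (i : ℕ) = 0 ∨ (i : ℕ) = 1 ∨ (i : ℕ) = 2) with h | h | h
      · exact Or.inl (Fin.ext h)
      · exact Or.inr (Or.inl (Fin.ext (by rw [v1]; exact h)))
      · exact Or.inr (Or.inr (Fin.ext (by rw [v2]; exact h)))
    rcases this with rfl | rfl | rfl
    · exact b
    · exact c
    · exact d)
  exact ⟨T', h1, fun v hv => by rw [h2 v hv, quad_eq]⟩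

/-- The structures on the surface of `T0`. -/
def marks (h13 : ST_A13) (h16 : ST_A16) (h17 : ST_A17) (h18 : ST_A18) (hTY : ST_TY)
    (hSW : ST_SW) (hQD : ST_QD) {k : ℕ} (T0 : PStr L k) :
    Marks {v : DVal L // v ∈ T0.C} {T : PStr L k // T.X = T0.X} k where
  cl s c := s.1.cl c.1
  types s c := types_cur' hTY ((cur_iff_of_X s.2 _).2 c.2.2)
  line s := ⟨⟨s.1.S.inf, by rw [← C_of_X s.2]; exact inf_mem h17 s.1⟩,
    if_pos (H97.isInf_inf _)⟩
  exc s p := by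
    obtain ⟨v, hv⟩ := exists_ord h16 s.1 p
    refine ⟨⟨H97.nrm v, by rw [← C_of_X s.2]; exact nrm_mem (cur_ord h17 hv)⟩, ?_⟩
    show TypeB p (s.1.cl (H97.nrm v))
    rw [cl_nrm]
    exact typeB_ord h17 h18 hTY hv
  swap s i h hno := by
    obtain ⟨T', h1, h2⟩ := swap_geo h13 h16 h17 h18 hTY hSW s.1 i h (by
      rintro ⟨v, hv, a, b⟩
      refine hno ⟨⟨H97.nrm v, by rw [← C_of_X s.2]; exact nrm_mem hv⟩, ?_, ?_⟩
      · show TypeB _ (s.1.cl (H97.nrm v))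
        rw [cl_nrm]; exact a
      · show (s.1.cl (H97.nrm v)).2 _ = 1
        rw [cl_nrm]; exact b)
    exact ⟨⟨T', h1.trans s.2⟩, fun c => h2 c.1⟩
  quad s hk hK hno := by
    obtain ⟨T', h1, h2⟩ := quad_geo hQD s.1 hk (by
      intro v hv
      have := hK ⟨H97.nrm v, by rw [← C_of_X s.2]; exact nrm_mem hv⟩
      change ip KK (s.1.cl (H97.nrm v)) ≤ 0 at this
      rwa [cl_nrm] at this) (by
      rintro ⟨v, hv, a, b⟩
      refine hno ⟨⟨H97.nrm v, by rw [← C_of_X s.2]; exact nrm_mem hv⟩, ?_, ?_⟩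
      · show (s.1.cl (H97.nrm v)).1 = 1
        rw [cl_nrm]; exact a
      · show ∀ i : Fin k, (i : ℕ) < 3 → (s.1.cl (H97.nrm v)).2 i = 1
        rw [cl_nrm]; exact b)
    exact ⟨⟨T', h1.trans s.2⟩, fun c => h2 c.1 ((cur_iff_of_X s.2 _).2 c.2.2)⟩

/-! ### Effectivity -/

theorem eff_of (hC5 : ST_C5) {k : ℕ} (T : PStr L k) (c : Cl ℤ (Fin k)) (h0 : 0 ≤ c.1)
    (h : 0 < chi2 c) : Eff (fun v : {v : DVal L // v ∈ T.C} => T.cl v.1) c := by
  obtain ⟨n, h1, h2, h3⟩ := hC5 L k T c h0 h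
  have hfin : (Function.support fun v : {v : DVal L // v ∈ T.C} => n v.1 • T.cl v.1).Finite := by
    have h4 : {v : {v : DVal L // v ∈ T.C} | n v.1 ≠ 0}.Finite := by
      refine Set.Finite.of_injOn (f := Subtype.val) (t := {v | v ∈ T.C ∧ n v ≠ 0}) ?_
        Subtype.val_injective.injOn h1
      rintro v hv
      exact ⟨v.2, hv⟩
    refine h4.subset fun v hv h => hv ?_
    show n v.1 • T.cl v.1 = 0
    rw [h, zero_smul]
  refine ⟨hfin.toFinset, fun v => n v.1, fun v _ => h2 _ v.2, ?_⟩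
  rw [← h3]
  unfold PStr.clD
  rw [← finsum_set_coe_eq_finsum_mem, finsum_eq_sum_of_support_toFinset_subset _ hfin le_rfl]

theorem ip_eff {k : ℕ} {κ : Type*} {cl : κ → Cl ℤ (Fin k)} {B G : Cl ℤ (Fin k)}
    (hG : Eff cl G) (hB : ∀ c, 0 ≤ ip B (cl c)) : 0 ≤ ip B G := by
  obtain ⟨s, n, h1, rfl⟩ := hG
  rw [ip_sum_right]
  refine Finset.sum_nonneg fun c hc => ?_
  rw [ip_smul_right]
  exact mul_nonneg (h1 c hc) (hB c)

theorem small_dom (hC5 : ST_C5) {k : ℕ} (hk : k < 3) (T : PStr L k) {B : Cl ℤ (Fin k)}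
    (hB : ∀ c : {v : DVal L // v ∈ T.C}, 0 ≤ ip B (T.cl c.1)) :
    ext B.2 0 + ext B.2 1 + ext B.2 2 ≤ B.1 := by
  have h1 : 0 < chi2 (al0 k) := by
    interval_cases k <;> simp [chi2, al0, Fin.sum_univ_succ]
  have h2 := ip_eff (eff_of hC5 T (al0 k) (by show (0 : ℤ) ≤ 1; norm_num) h1) hB
  interval_cases k
  · simpa [ip, al0, Pool.Agent.Helper82.LCY.ext] using h2
  · simpa [ip, al0, Pool.Agent.Helper82.LCY.ext] using h2
  · simp [ip, al0, Pool.Agent.Helper82.LCY.ext, Fin.sum_univ_succ] at h2 ⊢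
    linarith

/-- **ST_GM.** -/
theorem st_GM (h13 : ST_A13) (h16 : ST_A16) (h17 : ST_A17) (h18 : ST_A18) (hTY : ST_TY)
    (hSW : ST_SW) (hQD : ST_QD) (hC5 : ST_C5) : ST_GM := by
  intro L _ _ k T hk8 hK B hB _
  have hX : ∀ c : {v : DVal L // v ∈ T.C}, ip KK ((marks h13 h16 h17 h18 hTY hSW hQD T).cl
      ⟨T, rfl⟩ c) ≤ 0 := fun c => hK _ c.2.2
  obtain ⟨s, φ, h1, h2, h3, h4⟩ := (marks h13 h16 h17 h18 hTY hSW hQD T).gm
    (fun hk s B hB => by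
      refine small_dom hC5 hk s.1 (B := B) fun c => ?_
      have hc : c.1 ∈ T.C := by rw [← C_of_X s.2]; exact c.2
      exact hB ⟨c.1, hc⟩) ⟨T, rfl⟩ hX B (fun c => hB _ c.2.2)
  refine ⟨s.1, φ.f.toAddEquiv, s.2, φ.iso, φ.canon, fun v hv => ?_, h2, h3, ?_⟩
  · have := h1 ⟨H97.nrm v, nrm_mem hv⟩
    change s.1.cl (H97.nrm v) = φ.f (T.cl (H97.nrm v)) at this
    rwa [cl_nrm, cl_nrm] at this
  · have e : ∑ i : Fin k, (if (i : ℕ) < 3 then (φ.f B).2 i else 0) =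
        ext (φ.f B).2 0 + ext (φ.f B).2 1 + ext (φ.f B).2 2 := by
      have h5 : ∑ i : Fin k, (if (i : ℕ) < 3 then (φ.f B).2 i else 0)
          = ∑ i ∈ Finset.range k, (if i < 3 then ext (φ.f B).2 i else 0) := by
        rw [Finset.sum_range]
        exact Finset.sum_congr rfl fun i _ => by rw [ext_fin]
      have h6 : ∑ i ∈ Finset.range k, (if i < 3 then ext (φ.f B).2 i else 0)
          = ∑ i ∈ Finset.range (k + 3), (if i < 3 then ext (φ.f B).2 i else 0) := by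
        refine Finset.sum_subset (Finset.range_mono (by omega)) fun i _ hi => ?_
        rw [ext_ge _ (by simpa using hi), ite_self]
      have h7 : ∑ i ∈ Finset.range 3, (if i < 3 then ext (φ.f B).2 i else 0)
          = ∑ i ∈ Finset.range (k + 3), (if i < 3 then ext (φ.f B).2 i else 0) := by
        refine Finset.sum_subset (Finset.range_mono (by omega)) fun i _ hi => ?_
        rw [if_neg (by simpa using hi)]
      rw [h5, h6, ← h7]
      simp [Finset.sum_range_succ]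
    show ∑ i : Fin k, (if (i : ℕ) < 3 then (φ.f B).2 i else 0) ≤ (φ.f B).1
    rw [e]
    exact h4

end H82

end

end LCY
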