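import Pool.Agent.Helper82.LCY.Qcl

/-!
The classes of the curves of the standard configurations; rows QA, QB, QC.
-/

open Polynomial Pool.Agent.Helper82.LCY

namespace LCY

noncomputable section

variable {L : Type} [Field L] [Algebra ℂ L]

namespace H82

open H62

/-! ### Multiplicities at points with given coordinates -/

theorem pt_ord {u w : L} {R : Subalgebra ℂ L} (h : PtAt u w R) {v : DVal L} (h1 : v.v u = 1)
    (h2 : ResTr v.v (w / u)) : mul R v = -1 := by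
  obtain ⟨P, rfl, rfl, rfl⟩ := h; exact mul_ord' h1 h2

theorem pt_isOrd {u w : L} {R : Subalgebra ℂ L} (h : PtAt u w R) {v : DVal L} (h1 : v.v u = 1)
    (h2 : ResTr v.v (w / u)) : IsOrd R v := by
  obtain ⟨P, rfl, rfl, rfl⟩ := h; exact isOrd_iff_ax.2 ⟨h1, h2⟩

theorem pt_of_ord {u w : L} {R : Subalgebra ℂ L} (h : PtAt u w R) {v : DVal L} (h1 : IsOrd R v) :
    v.v u = 1 ∧ ResTr v.v (w / u) := by
  obtain ⟨P, rfl, rfl, rfl⟩ := h; exact isOrd_iff_ax.1 h1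

theorem pt_ax1 {u w : L} {R : Subalgebra ℂ L} (h : PtAt u w R) {v : DVal L} (h1 : v.v u = 1)
    (h2 : ResTr v.v w) : mul R v = 1 := by
  obtain ⟨P, rfl, rfl, rfl⟩ := h; exact mul_ax1 h1 h2

theorem pt_ax2 {u w : L} {R : Subalgebra ℂ L} (h : PtAt u w R) {v : DVal L} (h1 : v.v w = 1)
    (h2 : ResTr v.v u) : mul R v = 1 := by
  obtain ⟨P, rfl, rfl, rfl⟩ := h; exact mul_ax2 h1 h2

theorem pt_neg_x {u w : L} {R : Subalgebra ℂ L} (h : PtAt u w R) {v : DVal L} (h1 : v.v u < 0) :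
    mul R v = 0 := by
  obtain ⟨P, rfl, rfl, rfl⟩ := h; exact mul_neg_x h1

theorem pt_neg_y {u w : L} {R : Subalgebra ℂ L} (h : PtAt u w R) {v : DVal L} (h1 : v.v w < 0) :
    mul R v = 0 := by
  obtain ⟨P, rfl, rfl, rfl⟩ := h; exact mul_neg_y h1

theorem low (h18 : ST_A18) {k : ℕ} (T : PStr L k) {i j : Fin k} {v : DVal L}
    (h : IsOrd (T.R i) v) (hj : j < i) : mul (T.R j) v = 0 := by
  obtain ⟨-, -, h3, h4, -⟩ := h18 L k T i v h
  unfold mul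
  rw [if_neg, if_neg (h4 j hj)]
  intro h5
  exact hj.ne (h3 j h5)

/-- the value of `b` from the value of `a` if `b / a` is residually transcendental -/
theorem val_of_div {v : DVal L} {a b : L} (ha : a ≠ 0) (hb : b ≠ 0) (h : ResTr v.v (b / a)) :
    v.v b = v.v a := by
  have := resTr_val h
  rw [v.map_div hb ha] at this
  omega

/-! ### Table A -/

section A

variable {T : PStr L 3} {S' : Coord L} {v : DVal L}

theorem A_inf (h : StdA T.S S' T.R) (h1 : v.v T.S.x = -1) (h2 : ResTr v.v (T.S.y / T.S.x)) :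
    T.cl v = (1, ![0, 1, 1]) := by
  have hx := T.S.x_ne
  have hy := T.S.y_ne
  have h3 := val_of_div hx hy h2
  have r0 : PtAt T.S.x T.S.y (T.R 0) := h.r0
  have r1 : PtAt T.S.x⁻¹ (T.S.y / T.S.x) (T.R 1) := h.r1
  have r2 : PtAt T.S.y⁻¹ (T.S.x / T.S.y) (T.R 2) := h.r2
  refine cl_eq (deg_inf' h1 h2) (pt_neg_x r0 (by omega)) (pt_ax1 r1 ?_ h2)
    (pt_ax1 r2 ?_ (resTr_div_swap h2))
  · rw [v.map_inv hx]; omega
  · rw [v.map_inv hy]; omega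

theorem A_e0 (h18 : ST_A18) (h : StdA T.S S' T.R) (h1 : v.v T.S.x = 1)
    (h2 : ResTr v.v (T.S.y / T.S.x)) : T.cl v = (0, ![-1, 0, 0]) := by
  have hx := T.S.x_ne
  have hy := T.S.y_ne
  have h3 := val_of_div hx hy h2
  have r0 : PtAt T.S.x T.S.y (T.R 0) := h.r0
  have r1 : PtAt T.S.x⁻¹ (T.S.y / T.S.x) (T.R 1) := h.r1
  have r2 : PtAt T.S.y⁻¹ (T.S.x / T.S.y) (T.R 2) := h.r2
  refine cl_eq (h18 L 3 T 0 v (pt_isOrd r0 h1 h2)).2.1 (pt_ord r0 h1 h2) (pt_neg_x r1 ?_)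
    (pt_neg_x r2 ?_)
  · rw [v.map_inv hx]; omega
  · rw [v.map_inv hy]; omega

theorem A_e1 (h18 : ST_A18) (h : StdA T.S S' T.R) (h1 : v.v T.S.x = -1)
    (h2 : ResTr v.v T.S.y) : T.cl v = (0, ![0, -1, 0]) := by
  have hx := T.S.x_ne
  have hy := T.S.y_ne
  have h3 := resTr_val h2
  have r0 : PtAt T.S.x T.S.y (T.R 0) := h.r0
  have r1 : PtAt T.S.x⁻¹ (T.S.y / T.S.x) (T.R 1) := h.r1
  have r2 : PtAt T.S.y⁻¹ (T.S.x / T.S.y) (T.R 2) := h.r2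
  have e : T.S.y / T.S.x / T.S.x⁻¹ = T.S.y := by field_simp
  have h4 : v.v T.S.x⁻¹ = 1 := by rw [v.map_inv hx]; omega
  have h5 : ResTr v.v (T.S.y / T.S.x / T.S.x⁻¹) := by rw [e]; exact h2
  refine cl_eq (h18 L 3 T 1 v (pt_isOrd r1 h4 h5)).2.1 (pt_neg_x r0 (by omega)) (pt_ord r1 h4 h5)
    (pt_neg_y r2 ?_)
  rw [v.map_div hx hy]; omega

theorem A_e2 (h18 : ST_A18) (h : StdA T.S S' T.R) (h1 : v.v T.S.y = -1)
    (h2 : ResTr v.v T.S.x) : T.cl v = (0, ![0, 0, -1]) := by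
  have hx := T.S.x_ne
  have hy := T.S.y_ne
  have h3 := resTr_val h2
  have r0 : PtAt T.S.x T.S.y (T.R 0) := h.r0
  have r1 : PtAt T.S.x⁻¹ (T.S.y / T.S.x) (T.R 1) := h.r1
  have r2 : PtAt T.S.y⁻¹ (T.S.x / T.S.y) (T.R 2) := h.r2
  have e : T.S.x / T.S.y / T.S.y⁻¹ = T.S.x := by field_simp
  have h4 : v.v T.S.y⁻¹ = 1 := by rw [v.map_inv hy]; omega
  have h5 : ResTr v.v (T.S.x / T.S.y / T.S.y⁻¹) := by rw [e]; exact h2
  refine cl_eq (h18 L 3 T 2 v (pt_isOrd r2 h4 h5)).2.1 (pt_neg_y r0 (by omega)) (pt_neg_y r1 ?_)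
    (pt_ord r2 h4 h5)
  rw [v.map_div hy hx]; omega

theorem A_l1 (h : StdA T.S S' T.R) (h1 : v.v T.S.x = 1) (h2 : ResTr v.v T.S.y) :
    T.cl v = (1, ![1, 0, 1]) := by
  have hx := T.S.x_ne
  have hy := T.S.y_ne
  have h3 := resTr_val h2
  have r0 : PtAt T.S.x T.S.y (T.R 0) := h.r0
  have r1 : PtAt T.S.x⁻¹ (T.S.y / T.S.x) (T.R 1) := h.r1
  have r2 : PtAt T.S.y⁻¹ (T.S.x / T.S.y) (T.R 2) := h.r2
  refine cl_eq (deg_ax1 h1 h2) (pt_ax1 r0 h1 h2) (pt_neg_x r1 ?_) (pt_ax2 r2 ?_ (resTr_inv h2))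
  · rw [v.map_inv hx]; omega
  · rw [v.map_div hx hy]; omega

theorem A_l2 (h : StdA T.S S' T.R) (h1 : v.v T.S.y = 1) (h2 : ResTr v.v T.S.x) :
    T.cl v = (1, ![1, 1, 0]) := by
  have hx := T.S.x_ne
  have hy := T.S.y_ne
  have h3 := resTr_val h2
  have r0 : PtAt T.S.x T.S.y (T.R 0) := h.r0
  have r1 : PtAt T.S.x⁻¹ (T.S.y / T.S.x) (T.R 1) := h.r1
  have r2 : PtAt T.S.y⁻¹ (T.S.x / T.S.y) (T.R 2) := h.r2
  refine cl_eq (deg_ax2 h1 h2) (pt_ax2 r0 h1 h2) (pt_ax2 r1 ?_ (resTr_inv h2)) (pt_neg_x r2 ?_)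
  · rw [v.map_div hy hx]; omega
  · rw [v.map_inv hy]; omega

end A

/-- **QA.** -/
theorem st_QA (h16 : ST_A16) (h17 : ST_A17) (h18 : ST_A18) (hB1 : ST_B1) (hB3 : ST_B3) :
    ST_QA := by
  intro L _ _ S S' R h
  obtain ⟨R', h', hR', hX⟩ := qA h
  have hR := stdA_mem h
  refine ⟨R', h', quadPair_of hR hR' hX fun v hv => ?_⟩
  set T : PStr L 3 := ⟨S, R, hR⟩ with hT
  set T' : PStr L 3 := ⟨S', R', hR'⟩ with hT'
  have a : StdA T.S S' T.R := h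
  have a' : StdA T'.S S T'.R := h'
  have hx := S.x_ne
  have hy := S.y_ne
  have ex : T'.S.x = S.x⁻¹ := h.x
  have ey : T'.S.y = S.y⁻¹ := h.y
  have eyx : T'.S.y / T'.S.x = S.x / S.y := by rw [ex, ey]; field_simp
  have r1 : PtAt S.x⁻¹ (S.y / S.x) (R 1) := h.r1
  have r2 : PtAt S.y⁻¹ (S.x / S.y) (R 2) := h.r2
  refine ext_gen h16 h17 h18 hB1 hB3 T T' hX q3 ?_ ?_ hv
  · intro v hv
    obtain ⟨h1, h2⟩ := isInf_iff_ax.1 hv
    rw [A_inf a h1 h2, A_e0 h18 a' (by rw [ex, v.map_inv hx, h1]; norm_num)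
      (by rw [eyx]; exact resTr_div_swap h2), q3_mk]
    rfl
  · intro i v hi
    fin_cases i
    · obtain ⟨h1, h2⟩ := pt_of_ord (show PtAt S.x S.y (R 0) from h.r0) hi
      rw [A_e0 h18 a h1 h2, A_inf a' (by rw [ex, v.map_inv hx, h1])
        (by rw [eyx]; exact resTr_div_swap h2), q3_mk]
      rfl
    · obtain ⟨h1, h2⟩ := pt_of_ord r1 hi
      rw [v.map_inv hx] at h1
      rw [show S.y / S.x / S.x⁻¹ = S.y by field_simp] at h2
      rw [A_e1 h18 a (by show v.v S.x = -1; omega) h2,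
        A_l1 a' (by rw [ex, v.map_inv hx, h1]) (by rw [ey]; exact resTr_inv h2), q3_mk]
      rfl
    · obtain ⟨h1, h2⟩ := pt_of_ord r2 hi
      rw [v.map_inv hy] at h1
      rw [show S.x / S.y / S.y⁻¹ = S.x by field_simp] at h2
      rw [A_e2 h18 a (by show v.v S.y = -1; omega) h2,
        A_l2 a' (by rw [ey, v.map_inv hy, h1]) (by rw [ex]; exact resTr_inv h2), q3_mk]
      rfl

/-! ### Table B -/

section B

variable {T : PStr L 3} {S' : Coord L} {v : DVal L}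

theorem B_inf (h : StdB T.S S' T.R) (h1 : v.v T.S.x = -1) (h2 : ResTr v.v (T.S.y / T.S.x)) :
    T.cl v = (1, ![0, 0, 1]) := by
  have hx := T.S.x_ne
  have hy := T.S.y_ne
  have h3 := val_of_div hx hy h2
  have r0 : PtAt T.S.x T.S.y (T.R 0) := h.r0
  have r1 : PtAt T.S.x (T.S.y / T.S.x) (T.R 1) := h.r1
  have r2 : PtAt T.S.y⁻¹ (T.S.x / T.S.y) (T.R 2) := h.r2
  refine cl_eq (deg_inf' h1 h2) (pt_neg_x r0 (by omega)) (pt_neg_x r1 (by omega))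
    (pt_ax1 r2 ?_ (resTr_div_swap h2))
  rw [v.map_inv hy]; omega

theorem B_e0 (h18 : ST_A18) (h : StdB T.S S' T.R) (h1 : v.v T.S.x = 1)
    (h2 : ResTr v.v (T.S.y / T.S.x)) : T.cl v = (0, ![-1, 1, 0]) := by
  have hx := T.S.x_ne
  have hy := T.S.y_ne
  have h3 := val_of_div hx hy h2
  have r0 : PtAt T.S.x T.S.y (T.R 0) := h.r0
  have r1 : PtAt T.S.x (T.S.y / T.S.x) (T.R 1) := h.r1
  have r2 : PtAt T.S.y⁻¹ (T.S.x / T.S.y) (T.R 2) := h.r2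
  refine cl_eq (h18 L 3 T 0 v (pt_isOrd r0 h1 h2)).2.1 (pt_ord r0 h1 h2) (pt_ax1 r1 h1 h2)
    (pt_neg_x r2 ?_)
  rw [v.map_inv hy]; omega

theorem B_e1 (h18 : ST_A18) (h : StdB T.S S' T.R) (h1 : v.v T.S.x = 1)
    (h2 : ResTr v.v (T.S.y / T.S.x / T.S.x)) : T.cl v = (0, ![0, -1, 0]) := by
  have hx := T.S.x_ne
  have hy := T.S.y_ne
  have h3 := resTr_val h2
  rw [v.map_div (div_ne_zero hy hx) hx, v.map_div hy hx] at h3
  have r0 : PtAt T.S.x T.S.y (T.R 0) := h.r0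
  have r1 : PtAt T.S.x (T.S.y / T.S.x) (T.R 1) := h.r1
  have r2 : PtAt T.S.y⁻¹ (T.S.x / T.S.y) (T.R 2) := h.r2
  have h4 := pt_isOrd r1 h1 h2
  refine cl_eq (h18 L 3 T 1 v h4).2.1 (low h18 T h4 (by decide)) (pt_ord r1 h1 h2)
    (pt_neg_x r2 ?_)
  rw [v.map_inv hy]; omega

theorem B_e2 (h18 : ST_A18) (h : StdB T.S S' T.R) (h1 : v.v T.S.y = -1)
    (h2 : ResTr v.v T.S.x) : T.cl v = (0, ![0, 0, -1]) := by
  have hx := T.S.x_ne
  have hy := T.S.y_ne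
  have h3 := resTr_val h2
  have r0 : PtAt T.S.x T.S.y (T.R 0) := h.r0
  have r1 : PtAt T.S.x (T.S.y / T.S.x) (T.R 1) := h.r1
  have r2 : PtAt T.S.y⁻¹ (T.S.x / T.S.y) (T.R 2) := h.r2
  have e : T.S.x / T.S.y / T.S.y⁻¹ = T.S.x := by field_simp
  have h4 : v.v T.S.y⁻¹ = 1 := by rw [v.map_inv hy]; omega
  have h5 : ResTr v.v (T.S.x / T.S.y / T.S.y⁻¹) := by rw [e]; exact h2
  refine cl_eq (h18 L 3 T 2 v (pt_isOrd r2 h4 h5)).2.1 (pt_neg_y r0 (by omega)) (pt_neg_y r1 ?_)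
    (pt_ord r2 h4 h5)
  rw [v.map_div hy hx]; omega

theorem B_l1 (h : StdB T.S S' T.R) (h1 : v.v T.S.x = 1) (h2 : ResTr v.v T.S.y) :
    T.cl v = (1, ![1, 0, 1]) := by
  have hx := T.S.x_ne
  have hy := T.S.y_ne
  have h3 := resTr_val h2
  have r0 : PtAt T.S.x T.S.y (T.R 0) := h.r0
  have r1 : PtAt T.S.x (T.S.y / T.S.x) (T.R 1) := h.r1
  have r2 : PtAt T.S.y⁻¹ (T.S.x / T.S.y) (T.R 2) := h.r2
  refine cl_eq (deg_ax1 h1 h2) (pt_ax1 r0 h1 h2) (pt_neg_y r1 ?_) (pt_ax2 r2 ?_ (resTr_inv h2))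
  · rw [v.map_div hy hx]; omega
  · rw [v.map_div hx hy]; omega

theorem B_l2 (h : StdB T.S S' T.R) (h1 : v.v T.S.y = 1) (h2 : ResTr v.v T.S.x) :
    T.cl v = (1, ![1, 1, 0]) := by
  have hx := T.S.x_ne
  have hy := T.S.y_ne
  have h3 := resTr_val h2
  have r0 : PtAt T.S.x T.S.y (T.R 0) := h.r0
  have r1 : PtAt T.S.x (T.S.y / T.S.x) (T.R 1) := h.r1
  have r2 : PtAt T.S.y⁻¹ (T.S.x / T.S.y) (T.R 2) := h.r2
  refine cl_eq (deg_ax2 h1 h2) (pt_ax2 r0 h1 h2) (pt_ax2 r1 ?_ h2) (pt_neg_x r2 ?_)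
  · rw [v.map_div hy hx]; omega
  · rw [v.map_inv hy]; omega

end B

/-- **QB.** -/
theorem st_QB (h16 : ST_A16) (h17 : ST_A17) (h18 : ST_A18) (hB1 : ST_B1) (hB3 : ST_B3) :
    ST_QB := by
  intro L _ _ S S' R h
  obtain ⟨R', h', hR', hX⟩ := qB h
  have hR := stdB_mem h
  refine ⟨R', h', quadPair_of hR hR' hX fun v hv => ?_⟩
  set T : PStr L 3 := ⟨S, R, hR⟩ with hT
  set T' : PStr L 3 := ⟨S', R', hR'⟩ with hT'
  have a : StdB T.S S' T.R := h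
  have a' : StdB T'.S S T'.R := h'
  have hx := S.x_ne
  have hy := S.y_ne
  have ex : T'.S.x = S.x := h.x
  have ey : T'.S.y = S.x ^ 2 / S.y := h.y
  have eyx : T'.S.y / T'.S.x = S.x / S.y := by rw [ex, ey]; field_simp
  have r1 : PtAt S.x (S.y / S.x) (R 1) := h.r1
  have r2 : PtAt S.y⁻¹ (S.x / S.y) (R 2) := h.r2
  refine ext_gen h16 h17 h18 hB1 hB3 T T' hX q3 ?_ ?_ hv
  · intro v hv
    obtain ⟨h1, h2⟩ := isInf_iff_ax.1 hv
    rw [B_inf a h1 h2, B_inf a' (by rw [ex]; exact h1)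
      (by rw [eyx]; exact resTr_div_swap h2), q3_mk]
    rfl
  · intro i v hi
    fin_cases i
    · obtain ⟨h1, h2⟩ := pt_of_ord (show PtAt S.x S.y (R 0) from h.r0) hi
      rw [B_e0 h18 a h1 h2, B_e0 h18 a' (by rw [ex]; exact h1)
        (by rw [eyx]; exact resTr_div_swap h2), q3_mk]
      rfl
    · obtain ⟨h1, h2⟩ := pt_of_ord r1 hi
      rw [B_e1 h18 a h1 h2, B_l1 a' (by rw [ex]; exact h1) ?_, q3_mk]
      · rfl
      · rw [ey, show S.x ^ 2 / S.y = (S.y / S.x / S.x)⁻¹ by field_simp]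
        exact resTr_inv h2
    · obtain ⟨h1, h2⟩ := pt_of_ord r2 hi
      rw [v.map_inv hy] at h1
      rw [show S.x / S.y / S.y⁻¹ = S.x by field_simp] at h2
      rw [B_e2 h18 a (by show v.v S.y = -1; omega) h2, B_l2 a' ?_ (by rw [ex]; exact h2), q3_mk]
      · rfl
      · rw [ey, v.map_div (pow_ne_zero 2 hx) hy, v.map_pow hx, resTr_val h2]
        omega

/-! ### Table C -/

section C

variable {T : PStr L 3} {S' : Coord L} {v : DVal L}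

/-- in the third point of the case C the function `y / x^2` is a unit -/
theorem mul_c2 {S : Coord L} {R : Subalgebra ℂ L} (r2 : PtAt (S.x / S.y) (S.y / S.x ^ 2 - 1) R)
    (h : v.v (S.y / S.x ^ 2) ≠ 0) : mul R v = 0 := by
  have hx := S.x_ne
  have hy := S.y_ne
  have hs : S.y / S.x ^ 2 ≠ 0 := div_ne_zero hy (pow_ne_zero 2 hx)
  obtain ⟨P, p1, p2, rfl⟩ := r2
  have e1 : Vl P.loc (S.y / S.x ^ 2) 1 := by
    refine vl_of_sub ?_
    rw [map_one, ← p2]; exact vl_y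
  by_cases h0 : v.v (S.y / S.x ^ 2) < 0
  · exact mul_neg' (mem_of_vl e1) h0 hs
  · have e2 := vl_inv e1 one_ne_zero
    refine mul_neg' (mem_of_vl e2) ?_ (inv_ne_zero hs)
    rw [v.map_inv hs]
    omega

theorem C_inf (h : StdC T.S S' T.R) (h1 : v.v T.S.x = -1) (h2 : ResTr v.v (T.S.y / T.S.x)) :
    T.cl v = (1, ![1, 1, 0]) := by
  have hx := T.S.x_ne
  have hy := T.S.y_ne
  have h3 := val_of_div hx hy h2
  have r0 : PtAt (T.S.x / T.S.y) T.S.y⁻¹ (T.R 0) := h.r0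
  have r1 : PtAt (T.S.x / T.S.y) T.S.x⁻¹ (T.R 1) := h.r1
  have r2 : PtAt (T.S.x / T.S.y) (T.S.y / T.S.x ^ 2 - 1) (T.R 2) := h.r2
  refine cl_eq (deg_inf' h1 h2) (pt_ax2 r0 ?_ (resTr_div_swap h2))
    (pt_ax2 r1 ?_ (resTr_div_swap h2)) (mul_c2 r2 ?_)
  · rw [v.map_inv hy]; omega
  · rw [v.map_inv hx]; omega
  · rw [v.map_div hy (pow_ne_zero 2 hx), v.map_pow hx]; omega

theorem C_e0 (h18 : ST_A18) (h : StdC T.S S' T.R) (h1 : v.v (T.S.x / T.S.y) = 1)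
    (h2 : ResTr v.v T.S.x⁻¹) : T.cl v = (0, ![-1, 1, 0]) := by
  have hx := T.S.x_ne
  have hy := T.S.y_ne
  have h3 := resTr_val h2
  rw [v.map_inv hx] at h3
  have r0 : PtAt (T.S.x / T.S.y) T.S.y⁻¹ (T.R 0) := h.r0
  have r1 : PtAt (T.S.x / T.S.y) T.S.x⁻¹ (T.R 1) := h.r1
  have r2 : PtAt (T.S.x / T.S.y) (T.S.y / T.S.x ^ 2 - 1) (T.R 2) := h.r2
  have e : T.S.y⁻¹ / (T.S.x / T.S.y) = T.S.x⁻¹ := by field_simp
  have h5 : ResTr v.v (T.S.y⁻¹ / (T.S.x / T.S.y)) := by rw [e]; exact h2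
  refine cl_eq (h18 L 3 T 0 v (pt_isOrd r0 h1 h5)).2.1 (pt_ord r0 h1 h5) (pt_ax1 r1 h1 h2)
    (mul_c2 r2 ?_)
  rw [v.map_div hx hy] at h1
  rw [v.map_div hy (pow_ne_zero 2 hx), v.map_pow hx]; omega

theorem C_e1 (h18 : ST_A18) (h : StdC T.S S' T.R) (h1 : v.v (T.S.x / T.S.y) = 1)
    (h2 : ResTr v.v (T.S.y / T.S.x ^ 2)) : T.cl v = (0, ![0, -1, 1]) := by
  have hx := T.S.x_ne
  have hy := T.S.y_ne
  have r1 : PtAt (T.S.x / T.S.y) T.S.x⁻¹ (T.R 1) := h.r1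
  have r2 : PtAt (T.S.x / T.S.y) (T.S.y / T.S.x ^ 2 - 1) (T.R 2) := h.r2
  have e : T.S.x⁻¹ / (T.S.x / T.S.y) = T.S.y / T.S.x ^ 2 := by field_simp
  have h5 : ResTr v.v (T.S.x⁻¹ / (T.S.x / T.S.y)) := by rw [e]; exact h2
  have h6 := pt_isOrd r1 h1 h5
  exact cl_eq (h18 L 3 T 1 v h6).2.1 (low h18 T h6 (by decide)) (pt_ord r1 h1 h5)
    (pt_ax1 r2 h1 (resTr_sub_one h2))

theorem C_e2 (h18 : ST_A18) (h : StdC T.S S' T.R) (h1 : v.v (T.S.x / T.S.y) = 1)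
    (h2 : ResTr v.v ((T.S.y / T.S.x ^ 2 - 1) / (T.S.x / T.S.y))) :
    T.cl v = (0, ![0, 0, -1]) := by
  have r2 : PtAt (T.S.x / T.S.y) (T.S.y / T.S.x ^ 2 - 1) (T.R 2) := h.r2
  have h6 := pt_isOrd r2 h1 h2
  exact cl_eq (h18 L 3 T 2 v h6).2.1 (low h18 T h6 (by decide)) (low h18 T h6 (by decide))
    (pt_ord r2 h1 h2)

end C

/-- **QC.** -/
theorem st_QC (h16 : ST_A16) (h17 : ST_A17) (h18 : ST_A18) (hB1 : ST_B1) (hB3 : ST_B3) :
    ST_QC := by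
  intro L _ _ S S' R h
  obtain ⟨R', h', hR', hX⟩ := qC h
  have hR := stdC_mem h
  refine ⟨R', h', quadPair_of hR hR' hX fun v hv => ?_⟩
  set T : PStr L 3 := ⟨S, R, hR⟩ with hT
  set T' : PStr L 3 := ⟨S', R', hR'⟩ with hT'
  have a : StdC T.S S' T.R := h
  have a' : StdC T'.S S T'.R := h'
  have hx := S.x_ne
  have hy := S.y_ne
  have hy' := S'.y_ne
  have ex : T'.S.x = S.x := h.x
  have ey : T'.S.y = S.x ^ 2 - S.y := h.y
  have hy2 : S.x ^ 2 - S.y ≠ 0 := by rw [← h.y]; exact hy'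
  have hs : S.y / S.x ^ 2 ≠ 0 := div_ne_zero hy (pow_ne_zero 2 hx)
  have r0 : PtAt (S.x / S.y) S.y⁻¹ (R 0) := h.r0
  have r1 : PtAt (S.x / S.y) S.x⁻¹ (R 1) := h.r1
  have r2 : PtAt (S.x / S.y) (S.y / S.x ^ 2 - 1) (R 2) := h.r2
  have es : T'.S.y / T'.S.x ^ 2 = 1 - S.y / S.x ^ 2 := by rw [ex, ey]; field_simp
  have hs1 : 1 - S.y / S.x ^ 2 ≠ 0 := by
    rw [← es]; exact div_ne_zero T'.S.y_ne (pow_ne_zero 2 T'.S.x_ne)
  have et : T'.S.x / T'.S.y = S.x⁻¹ / (1 - S.y / S.x ^ 2) := by rw [ex, ey]; field_simp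
  refine ext_gen h16 h17 h18 hB1 hB3 T T' hX q3 ?_ ?_ hv
  · intro v hv
    obtain ⟨h1, h2⟩ := isInf_iff_ax.1 hv
    have h3 := val_of_div hx hy h2
    have h1' : v.v S.x = -1 := h1
    have hvs : v.v (S.y / S.x ^ 2) = 1 := by
      rw [v.map_div hy (pow_ne_zero 2 hx), v.map_pow hx, h3, h1']; norm_num
    have hpos : v.Pos (-(S.y / S.x ^ 2)) := v.pos_neg (Or.inr (by omega))
    have hu := v.val_add_pos one_ne_zero v.map_one hpos
    rw [← sub_eq_add_neg] at hu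
    rw [C_inf a h1 h2, C_e2 h18 a' ?_ ?_, q3_mk]
    · rfl
    · rw [et, v.map_div (inv_ne_zero hx) hs1, v.map_inv hx, hu.2, h1]; norm_num
    · have e : (T'.S.y / T'.S.x ^ 2 - 1) / (T'.S.x / T'.S.y) =
          -(S.y / S.x) * (1 - S.y / S.x ^ 2) := by
        rw [es, et]; field_simp; ring
      rw [e]
      refine resTr_congr (resTr_neg h2) ?_
      have e2 : -(S.y / S.x) * (1 - S.y / S.x ^ 2) - -(S.y / S.x)
          = (S.y / S.x ^ 2) * (S.y / S.x) := by ring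
      rw [e2]
      exact v.pos_mul_int (Or.inr (by omega)) (Or.inr (by rw [resTr_val h2]))
  · intro i v hi
    fin_cases i
    · obtain ⟨h1, h2⟩ := pt_of_ord r0 hi
      rw [show S.y⁻¹ / (S.x / S.y) = S.x⁻¹ by field_simp] at h2
      have h3 := resTr_val h2
      rw [v.map_inv hx] at h3
      have h1' := h1
      rw [v.map_div hx hy] at h1'
      rw [C_e0 h18 a h1 h2, C_e0 h18 a' ?_ (by rw [ex]; exact h2), q3_mk]
      · rfl
      · -- `y' / x' = - (y / x) (1 - x^2 / y)`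
        have e : T'.S.x / T'.S.y = -(S.x / S.y) / (1 + -(S.x ^ 2 / S.y)) := by
          rw [ex, ey]
          have : 1 + -(S.x ^ 2 / S.y) = -(S.x ^ 2 - S.y) / S.y := by field_simp; ring
          rw [this]
          field_simp
        have hpos : v.Pos (-(S.x ^ 2 / S.y)) := by
          refine v.pos_neg (Or.inr ?_)
          rw [v.map_div (pow_ne_zero 2 hx) hy, v.map_pow hx]; omega
        have hu := v.val_add_pos one_ne_zero v.map_one hpos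
        rw [e, v.map_div (neg_ne_zero.2 (div_ne_zero hx hy)) hu.1, hu.2,
          v.map_neg (div_ne_zero hx hy), h1]
        norm_num
    · obtain ⟨h1, h2⟩ := pt_of_ord r1 hi
      rw [show S.x⁻¹ / (S.x / S.y) = S.y / S.x ^ 2 by field_simp] at h2
      rw [C_e1 h18 a h1 h2, C_e1 h18 a' ?_ (by rw [es]; exact resTr_one_sub h2), q3_mk]
      · rfl
      · rw [et, v.map_div (inv_ne_zero hx) hs1, resTr_val (resTr_one_sub h2)]
        have e : S.x⁻¹ = S.x / S.y * (S.y / S.x ^ 2) := by field_simp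
        rw [e, v.map_mul _ _ (div_ne_zero hx hy) hs, h1, resTr_val h2]
        norm_num
    · obtain ⟨h1, h2⟩ := pt_of_ord r2 hi
      have hs1' : S.y / S.x ^ 2 - 1 ≠ 0 := by
        rw [← neg_sub]; exact neg_ne_zero.2 hs1
      have hvs1 : v.v (S.y / S.x ^ 2 - 1) = 1 := by
        rw [val_of_div (div_ne_zero hx hy) hs1' h2, h1]
      have hu := v.val_add_pos one_ne_zero v.map_one
        (show v.Pos (S.y / S.x ^ 2 - 1) from Or.inr (by omega))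
      rw [add_sub_cancel] at hu
      rw [C_e2 h18 a h1 h2, C_inf a' ?_ ?_, q3_mk]
      · rfl
      · have e : S.x = (S.x / S.y * (S.y / S.x ^ 2))⁻¹ := by field_simp
        rw [ex, e, v.map_inv (mul_ne_zero (div_ne_zero hx hy) hs),
          v.map_mul _ _ (div_ne_zero hx hy) hs, h1, hu.2]
        norm_num
      · have e : T'.S.y / T'.S.x = -((S.y / S.x ^ 2 - 1) / (S.x / S.y) / (S.y / S.x ^ 2)) := by
          rw [ex, ey]; field_simp; ring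
        rw [e]
        refine resTr_neg (resTr_congr h2 ?_)
        have e2 : (S.y / S.x ^ 2 - 1) / (S.x / S.y) / (S.y / S.x ^ 2)
            - (S.y / S.x ^ 2 - 1) / (S.x / S.y)
            = -(S.y / S.x ^ 2 - 1) * ((S.y / S.x ^ 2 - 1) / (S.x / S.y) / (S.y / S.x ^ 2)) := by
          field_simp
          ring
        rw [e2]
        refine v.pos_mul_int (v.pos_neg (Or.inr (by omega))) (Or.inr ?_)
        rw [v.map_div (resTr_ne h2) hs, resTr_val h2, hu.2]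
        norm_num

end H82

end

end LCY
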