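import Pool.Agent.Helper82.LCY.StepGeo
import Pool.Agent.Helper11.LCY.Ext

/-!
Row STEP: iteration and assembly.
-/

open Polynomial Pool.Agent.Helper82.LCY

namespace LCY

noncomputable section

variable {L : Type} [Field L] [Algebra ℂ L]

namespace H82

theorem step_loop (h13 : ST_A13) (h16 : ST_A16) (h17 : ST_A17) (h18 : ST_A18) (hTY : ST_TY)
    (hSW : ST_SW) (hQD : ST_QD) (hC3 : ST_C3) (hC5 : ST_C5) {k : ℕ} (hk8 : k ≤ 8)
    (E : Set (DVal L)) : ∀ (j : ℕ) (T : PStr L k) (_ : j ≤ k), (∀ v ∈ E, T.Cur v) →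
    (∀ v ∈ E, ip (fcl k j) (T.cl v) = 0) → (∀ v, T.Cur v → 0 ≤ ip (fcl k j) (T.cl v)) →
    ∃ (T' : PStr L k) (φ : Isom k), T'.X = T.X ∧ (∀ v, T.Cur v → T'.cl v = φ.f (T.cl v)) ∧
      ∃ (j' : ℕ) (hj' : j' ≤ k), (∀ v ∈ E, ip (fcl k j') (T'.cl v) = 0) ∧
        (∀ v, T'.Cur v → 0 ≤ ip (fcl k j') (T'.cl v)) ∧
        (3 ≤ j' → SpansPerp ((T'.trunc j' hj').cl '' {v | v ∈ E ∧ (T'.trunc j' hj').Cur v})) := by
  intro j
  induction j using Nat.strong_induction_on with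
  | _ j ih =>
    intro T hj hE h0 hn
    rcases Nat.lt_or_ge j 3 with h3 | h3
    · exact ⟨T, Isom.id k, rfl, fun v _ => rfl, j, hj, h0, hn, fun h => absurd h (by omega)⟩
    have nef1 : ∀ v, (T.trunc j hj).Cur v → ip KK ((T.trunc j hj).cl v) ≤ 0 := by
      intro v hv
      rw [ip_KK_trunc T j hj v h3]
      have := hn v (H97.cur_trunc h17 T j hj hv)
      omega
    by_cases hs : SpansPerp ((T.trunc j hj).cl '' {v | v ∈ E ∧ (T.trunc j hj).Cur v})
    · exact ⟨T, Isom.id k, rfl, fun v _ => rfl, j, hj, h0, hn, fun _ => hs⟩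
    obtain ⟨T2, φ2, i, hX2, hcl2, hij, h20, h2n⟩ := step_geo h13 h16 h17 h18 hTY hSW hQD hC3 hC5
      h3 (hj.trans hk8) (T.trunc j hj) nef1 {v | v ∈ E ∧ (T.trunc j hj).Cur v} (by
        rintro v ⟨hv, hc⟩
        refine ⟨hc, ?_⟩
        rw [ip_KK_trunc T j hj v h3, h0 v hv, neg_zero]) hs
    obtain ⟨l, rfl⟩ : ∃ l, k = j + l := ⟨k - j, by omega⟩
    set T3 := H11.extend T hj T2 hX2 with hT3
    have hX3 : T3.X = T.X := H11.extend_X T hj T2 hX2
    have htr : T3.trunc j hj = T2 := H11.extend_trunc T hj T2 hX2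
    have hcl3 : ∀ v, T.Cur v → T3.cl v = (extI φ2 l).f (T.cl v) := fun v hv =>
      extend_cl h17 h18 hj hX3 htr hX2 (fun i hi => H11.extR_ge T T2 i hi) φ2 hcl2 hv
    have key1 : ∀ v, ip (fcl (j + l) i) (T3.cl v) = ip (fcl j i) (T2.cl v) := by
      intro v
      rw [ip_fcl_trunc T3 j hj v hij.le, htr]
    have key2 : ∀ v, T.Cur v → ¬ (T.trunc j hj).Cur v → T2.cl v = 0 := by
      intro v hv hc
      rw [← htr]
      refine cl_trunc_zero h17 h18 T3 j hj ((cur_iff_of_X hX3 v).2 hv) ?_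
      rw [htr]
      exact fun h => hc ((cur_iff_of_X hX2 v).1 h)
    obtain ⟨T', φ, g1, g2, j', hj', g3, g4, g5⟩ := ih i hij T3 (hij.le.trans hj)
      (fun v hv => (cur_iff_of_X hX3 v).2 (hE v hv)) (by
        intro v hv
        rw [key1]
        by_cases hc : (T.trunc j hj).Cur v
        · exact h20 v ⟨hv, hc⟩
        · rw [key2 v (hE v hv) hc, ip_zero_right]) (by
        intro v hv
        rw [key1]
        by_cases hc : (T.trunc j hj).Cur v
        · exact h2n v hc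
        · rw [key2 v ((cur_iff_of_X hX3 v).1 hv) hc, ip_zero_right])
    refine ⟨T', φ.comp (extI φ2 l), g1.trans hX3, fun v hv => ?_, j', hj', g3, g4, g5⟩
    rw [g2 v ((cur_iff_of_X hX3 v).2 hv), hcl3 v hv]
    rfl

/-- The class `f_k` on the curves. -/
theorem start_nonneg (hTY : ST_TY) {k : ℕ} (T : PStr L k) {v : DVal L} (hv : T.Cur v)
    (h : ip KK (T.cl v) ≤ 0) : 0 ≤ ip (fcl k k) (T.cl v) := by
  rcases Nat.lt_or_ge k 3 with h3 | h3
  · exact fcl_small_nonneg (types_cur' hTY hv) (by omega)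
  · have := ip_KK_trunc T k le_rfl v h3
    have e : (T.trunc k le_rfl).cl v = T.cl v := rfl
    rw [e] at this
    omega

theorem start_zero (hTY : ST_TY) {k : ℕ} (T : PStr L k) {v : DVal L} (hv : T.Cur v)
    (h : ip KK (T.cl v) = 0) : ip (fcl k k) (T.cl v) = 0 := by
  rcases Nat.lt_or_ge k 3 with h3 | h3
  · rw [ip_KK_ext] at h
    rw [ip_fcl]
    rcases types_cur' hTY hv with hA | ⟨p, hB⟩
    · exfalso
      have h1 : ∑ i ∈ Finset.range k, ext (T.cl v).2 i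
          ≤ ∑ i ∈ Finset.range k, (T.cl v).1 := Finset.sum_le_sum fun i _ => hA.ext_le i
      rw [Finset.sum_const, Finset.card_range, nsmul_eq_mul] at h1
      have h2 := hA.1
      have h4 : (k : ℤ) ≤ 2 := by exact_mod_cast (by omega : k ≤ 2)
      nlinarith
    · rw [hB.1] at h ⊢
      rw [mul_zero, zero_add] at h
      rw [h]
      ring
  · have := ip_KK_trunc T k le_rfl v h3
    have e : (T.trunc k le_rfl).cl v = T.cl v := rfl
    rw [e] at this
    omega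

/-- **ST_STEP.** -/
theorem st_STEP (h13 : ST_A13) (h16 : ST_A16) (h17 : ST_A17) (h18 : ST_A18) (hTY : ST_TY)
    (hSW : ST_SW) (hQD : ST_QD) (hC3 : ST_C3) (hC5 : ST_C5) (hTC : ST_TC) : ST_STEP := by
  intro L _ _ N ω x k T hT E hE
  obtain ⟨T', φ, h1, h2, j, hj, h3, h4, h5⟩ := step_loop h13 h16 h17 h18 hTY hSW hQD hC3 hC5
    hT.le E k T le_rfl (fun v hv => (hE v hv).1)
    (fun v hv => start_zero hTY T (hE v hv).1 (hE v hv).2)
    (fun v hv => start_nonneg hTY T hv (hT.nef v hv))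
  have hS : State ω x T' := H11.state_congr h1 φ.f φ.iso φ.canon h2 hT
  refine ⟨T', φ.f.toAddEquiv, h1, hS, φ.iso, φ.canon, h2, j, hj, ?_, ?_, fun hj3 => ⟨?_, h5 hj3, ?_⟩⟩
  · rw [ff_eq_fcl]; exact h3
  · rw [ff_eq_fcl]; exact h4
  · intro v hv
    rw [ip_KK_trunc T' j hj v hj3]
    have := h4 v (H97.cur_trunc h17 T' j hj hv)
    omega
  · intro hall
    refine H11.state_trunc hTC hS hj hj3 (by rw [ff_eq_fcl]; exact h4) ?_
    intro v hv hw hc
    rw [ff_eq_fcl]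
    exact h3 v (hall v ((cur_iff_of_X h1 v).1 hv) hw hc)

end H82

end

end LCY
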