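import Pool.Agent.Helper82.LCY.Dom

/-!
Row NEF: the nef class of the rank reduction, for an abstract set of curves.
-/

namespace Pool.Agent.Helper82.LCY

open Finset

variable {ι : Type*} [Fintype ι] {κ : Type*}

/-- `G` is the class of an effective divisor. -/
def Eff (cl : κ → Cl ℤ ι) (G : Cl ℤ ι) : Prop :=
  ∃ (s : Finset κ) (n : κ → ℤ), (∀ c ∈ s, 0 ≤ n c) ∧ G = ∑ c ∈ s, n c • cl c

/-- **NEF.** -/
theorem nef_exists (hk : Fintype.card ι ≤ 8) (cl : κ → Cl ℤ ι)
    (hC : ∀ c c', c ≠ c' → 0 ≤ ip (cl c) (cl c'))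
    (hK : ∀ c, ip KK (cl c) ≤ 0)
    (hpos : ∀ (s : Finset κ) (n : κ → ℤ), (∀ c ∈ s, 0 ≤ n c) → ∑ c ∈ s, n c • cl c = 0 →
      ∀ c ∈ s, n c = 0)
    (hR5 : ∀ G : Cl ℤ ι, 0 ≤ G.1 → (∀ i, 0 ≤ G.2 i) → 0 < ip G G - ip KK G + 2 → Eff cl G)
    (EE : Set κ) (hEK : ∀ e ∈ EE, ip KK (cl e) = 0) (hns : ¬ SpansPerp (cl '' EE)) :
    ∃ B : Cl ℤ ι, (∀ c, 0 ≤ ip B (cl c)) ∧ (∀ e ∈ EE, ip B (cl e) = 0) ∧ 0 < ip B B ∧
      (∀ n : ℤ, B ≠ n • KK) := by
  classical
  -- the curves orthogonal to `K`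
  set κ0 := {c : κ // ip KK (cl c) = 0} with hκ0
  set C : κ0 → Cl ℤ ι := fun c => cl c.1 with hCdef
  have hli : LinearIndependent ℤ C := by
    refine ind (A := KK) (KK_sq_pos hk) C (fun c => c.2) (fun c c' h => hC _ _ ?_) ?_
    · exact fun h' => h (Subtype.ext h')
    · intro s n hn hs c hc
      have h1 := hpos (s.map (Function.Embedding.subtype _))
        (fun c => if h : ip KK (cl c) = 0 then n ⟨c, h⟩ else 0) ?_ ?_ c.1 ?_
      · simpa [c.2] using h1
      · intro c' hc'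
        rw [Finset.mem_map] at hc'
        obtain ⟨a, ha, rfl⟩ := hc'
        simpa [a.2] using hn a ha
      · rw [Finset.sum_map, ← hs]
        refine Finset.sum_congr rfl fun a _ => ?_
        simp [a.2, hCdef]
      · rw [Finset.mem_map]
        exact ⟨c, hc, rfl⟩
  obtain ⟨β, hβ0, hKβ, hβE, hβC⟩ := beta_exists hk C (fun c => c.2) hli {c | c.1 ∈ EE} (by
    intro h
    apply hns
    have : C '' {c | c.1 ∈ EE} = cl '' EE := by
      ext x
      constructor
      · rintro ⟨c, hc, rfl⟩; exact ⟨c.1, hc, rfl⟩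
      · rintro ⟨c, hc, rfl⟩; exact ⟨⟨c, hEK c hc⟩, hc, rfl⟩
    rwa [this] at h)
  have hd : 0 < ip (KK : Cl ℤ ι) KK := KK_sq_pos hk
  set d := ip (KK : Cl ℤ ι) KK with hddef
  -- a large multiple of `-K`
  set N0 : ℤ := |β.1| + ∑ i, |β.2 i| + |ip β β| + 1 with hN0
  have hsum0 : 0 ≤ ∑ i, |β.2 i| := Finset.sum_nonneg fun i _ => abs_nonneg _
  have hN0pos : 1 ≤ N0 := by
    have := abs_nonneg β.1; have := abs_nonneg (ip β β); omega
  have hsq : ∀ N : ℤ, ip (N • (-KK) + β) (N • (-KK) + β) = N * N * d + ip β β := by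
    intro N
    rw [ip_add_left, ip_add_right, ip_add_right, ip_smul_left, ip_smul_left, ip_smul_right,
      ip_smul_right, ip_neg_left, ip_neg_left, ip_neg_right, ip_neg_right, ip_comm β KK, hKβ]
    ring
  have hKN : ∀ N : ℤ, ip KK (N • (-KK) + β) = -(N * d) := by
    intro N
    rw [ip_add_right, ip_smul_right, ip_neg_right, hKβ]; ring
  have hsqpos : ∀ N : ℤ, N0 ≤ N → 0 < N * N * d + ip β β := by
    intro N hN
    have h1 : |ip β β| < N := by
      have := abs_nonneg β.1; omega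
    have h2 := neg_abs_le (ip β β)
    nlinarith
  obtain ⟨s, n, hn, hG⟩ : Eff cl (N0 • (-KK) + β) := by
    refine hR5 _ ?_ ?_ ?_
    · have h1 : (N0 • (-KK) + β : Cl ℤ ι).1 = 3 * N0 + β.1 := by
        simp [KK]; ring
      rw [h1]
      have := neg_abs_le β.1; have := abs_nonneg (ip β β); have := abs_nonneg β.1
      omega
    · intro i
      have h1 : (N0 • (-KK) + β : Cl ℤ ι).2 i = N0 + β.2 i := by
        simp [KK]
      rw [h1]
      have h2 : |β.2 i| ≤ ∑ i, |β.2 i| :=
        Finset.single_le_sum (f := fun i => |β.2 i|) (fun i _ => abs_nonneg _) (Finset.mem_univ i)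
      have := neg_abs_le (β.2 i); have := abs_nonneg (ip β β); have := abs_nonneg β.1
      omega
    · rw [hsq, hKN]
      have := hsqpos N0 le_rfl
      nlinarith
  set G : Cl ℤ ι := N0 • (-KK) + β with hGdef
  set M : ℤ := ∑ c ∈ s, |ip G (cl c)| with hM
  have hM0 : 0 ≤ M := Finset.sum_nonneg fun i _ => abs_nonneg _
  refine ⟨(N0 + M) • (-KK) + β, fun c => ?_, fun e he => ?_, ?_, fun a ha => ?_⟩
  · have hsplit : ((N0 + M) • (-KK) + β : Cl ℤ ι) = G + M • (-KK) := by
      rw [hGdef, add_smul]; abel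
    rw [hsplit, ip_add_left, ip_smul_left, ip_neg_left]
    by_cases hc0 : ip KK (cl c) = 0
    · rw [hc0, neg_zero, mul_zero, add_zero, hGdef, ip_add_left, ip_smul_left, ip_neg_left, hc0,
        neg_zero, mul_zero, zero_add]
      exact hβC ⟨c, hc0⟩
    · by_cases hcs : c ∈ s
      · have h1 : 1 ≤ -ip KK (cl c) := by
          have := hK c; omega
        have h2 : |ip G (cl c)| ≤ M :=
          Finset.single_le_sum (f := fun c => |ip G (cl c)|) (fun i _ => abs_nonneg _) hcs
        have h3 := neg_abs_le (ip G (cl c))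
        nlinarith
      · have h1 : 0 ≤ ip G (cl c) := by
          rw [hG, ip_sum_left]
          refine Finset.sum_nonneg fun c' hc' => ?_
          rw [ip_smul_left]
          exact mul_nonneg (hn c' hc') (hC _ _ (fun h => hcs (h ▸ hc')))
        have := hK c
        nlinarith
  · rw [ip_add_left, ip_smul_left, ip_neg_left, hEK e he, neg_zero, mul_zero, zero_add]
    exact hβE ⟨e, hEK e he⟩ he
  · rw [hsq]
    exact hsqpos _ (by omega)
  · apply hβ0
    have h1 := congrArg (fun x => ip KK x) ha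
    simp only [hKN] at h1
    rw [ip_smul_right] at h1
    have h2 : a = -(N0 + M) := by
      have : (a + (N0 + M)) * d = 0 := by rw [add_mul]; linarith
      rcases mul_eq_zero.1 this with h | h
      · linarith
      · exact absurd h hd.ne'
    rw [h2] at ha
    have h3 : (-(N0 + M)) • (KK : Cl ℤ ι) = (N0 + M) • (-KK) := by
      rw [neg_smul, smul_neg]
    rw [h3] at ha
    simpa using ha

end Pool.Agent.Helper82.LCY
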