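import Pool.Agent.Helper82.LCY.Qset3
import Pool.Agent.Helper81.LCY.ClD
import Pool.Agent.Helper97.LCY.SBase
import Pool.Agent.Helper98.LCY.LocD

/-!
Monomial valuations: recognising order valuations, lines and their multiplicities from the values
of the coordinates and a residually transcendental element.
-/

open Polynomial Pool.Agent.Helper82.LCY

namespace LCY

noncomputable section

variable {L : Type} [Field L] [Algebra ℂ L]

namespace H82

open H62

/-! ### Residually transcendental elements -/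

theorem resTr_iff {v : DVal L} {t : L} :
    ResTr v.v t ↔ ∀ c : ℂ, t - algebraMap ℂ L c ≠ 0 ∧ v.v (t - algebraMap ℂ L c) = 0 := by
  constructor
  · intro h c
    have h1 := h (X - C c) (X_sub_C_ne_zero c)
    rwa [map_sub, aeval_X, aeval_C] at h1
  · intro h
    have key : ∀ (n : ℕ) (p : ℂ[X]), p.natDegree ≤ n → p ≠ 0 →
        aeval t p ≠ 0 ∧ v.v (aeval t p) = 0 := by
      intro n
      induction n with
      | zero =>
        intro p hp hne
        rw [eq_C_of_natDegree_eq_zero (Nat.le_zero.1 hp), aeval_C]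
        have hc : p.coeff 0 ≠ 0 := by
          intro h
          apply hne
          rw [eq_C_of_natDegree_eq_zero (Nat.le_zero.1 hp), h, C_0]
        exact ⟨(_root_.map_ne_zero _).2 hc, v.map_const _ hc⟩
      | succ n ih =>
        intro p hp hne
        by_cases hd : p.natDegree = 0
        · exact ih p (by omega) hne
        obtain ⟨c, hc⟩ := IsAlgClosed.exists_root p (by
          intro h
          exact hd (natDegree_eq_of_degree_eq_some h))
        obtain ⟨q, rfl⟩ := dvd_iff_isRoot.2 hc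
        have hq : q ≠ 0 := right_ne_zero_of_mul hne
        have hx : (X - C c : ℂ[X]) ≠ 0 := X_sub_C_ne_zero c
        have hdeg : ((X - C c) * q).natDegree = 1 + q.natDegree := by
          rw [natDegree_mul hx hq, natDegree_X_sub_C]
        obtain ⟨h1, h2⟩ := ih q (by omega) hq
        obtain ⟨h3, h4⟩ := h c
        rw [_root_.map_mul, map_sub, aeval_X, aeval_C]
        exact ⟨mul_ne_zero h3 h1, by rw [v.map_mul _ _ h3 h1, h2, h4, add_zero]⟩
    intro p hp
    exact key _ p le_rfl hp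

theorem resTr_ne {v : DVal L} {t : L} (h : ResTr v.v t) : t ≠ 0 := by
  have := (resTr_iff.1 h 0).1
  rwa [map_zero, sub_zero] at this

theorem resTr_val {v : DVal L} {t : L} (h : ResTr v.v t) : v.v t = 0 := by
  have := (resTr_iff.1 h 0).2
  rwa [map_zero, sub_zero] at this

theorem resTr_inv {v : DVal L} {t : L} (h : ResTr v.v t) : ResTr v.v t⁻¹ := by
  have h0 := resTr_ne h
  rw [resTr_iff]
  intro c
  by_cases hc : c = 0
  · rw [hc, map_zero, sub_zero]
    exact ⟨inv_ne_zero h0, by rw [v.map_inv h0, resTr_val h, neg_zero]⟩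
  · obtain ⟨h1, h2⟩ := resTr_iff.1 h c⁻¹
    have hc' : algebraMap ℂ L c ≠ 0 := (_root_.map_ne_zero _).2 hc
    have e : t⁻¹ - algebraMap ℂ L c = algebraMap ℂ L (-c) * (t - algebraMap ℂ L c⁻¹) * t⁻¹ := by
      rw [map_neg, map_inv₀]
      field_simp
      ring
    have hnc : algebraMap ℂ L (-c) ≠ 0 := (_root_.map_ne_zero _).2 (neg_ne_zero.2 hc)
    rw [e]
    refine ⟨mul_ne_zero (mul_ne_zero hnc h1) (inv_ne_zero h0), ?_⟩
    rw [v.map_mul _ _ (mul_ne_zero hnc h1) (inv_ne_zero h0), v.map_mul _ _ hnc h1,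
      v.map_const _ (neg_ne_zero.2 hc), h2, v.map_inv h0, resTr_val h]
    ring

theorem resTr_congr {v : DVal L} {t t' : L} (h : ResTr v.v t) (hp : v.Pos (t' - t)) :
    ResTr v.v t' := by
  rw [resTr_iff] at h ⊢
  intro c
  obtain ⟨h1, h2⟩ := h c
  have := v.val_add_pos h1 h2 hp
  rwa [show t - algebraMap ℂ L c + (t' - t) = t' - algebraMap ℂ L c by ring] at this

theorem resTr_neg {v : DVal L} {t : L} (h : ResTr v.v t) : ResTr v.v (-t) := by
  rw [resTr_iff] at h ⊢
  intro c
  obtain ⟨h1, h2⟩ := h (-c)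
  have e : -t - algebraMap ℂ L c = -(t - algebraMap ℂ L (-c)) := by rw [map_neg]; ring
  rw [e]
  exact ⟨neg_ne_zero.2 h1, by rw [v.map_neg h1, h2]⟩

theorem resTr_sub_one {v : DVal L} {t : L} (h : ResTr v.v t) : ResTr v.v (t - 1) := by
  rw [resTr_iff] at h ⊢
  intro c
  have := h (1 + c)
  rwa [map_add, map_one, ← sub_sub] at this

theorem resTr_one_sub {v : DVal L} {t : L} (h : ResTr v.v t) : ResTr v.v (1 - t) := by
  have := resTr_neg (resTr_sub_one h)
  rwa [neg_sub] at this

theorem resTr_div_swap {v : DVal L} {a b : L} (h : ResTr v.v (a / b)) : ResTr v.v (b / a) := by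
  have := resTr_inv h
  rwa [inv_div] at this

theorem resTr_same {v w : DVal L} (h : v.Same w) {t : L} (ht : ResTr v.v t) : ResTr w.v t :=
  fun p hp => ⟨(ht p hp).1, by rw [← h _ (ht p hp).1]; exact (ht p hp).2⟩

/-! ### Coordinate axes -/

theorem adic_CX {P : Coord L} {v : DVal L} (h1 : v.v P.x = 1) (h2 : ResTr v.v P.y) :
    IsAdic P (C X) v := by
  have hx : v.Pos P.x := Or.inr (by rw [h1]; exact one_pos)
  have hy : v.Int P.y := Or.inr (by rw [resTr_val h2])
  refine H81.adic_of_centre P prime_CX (v.int_ev hx.int hy) ?_ ?_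
  · rw [ev_CX]; exact hx
  · intro g hg
    obtain ⟨h, hh⟩ := split_X g
    set p := g.map (evalRingHom 0) with hp
    have hr0 : ¬ p ≠ 0 := by
      intro hne
      obtain ⟨h3, h4⟩ := h2 p hne
      have h5 : v.Pos (ev P.x P.y (C X * h)) := by
        rw [_root_.map_mul, ev_CX]
        exact v.pos_mul_int hx (v.int_ev hx.int hy h)
      have h6 := v.val_add_pos h3 h4 h5
      rw [hh, _root_.map_add, ev_mapC] at hg
      rcases hg with hg | hg
      · exact h6.1 hg
      · rw [h6.2] at hg; exact lt_irrefl _ hg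
    rw [not_ne_iff] at hr0
    rw [hh, hr0, Polynomial.map_zero, zero_add]
    exact dvd_mul_right _ _

theorem adic_X {P : Coord L} {v : DVal L} (h1 : v.v P.y = 1) (h2 : ResTr v.v P.x) :
    IsAdic P X v := by
  have hy : v.Pos P.y := Or.inr (by rw [h1]; exact one_pos)
  have hx : v.Int P.x := Or.inr (by rw [resTr_val h2])
  refine H81.adic_of_centre P prime_X (v.int_ev hx hy.int) ?_ ?_
  · rw [ev_X]; exact hy
  · intro g hg
    have hh : g = C (g.coeff 0) + X * g.divX := by
      rw [add_comm]; exact (X_mul_divX_add g).symm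
    set p := g.coeff 0 with hp
    have hr0 : ¬ p ≠ 0 := by
      intro hne
      obtain ⟨h3, h4⟩ := h2 p hne
      have h5 : v.Pos (ev P.x P.y (X * g.divX)) := by
        rw [_root_.map_mul, ev_X]
        exact v.pos_mul_int hy (v.int_ev hx hy.int _)
      have h6 := v.val_add_pos h3 h4 h5
      rw [hh, _root_.map_add, ev_C] at hg
      rcases hg with hg | hg
      · exact h6.1 hg
      · rw [h6.2] at hg; exact lt_irrefl _ hg
    rw [not_ne_iff] at hr0
    rw [hh, hr0, C_0, zero_add]
    exact dvd_mul_right _ _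

theorem isOrd_iff_ax {P : Coord L} {v : DVal L} :
    IsOrd P.loc v ↔ v.v P.x = 1 ∧ ResTr v.v (P.y / P.x) := by
  rw [isOrd_iff]
  constructor
  · intro h
    refine ⟨by rw [h _ P.x_ne, ord_x], resTr_same (H97.same_symm h) (resTr_ord P)⟩
  · rintro ⟨h1, h2⟩
    have h3 : IsAdic (P.st (some 0)) (C X) v := by
      refine adic_CX ?_ ?_
      · rw [P.st_some_x]; exact h1
      · rw [P.st_some_y, map_zero, sub_zero]; exact h2
    exact H98.adic_ord h3

theorem isInf_iff_ax {S : Coord L} {v : DVal L} :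
    IsInf S v ↔ v.v S.x = -1 ∧ ResTr v.v (S.y / S.x) := by
  have hx := S.x_ne
  constructor
  · intro h
    have h1 : v.Same S.inf := H97.isInf_unique h (H97.isInf_inf S)
    refine ⟨by rw [h1 _ hx, H97.inf_v_x], ?_⟩
    refine resTr_same (H97.same_symm h1) ?_
    have := resTr_axis S.cinf
    rwa [S.cinf_y] at this
  · rintro ⟨h1, h2⟩
    have h3 : IsAdic S.cinf (C X) v := by
      refine adic_CX ?_ ?_
      · rw [S.cinf_x, v.map_inv hx, h1, neg_neg]
      · rw [S.cinf_y]; exact h2
    have h4 : v.Same S.inf := H97.isAdic_same h3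
    exact H97.isInf_congr (H97.same_symm h4) (H97.isInf_inf S)

/-! ### Multiplicities -/

theorem mul_ord' {P : Coord L} {v : DVal L} (h1 : v.v P.x = 1) (h2 : ResTr v.v (P.y / P.x)) :
    mul P.loc v = -1 := if_pos (isOrd_iff_ax.2 ⟨h1, h2⟩)

theorem mul_ax1 {P : Coord L} {v : DVal L} (h1 : v.v P.x = 1) (h2 : ResTr v.v P.y) :
    mul P.loc v = 1 := by
  rw [(H81.st_A7 L P v _ (adic_CX h1 h2) H81.cf0_CX).1, H81.ordn_CX]; rfl

theorem mul_ax2 {P : Coord L} {v : DVal L} (h1 : v.v P.y = 1) (h2 : ResTr v.v P.x) :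
    mul P.loc v = 1 := by
  rw [(H81.st_A7 L P v _ (adic_X h1 h2) H81.cf0_X).1, H81.ordn_X]; rfl

theorem mul_neg' {P : Coord L} {v : DVal L} {z : L} (hz : z ∈ P.loc) (h : v.v z < 0)
    (h0 : z ≠ 0) : mul P.loc v = 0 := by
  unfold mul
  rw [if_neg, if_neg]
  · intro h1
    rcases h1.1 z hz with h2 | h2
    · exact h0 h2
    · omega
  · intro h1
    rw [isOrd_iff] at h1
    have := H81.ord_nonneg hz h0
    rw [← h1 z h0] at this
    omega

theorem mul_neg_x {P : Coord L} {v : DVal L} (h : v.v P.x < 0) : mul P.loc v = 0 := by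
  have := P.ev_mem_loc (C X)
  rw [ev_CX] at this
  exact mul_neg' this h P.x_ne

theorem mul_neg_y {P : Coord L} {v : DVal L} (h : v.v P.y < 0) : mul P.loc v = 0 := by
  have := P.ev_mem_loc X
  rw [ev_X] at this
  exact mul_neg' this h P.y_ne

theorem deg_inf' {S : Coord L} {v : DVal L} (h1 : v.v S.x = -1) (h2 : ResTr v.v (S.y / S.x)) :
    deg S v = 1 := if_pos (isInf_iff_ax.2 ⟨h1, h2⟩)

theorem deg_ax1 {S : Coord L} {v : DVal L} (h1 : v.v S.x = 1) (h2 : ResTr v.v S.y) :
    deg S v = 1 := by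
  rw [(H81.st_A8 L S v _ (adic_CX h1 h2)).1, H81.tdeg_CX]; rfl

theorem deg_ax2 {S : Coord L} {v : DVal L} (h1 : v.v S.y = 1) (h2 : ResTr v.v S.x) :
    deg S v = 1 := by
  rw [(H81.st_A8 L S v _ (adic_X h1 h2)).1, H81.tdeg_X]; rfl

end H82

end

end LCY
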