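import Pool.Agent.Helper82.LCY.Plane
import Pool.Agent.Helper98.LCY.LocB
import Pool.Agent.Helper11.LCY.Stmts

/-!
Fibres of ruled surfaces and the elementary transformation, as sets of local rings.
-/

open Polynomial

namespace LCY

noncomputable section

variable {L : Type} [Field L] [Algebra ℂ L]

/-- **A11.** -/
theorem a11 : ST_A11 := by
  intro L _ _ P Q h1 h2 h3 h4
  refine H82.loc_eq ?_ ?_ ?_ ?_
  · exact H82.vl_zero_iff.2 h1
  · exact H82.vl_zero_iff.2 h2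
  · exact H82.vl_zero_iff.2 h3
  · exact H82.vl_zero_iff.2 h4

namespace H82

open H62

/-- Points of the blow-up of a point. -/
theorem next_ptAt {u v : L} {R R' : Subalgebra ℂ L} (h : PtAt u v R) :
    Next R R' ↔ (∃ c : ℂ, PtAt u (v / u - algebraMap ℂ L c) R') ∨ PtAt v (u / v) R' := by
  obtain ⟨Q, rfl, rfl, rfl⟩ := h
  rw [H98.next_iff]
  constructor
  · rintro ⟨o, rfl⟩
    cases o with
    | some c => exact Or.inl ⟨c, Q.st (some c), Q.st_some_x c, Q.st_some_y c, rfl⟩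
    | none => exact Or.inr ⟨Q.st none, Q.st_none_x, Q.st_none_y, rfl⟩
  · rintro (⟨c, T, h1, h2, rfl⟩ | ⟨T, h1, h2, rfl⟩)
    · exact ⟨some c, loc_congr (by rw [h1, Q.st_some_x]) (by rw [h2, Q.st_some_y])⟩
    · exact ⟨none, loc_congr (by rw [h1, Q.st_none_x]) (by rw [h2, Q.st_none_y])⟩

/-- The fibre `t = 0` of the ruled surface with fibre coordinate `z`. -/
def W (t z : L) : Set (Subalgebra ℂ L) :=
  {R | (∃ a : ℂ, PtAt t (z - algebraMap ℂ L a) R) ∨ PtAt t z⁻¹ R}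

variable {P : Coord L}

theorem vl_of_sub {z : L} {c : ℂ} (h : Vl P.loc (z - algebraMap ℂ L c) 0) : Vl P.loc z c := by
  have := vl_add h (vl_const (P := P) c)
  rwa [sub_add_cancel, zero_add] at this

theorem sub_of_vl {z : L} {c : ℂ} (h : Vl P.loc z c) : Vl P.loc (z - algebraMap ℂ L c) 0 := by
  have := vl_sub h (vl_const (P := P) c)
  rwa [sub_self] at this

theorem PtAt.ne_x {u v : L} {R : Subalgebra ℂ L} (h : PtAt u v R) : u ≠ 0 := by
  obtain ⟨Q, rfl, rfl, rfl⟩ := h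
  exact Q.x_ne

theorem PtAt.ne_y {u v : L} {R : Subalgebra ℂ L} (h : PtAt u v R) : v ≠ 0 := by
  obtain ⟨Q, rfl, rfl, rfl⟩ := h
  exact Q.y_ne

/-- toric and translated coordinates exist -/
theorem ptAt_tor (S : Coord L) (a b c d : ℤ) (hdet : a * d - b * c = 1 ∨ a * d - b * c = -1)
    (p q : ℂ) {u v : L} (hu : u = S.x ^ a * S.y ^ b - algebraMap ℂ L p)
    (hv : v = S.x ^ c * S.y ^ d - algebraMap ℂ L q) : ∃ R, PtAt u v R := by
  obtain ⟨T, h1, h2⟩ := S.tor a b c d hdet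
  obtain ⟨Q, h3, h4⟩ := T.trans p q
  exact ⟨Q.loc, Q, by rw [h3, h1, hu], by rw [h4, h2, hv], rfl⟩

/-- from a point, translations of its coordinates -/
theorem PtAt.exists_trans {u v : L} {R : Subalgebra ℂ L} (h : PtAt u v R) (p q : ℂ) :
    ∃ R', PtAt (u - algebraMap ℂ L p) (v - algebraMap ℂ L q) R' := by
  obtain ⟨Q, rfl, rfl, rfl⟩ := h
  obtain ⟨T, h1, h2⟩ := Q.trans p q
  exact ⟨T.loc, T, h1, h2, rfl⟩

/-- from a point, monomial changes of its coordinates -/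
theorem PtAt.exists_tor {u v : L} {R : Subalgebra ℂ L} (h : PtAt u v R) (a b c d : ℤ)
    (hdet : a * d - b * c = 1 ∨ a * d - b * c = -1) :
    ∃ R', PtAt (u ^ a * v ^ b) (u ^ c * v ^ d) R' := by
  obtain ⟨Q, rfl, rfl, rfl⟩ := h
  obtain ⟨T, h1, h2⟩ := Q.tor a b c d hdet
  exact ⟨T.loc, T, h1, h2, rfl⟩

/-- the point `(t, z - a)`, `a ≠ 0`, is the point `(t, 1/z - 1/a)` -/
theorem ptAt_inv {t z : L} {a : ℂ} (ha : a ≠ 0) {R : Subalgebra ℂ L}
    (h : PtAt t (z - algebraMap ℂ L a) R) : PtAt t (z⁻¹ - algebraMap ℂ L a⁻¹) R := by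
  obtain ⟨R1, h1⟩ := h.exists_trans 0 (-a)
  rw [map_zero, sub_zero, map_neg, sub_neg_eq_add, sub_add_cancel] at h1
  obtain ⟨R2, h2⟩ := h1.exists_tor 1 0 0 (-1) (Or.inr (by norm_num))
  obtain ⟨R3, h3⟩ := h2.exists_trans 0 a⁻¹
  have h3' : PtAt t (z⁻¹ - algebraMap ℂ L a⁻¹) R3 := by simpa using h3
  obtain ⟨Q, q1, q2, rfl⟩ := h
  obtain ⟨T, t1, t2, rfl⟩ := h3'
  have hv : Vl Q.loc z a := vl_of_sub (by rw [← q2]; exact vl_y)
  have hw : Vl T.loc z⁻¹ a⁻¹ := vl_of_sub (by rw [← t2]; exact vl_y)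
  have hw' : Vl T.loc z a := by
    have := vl_inv hw (inv_ne_zero ha)
    rwa [inv_inv, inv_inv] at this
  refine PtAt.change ⟨Q, q1, q2, rfl⟩ ⟨T, t1, t2, rfl⟩ ?_ ?_ ?_ ?_
  · rw [← q1]; exact vl_x
  · exact sub_of_vl (vl_inv hv ha)
  · rw [← t1]; exact vl_x
  · exact sub_of_vl hw'

theorem W_inv {t z : L} {R0 : Subalgebra ℂ L} (h0 : PtAt t z R0) : W t z⁻¹ = W t z := by
  have key : ∀ {z : L}, (∃ R0, PtAt t z R0) → W t z⁻¹ ⊆ W t z := by
    rintro z ⟨R0, h0⟩ R (⟨a, h⟩ | h)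
    · by_cases ha : a = 0
      · rw [ha, map_zero, sub_zero] at h
        exact Or.inr h
      · have := ptAt_inv ha h
        rw [inv_inv] at this
        exact Or.inl ⟨_, this⟩
    · rw [inv_inv] at h
      exact Or.inl ⟨0, by rwa [map_zero, sub_zero]⟩
  apply Set.Subset.antisymm (key ⟨R0, h0⟩)
  obtain ⟨R1, h1⟩ := h0.exists_tor 1 0 0 (-1) (Or.inr (by norm_num))
  have h1' : PtAt t z⁻¹ R1 := by simpa using h1
  have := key ⟨R1, h1'⟩
  rwa [inv_inv] at this

/-- values of the base coordinate on the fibre -/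
theorem vl_W {t z : L} {R : Subalgebra ℂ L} (h : R ∈ W t z) : Vl R t 0 := by
  rcases h with ⟨a, h⟩ | h
  · exact h.vl_x
  · exact h.vl_x

theorem isLoc_W {t z : L} {R : Subalgebra ℂ L} (h : R ∈ W t z) : ∃ P : Coord L, P.loc = R := by
  rcases h with ⟨a, Q, _, _, h⟩ | ⟨Q, _, _, h⟩
  · exact ⟨Q, h⟩
  · exact ⟨Q, h⟩

/-- **The elementary transformation.** `R0` is the point `(t, 1/z)` of the fibre `W t z`, and
`R1` the point `(t, t z)` of the new fibre `W t (t z)`. -/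
theorem elem_sub {t z : L} {R0 R1 : Subalgebra ℂ L} (h0 : PtAt t z⁻¹ R0)
    (h1 : PtAt t (t * z) R1) :
    (W t z \ {R0}) ∪ {R | Next R0 R} ⊆ (W t (t * z) \ {R1}) ∪ {R | Next R1 R} := by
  have ht : t ≠ 0 := h0.ne_x
  have hz : z ≠ 0 := by
    intro h; rw [h, inv_zero] at h0; exact h0.ne_y rfl
  rintro R (⟨h, hne⟩ | h)
  · rcases h with ⟨a, h⟩ | h
    · right
      rw [Set.mem_ofPred_eq, next_ptAt h1]
      left
      refine ⟨a, ?_⟩
      rwa [mul_comm t z, mul_div_assoc, div_self ht, mul_one]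
    · exact absurd (h.unique h0) hne
  · rw [Set.mem_ofPred_eq, next_ptAt h0] at h
    have e1 : z⁻¹ / t = (t * z)⁻¹ := by field_simp
    rcases h with ⟨c, h⟩ | h
    · left
      rw [e1] at h
      constructor
      · by_cases hc : c = 0
        · rw [hc, map_zero, sub_zero] at h
          exact Or.inr h
        · have := ptAt_inv hc h
          rw [inv_inv] at this
          exact Or.inl ⟨_, this⟩
      · intro hR
        rw [Set.mem_singleton_iff] at hR
        obtain ⟨T, t1, t2, t3⟩ := h1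
        have hv1 : Vl R (t * z) 0 := by rw [hR, ← t3, ← t2]; exact vl_y
        obtain ⟨Q, q1, q2, rfl⟩ := h
        have hv2 : Vl Q.loc (t * z)⁻¹ c := vl_of_sub (by rw [← q2]; exact vl_y)
        have := vl_mul hv1 hv2
        rw [mul_inv_cancel₀ (mul_ne_zero ht hz), zero_mul] at this
        exact one_ne_zero (vl_unique vl_one this)
    · right
      rw [Set.mem_ofPred_eq, next_ptAt h1]
      right
      have h' := ptAt_swap h
      have e2 : t / z⁻¹ = t * z := by field_simp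
      have e3 : z⁻¹ = t / (t * z) := by field_simp
      rw [e2, e3] at h'
      exact h'

theorem elem {t z : L} {R0 R1 : Subalgebra ℂ L} (h0 : PtAt t z⁻¹ R0)
    (h1 : PtAt t (t * z) R1) :
    (W t z \ {R0}) ∪ {R | Next R0 R} = (W t (t * z) \ {R1}) ∪ {R | Next R1 R} := by
  have ht : t ≠ 0 := h0.ne_x
  have hz : z ≠ 0 := by
    intro h; rw [h, inv_zero] at h0; exact h0.ne_y rfl
  apply Set.Subset.antisymm (elem_sub h0 h1)
  -- apply the inclusion to `z' = 1 / (t z)`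
  have e1 : ((t * z)⁻¹)⁻¹ = t * z := inv_inv _
  have e2 : t * (t * z)⁻¹ = z⁻¹ := by field_simp
  have h := elem_sub (t := t) (z := (t * z)⁻¹) (R0 := R1) (R1 := R0) (by rw [e1]; exact h1)
    (by rw [e2]; exact h0)
  rw [e2] at h
  obtain ⟨R2, h2⟩ := h0.exists_tor 1 0 0 (-1) (Or.inr (by norm_num))
  have h2' : PtAt t z R2 := by simpa using h2
  rw [W_inv h1, W_inv h2'] at h
  exact h

end H82

end

end LCY
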