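import Pool.Agent.Helper82.LCY.Nef

/-!
Rows GM, SORT and STEP in abstract form: a set `PS` of `P^2`-structures on a fixed set of curves,
closed under the two moves SWAP and QUAD.
-/

namespace Pool.Agent.Helper82.LCY

open Finset

/-- the root `H - e1 - e2 - e3` -/
def al0 (k : ℕ) : Cl ℤ (Fin k) := (1, fun i => if (i : ℕ) < 3 then 1 else 0)

/-- the quadratic transformation on classes -/
def quadCl {k : ℕ} (C : Cl ℤ (Fin k)) : Cl ℤ (Fin k) := C + ip C (al0 k) • al0 k

/-- permutation of the points -/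
def permCl {k : ℕ} (σ : Equiv.Perm (Fin k)) (C : Cl ℤ (Fin k)) : Cl ℤ (Fin k) :=
  (C.1, fun i => C.2 (σ i))

/-- the class of a plane curve (type A) -/
def TypeA {k : ℕ} (C : Cl ℤ (Fin k)) : Prop := 1 ≤ C.1 ∧ ∀ i, 0 ≤ C.2 i ∧ C.2 i ≤ C.1

/-- the class of the exceptional curve of the point `p` (type B) -/
def TypeB {k : ℕ} (p : Fin k) (C : Cl ℤ (Fin k)) : Prop :=
  C.1 = 0 ∧ C.2 p = -1 ∧ (∀ i, i < p → C.2 i = 0) ∧ ∀ i, p < i → C.2 i = 0 ∨ C.2 i = 1

theorem ip_al0 {k : ℕ} (h : 3 ≤ k) (C : Cl ℤ (Fin k)) :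
    ip C (al0 k) = C.1 - ext C.2 0 - ext C.2 1 - ext C.2 2 := by
  have h1 : ∑ i : Fin k, C.2 i * (if (i : ℕ) < 3 then 1 else 0)
      = ∑ i ∈ range k, ext C.2 i * (if i < 3 then 1 else 0) := by
    rw [Finset.sum_range]
    exact Finset.sum_congr rfl fun i _ => by rw [ext_fin]
  have h2 : ∑ i ∈ range 3, ext C.2 i * (if i < 3 then 1 else 0)
      = ∑ i ∈ range k, ext C.2 i * (if i < 3 then (1 : ℤ) else 0) := by
    refine Finset.sum_subset (Finset.range_mono h) fun i _ hi => ?_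
    rw [if_neg (by simpa using hi), mul_zero]
  simp only [ip, al0, mul_one]
  rw [h1, ← h2]
  simp [Finset.sum_range_succ]
  ring

theorem al0_sq {k : ℕ} (h : 3 ≤ k) : ip (al0 k) (al0 k) = -2 := by
  rw [ip_al0 h]
  have h0 : 0 < k := by omega
  have h1 : 1 < k := by omega
  have h2 : 2 < k := by omega
  simp [al0, ext, h0, h1, h2]

theorem al0_KK {k : ℕ} (h : 3 ≤ k) : ip KK (al0 k) = 0 := by
  rw [ip_al0 h]
  have h0 : 0 < k := by omega
  have h1 : 1 < k := by omega
  have h2 : 2 < k := by omega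
  simp [KK, ext, h0, h1, h2]

/-- the linear isometries fixing `K` -/
structure Isom (k : ℕ) where
  /-- the map -/
  f : Cl ℤ (Fin k) ≃ₗ[ℤ] Cl ℤ (Fin k)
  iso : ∀ x y, ip (f x) (f y) = ip x y
  canon : f KK = KK

theorem Isom.inj {k : ℕ} (φ : Isom k) : Function.Injective φ.f := φ.f.injective

/-- identity -/
def Isom.id (k : ℕ) : Isom k := ⟨LinearEquiv.refl ℤ _, fun _ _ => rfl, rfl⟩

/-- composition -/
def Isom.comp {k : ℕ} (φ ψ : Isom k) : Isom k :=
  ⟨ψ.f.trans φ.f, fun x y => by simp [φ.iso, ψ.iso], by simp [φ.canon, ψ.canon]⟩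

/-- the quadratic map is linear -/
def quadLin (k : ℕ) : Cl ℤ (Fin k) →ₗ[ℤ] Cl ℤ (Fin k) where
  toFun := quadCl
  map_add' := fun x y => by
    simp only [quadCl, ip_add_left, add_smul]; abel
  map_smul' := fun a x => by
    simp only [quadCl, ip_smul_left, smul_add, RingHom.id_apply, mul_smul]

theorem quad_invol {k : ℕ} (h : 3 ≤ k) : Function.Involutive (quadLin k) := by
  intro x
  show quadCl (quadCl x) = x
  simp only [quadCl]
  rw [ip_add_left, ip_smul_left, al0_sq h, add_assoc, ← add_smul]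
  have : ip x (al0 k) + (ip x (al0 k) + ip x (al0 k) * -2) = 0 := by ring
  rw [this, zero_smul, add_zero]

/-- the quadratic isometry -/
def Isom.quad {k : ℕ} (h : 3 ≤ k) : Isom k where
  f := LinearEquiv.ofInvolutive (quadLin k) (quad_invol h)
  iso x y := by
    show ip (quadCl x) (quadCl y) = ip x y
    simp only [quadCl]
    rw [ip_add_left, ip_add_right, ip_add_right, ip_smul_left, ip_smul_left, ip_smul_right,
      ip_smul_right, al0_sq h, ip_comm (al0 k) y]
    ring
  canon := by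
    show quadCl KK = KK
    simp only [quadCl]
    rw [al0_KK h, zero_smul, add_zero]

/-- permutations are isometries -/
def Isom.perm {k : ℕ} (σ : Equiv.Perm (Fin k)) : Isom k where
  f :=
    { toFun := permCl σ
      invFun := permCl σ⁻¹
      map_add' := fun x y => rfl
      map_smul' := fun a x => rfl
      left_inv := fun x => by
        refine Prod.ext rfl (funext fun i => ?_)
        exact congrArg x.2 (σ.apply_symm_apply i)
      right_inv := fun x => by
        refine Prod.ext rfl (funext fun i => ?_)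
        exact congrArg x.2 (σ.symm_apply_apply i) }
  iso x y := by
    show ip (permCl σ x) (permCl σ y) = ip x y
    simp only [permCl, ip]
    congr 1
    exact Equiv.sum_comp σ (fun i => x.2 i * y.2 i)
  canon := rfl

/-- A set of `P^2`-structures with `k` points on a fixed set `κ` of curves, closed under the
moves SWAP and QUAD. -/
structure Marks (κ : Type*) (PS : Type*) (k : ℕ) where
  /-- the class of a curve in a structure -/
  cl : PS → κ → Cl ℤ (Fin k)
  types : ∀ s c, TypeA (cl s c) ∨ ∃ p, TypeB p (cl s c)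
  line : ∀ s, ∃ c, (cl s c).1 = 1
  exc : ∀ s p, ∃ c, TypeB p (cl s c)
  swap : ∀ (s : PS) (i : ℕ) (h : i + 1 < k),
    (¬ ∃ c, TypeB ⟨i, by omega⟩ (cl s c) ∧ (cl s c).2 ⟨i + 1, h⟩ = 1) →
    ∃ s', ∀ c, cl s' c = permCl (Equiv.swap ⟨i, by omega⟩ ⟨i + 1, h⟩) (cl s c)
  quad : ∀ (s : PS), 3 ≤ k → (∀ c, ip KK (cl s c) ≤ 0) →
    (¬ ∃ c, (cl s c).1 = 1 ∧ ∀ i : Fin k, (i : ℕ) < 3 → (cl s c).2 i = 1) →
    ∃ s', ∀ c, cl s' c = quadCl (cl s c)

variable {κ : Type*} {PS : Type*} {k : ℕ} (M : Marks κ PS k)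

/-- the multiplicities of a nef class are nonnegative -/
theorem Marks.mult_nonneg (s : PS) {B : Cl ℤ (Fin k)} (hB : ∀ c, 0 ≤ ip B (M.cl s c)) :
    ∀ p, 0 ≤ B.2 p := by
  classical
  have key : ∀ n : ℕ, ∀ p : Fin k, k - (p : ℕ) ≤ n → 0 ≤ B.2 p := by
    intro n
    induction n with
    | zero => intro p hp; have := p.2; omega
    | succ n ih =>
      intro p hp
      obtain ⟨c, h0, h1, h2, h3⟩ := M.exc s p
      have h4 := hB c
      simp only [ip, h0, mul_zero, zero_sub] at h4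
      rw [← Finset.add_sum_erase _ _ (Finset.mem_univ p), h1] at h4
      have h5 : 0 ≤ ∑ i ∈ Finset.univ.erase p, B.2 i * (M.cl s c).2 i := by
        refine Finset.sum_nonneg fun i hi => ?_
        rw [Finset.mem_erase] at hi
        rcases lt_trichotomy i p with h | h | h
        · rw [h2 i h, mul_zero]
        · exact absurd h hi.1
        · have h6 : 0 ≤ B.2 i := ih i (by
            have : (p : ℕ) < i := h
            have := i.2; omega)
          rcases h3 i h with h7 | h7 <;> rw [h7]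
          · simp
          · simpa using h6
      linarith
  exact fun p => key k p (by omega)

/-- the multiplicity does not increase at a proximate point -/
theorem Marks.mult_le (s : PS) {B : Cl ℤ (Fin k)} (hB : ∀ c, 0 ≤ ip B (M.cl s c)) {c : κ}
    {p q : Fin k} (hc : TypeB p (M.cl s c)) (hq : (M.cl s c).2 q = 1) : B.2 q ≤ B.2 p := by
  classical
  obtain ⟨h0, h1, h2, h3⟩ := hc
  have hn := M.mult_nonneg s hB
  have h4 := hB c
  have hpq : q ≠ p := by rintro rfl; rw [h1] at hq; norm_num at hq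
  simp only [ip, h0, mul_zero, zero_sub] at h4
  rw [← Finset.add_sum_erase _ _ (Finset.mem_univ p), h1,
    ← Finset.add_sum_erase _ _ (Finset.mem_erase.2 ⟨hpq, Finset.mem_univ q⟩), hq] at h4
  have h5 : 0 ≤ ∑ i ∈ (Finset.univ.erase p).erase q, B.2 i * (M.cl s c).2 i := by
    refine Finset.sum_nonneg fun i hi => ?_
    rw [Finset.mem_erase, Finset.mem_erase] at hi
    rcases lt_trichotomy i p with h | h | h
    · rw [h2 i h, mul_zero]
    · exact absurd h hi.2.1
    · rcases h3 i h with h7 | h7 <;> rw [h7]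
      · simp
      · simpa using hn i
  linarith

theorem Marks.deg_nonneg (s : PS) {B : Cl ℤ (Fin k)} (hB : ∀ c, 0 ≤ ip B (M.cl s c)) :
    0 ≤ B.1 := by
  obtain ⟨c, hc⟩ := M.line s
  have h1 := hB c
  have h2 : TypeA (M.cl s c) := by
    rcases M.types s c with h | ⟨p, h, _⟩
    · exact h
    · rw [hc] at h; norm_num at h
  have h3 : 0 ≤ ∑ i, B.2 i * (M.cl s c).2 i :=
    Finset.sum_nonneg fun i _ => mul_nonneg (M.mult_nonneg s hB i) (h2.2 i).1
  simp only [ip, hc, mul_one] at h1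
  linarith

/-- the position sum used for sorting -/
def posSum (B : Cl ℤ (Fin k)) : ℤ := ∑ i : Fin k, ((i : ℕ) : ℤ) * B.2 i

theorem posSum_swap (B : Cl ℤ (Fin k)) (i : ℕ) (h : i + 1 < k) :
    posSum (permCl (Equiv.swap ⟨i, by omega⟩ ⟨i + 1, h⟩) B)
      = posSum B + B.2 ⟨i, by omega⟩ - B.2 ⟨i + 1, h⟩ := by
  classical
  set a : Fin k := ⟨i, by omega⟩ with ha
  set b : Fin k := ⟨i + 1, h⟩ with hb
  have hab : a ≠ b := by
    intro h'
    have := congrArg Fin.val h'
    simp [ha, hb] at this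
  have hmem : b ∈ Finset.univ.erase a := Finset.mem_erase.2 ⟨hab.symm, Finset.mem_univ _⟩
  simp only [posSum, permCl]
  rw [← Finset.add_sum_erase _ _ (Finset.mem_univ a), ← Finset.add_sum_erase _ _ hmem,
    ← Finset.add_sum_erase _ (fun j : Fin k => ((j : ℕ) : ℤ) * B.2 j) (Finset.mem_univ a),
    ← Finset.add_sum_erase _ (fun j : Fin k => ((j : ℕ) : ℤ) * B.2 j) hmem]
  have h1 : ∑ x ∈ (Finset.univ.erase a).erase b, ((x : ℕ) : ℤ) * B.2 (Equiv.swap a b x)
      = ∑ x ∈ (Finset.univ.erase a).erase b, ((x : ℕ) : ℤ) * B.2 x := by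
    refine Finset.sum_congr rfl fun x hx => ?_
    rw [Finset.mem_erase, Finset.mem_erase] at hx
    rw [Equiv.swap_apply_of_ne_of_ne hx.2.1 hx.1]
  rw [h1, Equiv.swap_apply_left, Equiv.swap_apply_right]
  simp only [ha, hb]
  push_cast
  ring

/-- **GM.** Every class which is nonnegative on all curves is dominant in a suitable
structure. -/
theorem Marks.gm (hsm : k < 3 → ∀ (s : PS) (B : Cl ℤ (Fin k)), (∀ c, 0 ≤ ip B (M.cl s c)) →
      ext B.2 0 + ext B.2 1 + ext B.2 2 ≤ B.1)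
    (s0 : PS) (hK : ∀ c, ip KK (M.cl s0 c) ≤ 0) (B : Cl ℤ (Fin k))
    (hB : ∀ c, 0 ≤ ip B (M.cl s0 c)) :
    ∃ (s : PS) (φ : Isom k), (∀ c, M.cl s c = φ.f (M.cl s0 c)) ∧ Antitone (φ.f B).2 ∧
      (∀ i, 0 ≤ (φ.f B).2 i) ∧
      ext (φ.f B).2 0 + ext (φ.f B).2 1 + ext (φ.f B).2 2 ≤ (φ.f B).1 := by
  classical
  set T : Set (PS × Isom k) := {x | ∀ c, M.cl x.1 c = x.2.f (M.cl s0 c)} with hT
  have hTne : T.Nonempty := ⟨(s0, Isom.id k), fun c => rfl⟩
  have hnef : ∀ x ∈ T, ∀ c, 0 ≤ ip (x.2.f B) (M.cl x.1 c) := by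
    intro x hx c
    rw [hx c, x.2.iso]
    exact hB c
  have hKx : ∀ x ∈ T, ∀ c, ip KK (M.cl x.1 c) ≤ 0 := by
    intro x hx c
    have : ip KK (M.cl x.1 c) = ip (x.2.f KK) (x.2.f (M.cl s0 c)) := by rw [hx c, x.2.canon]
    rw [this, x.2.iso]
    exact hK c
  have hmn : ∀ x ∈ T, ∀ p, 0 ≤ (x.2.f B).2 p := fun x hx => M.mult_nonneg x.1 (hnef x hx)
  have hdn : ∀ x ∈ T, 0 ≤ (x.2.f B).1 := fun x hx => M.deg_nonneg x.1 (hnef x hx)
  have hpn : ∀ x ∈ T, 0 ≤ posSum (x.2.f B) := fun x hx =>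
    Finset.sum_nonneg fun i _ => mul_nonneg (Int.natCast_nonneg _) (hmn x hx i)
  -- lexicographic minimum
  let μ : PS × Isom k → ℕ ×ₗ ℕ := fun x =>
    toLex ((x.2.f B).1.toNat, (posSum (x.2.f B)).toNat)
  obtain ⟨x, hxT, hmin⟩ : ∃ x ∈ T, ∀ y ∈ T, ¬ μ y < μ x := by
    obtain ⟨m, ⟨x, hx, rfl⟩, hm⟩ :=
      WellFounded.has_min (wellFounded_lt (α := ℕ ×ₗ ℕ)) (μ '' T) (hTne.image μ)
    exact ⟨x, hx, fun y hy => hm (μ y) ⟨y, hy, rfl⟩⟩
  have hltI : ∀ y ∈ T, (y.2.f B).1 < (x.2.f B).1 → False := by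
    intro y hy h
    apply hmin y hy
    have h1 : (y.2.f B).1.toNat < (x.2.f B).1.toNat := by
      have := hdn y hy; omega
    exact Prod.Lex.toLex_lt_toLex.2 (Or.inl h1)
  have hltII : ∀ y ∈ T, (y.2.f B).1 = (x.2.f B).1 → posSum (y.2.f B) < posSum (x.2.f B) →
      False := by
    intro y hy h h'
    apply hmin y hy
    have h1 : (posSum (y.2.f B)).toNat < (posSum (x.2.f B)).toNat := by
      have := hpn y hy; omega
    exact Prod.Lex.toLex_lt_toLex.2 (Or.inr ⟨by rw [h], h1⟩)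
  refine ⟨x.1, x.2, hxT, ?_, hmn x hxT, ?_⟩
  · -- antitone
    have hadj : ∀ (i : ℕ) (h : i + 1 < k),
        (x.2.f B).2 ⟨i + 1, h⟩ ≤ (x.2.f B).2 ⟨i, by omega⟩ := by
      intro i h
      by_contra hcon
      push Not at hcon
      obtain ⟨s', hs'⟩ := M.swap x.1 i h (by
        rintro ⟨c, hc, hq⟩
        have := M.mult_le x.1 (hnef x hxT) hc hq
        linarith)
      set σ := Equiv.swap (⟨i, by omega⟩ : Fin k) ⟨i + 1, h⟩ with hσ
      have hy : ((s', (Isom.perm σ).comp x.2) : PS × Isom k) ∈ T := by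
        intro c
        rw [hs' c, hxT c]
        rfl
      refine hltII _ hy rfl ?_
      have h1 : posSum (((Isom.perm σ).comp x.2).f B)
          = posSum (x.2.f B) + (x.2.f B).2 ⟨i, by omega⟩ - (x.2.f B).2 ⟨i + 1, h⟩ :=
        posSum_swap (x.2.f B) i h
      show posSum (((Isom.perm σ).comp x.2).f B) < posSum (x.2.f B)
      rw [h1]
      linarith
    have hnat : ∀ n : ℕ, ∀ i j : Fin k, (j : ℕ) = i + n → (x.2.f B).2 j ≤ (x.2.f B).2 i := by
      intro n
      induction n with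
      | zero =>
        intro i j h
        have : j = i := Fin.ext (by simpa using h)
        rw [this]
      | succ n ih =>
        intro i j h
        have hj := j.2
        have h1 := ih i ⟨(i : ℕ) + n, by omega⟩ rfl
        have h2 := hadj ((i : ℕ) + n) (by omega)
        have h3 : j = ⟨(i : ℕ) + n + 1, by omega⟩ := Fin.ext (by rw [h]; rfl)
        rw [h3]
        exact h2.trans h1
    intro i j hij
    exact hnat ((j : ℕ) - i) i j (by have : (i : ℕ) ≤ j := hij; omega)
  · -- dominance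
    rcases Nat.lt_or_ge k 3 with hk | hk
    · exact hsm hk x.1 _ (hnef x hxT)
    by_contra hcon
    push Not at hcon
    obtain ⟨s', hs'⟩ := M.quad x.1 hk (hKx x hxT) (by
      rintro ⟨c, hd, hc⟩
      have h1 := hnef x hxT c
      have htA : TypeA (M.cl x.1 c) := by
        rcases M.types x.1 c with h | ⟨p, h, _⟩
        · exact h
        · rw [hd] at h; norm_num at h
      simp only [ip, hd, mul_one] at h1
      have h2 : ∑ i : Fin k, (x.2.f B).2 i * (if (i : ℕ) < 3 then 1 else 0)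
          ≤ ∑ i, (x.2.f B).2 i * (M.cl x.1 c).2 i := by
        refine Finset.sum_le_sum fun i _ => ?_
        refine mul_le_mul_of_nonneg_left ?_ (hmn x hxT i)
        split_ifs with h
        · rw [hc i h]
        · exact (htA.2 i).1
      have h3 := ip_al0 hk (x.2.f B)
      simp only [ip, al0, mul_one] at h3
      linarith)
    have hy : ((s', (Isom.quad hk).comp x.2) : PS × Isom k) ∈ T := by
      intro c
      rw [hs' c, hxT c]
      rfl
    refine hltI _ hy ?_
    have h1 : ((((Isom.quad hk).comp x.2).f B)).1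
        = (x.2.f B).1 + ip (x.2.f B) (al0 k) * 1 := rfl
    simp only [h1]
    rw [ip_al0 hk]
    linarith

end Pool.Agent.Helper82.LCY
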