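import Mathlib

/-!
Lattice rows for the block STEP 3 / GM of the `MP_f7e214_ag` campaign.
Classes `(d ; m)` stand for `d H - sum m_i e_i`.
-/

namespace Pool.Agent.Helper82.LCY

open Finset

/-- The lattice (or vector space) of classes `d H - sum m_i e_i`. -/
abbrev Cl (R : Type*) (ι : Type*) := R × (ι → R)

section Basic

variable {R : Type*} [CommRing R] {ι : Type*} [Fintype ι]

/-- The intersection form of signature `(1, n)`. -/
def ip (x y : Cl R ι) : R := x.1 * y.1 - ∑ i, x.2 i * y.2 i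

/-- The canonical class `K = -3H + sum e_i`. -/
def KK : Cl R ι := (-3, fun _ => -1)

theorem ip_comm (x y : Cl R ι) : ip x y = ip y x := by
  simp only [ip]
  rw [mul_comm]
  congr 1
  exact Finset.sum_congr rfl fun i _ => mul_comm _ _

theorem ip_add_left (x y z : Cl R ι) : ip (x + y) z = ip x z + ip y z := by
  simp only [ip, Prod.fst_add, Prod.snd_add, Pi.add_apply, add_mul, Finset.sum_add_distrib]
  ring

theorem ip_add_right (x y z : Cl R ι) : ip x (y + z) = ip x y + ip x z := by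
  rw [ip_comm, ip_add_left, ip_comm y, ip_comm z]

theorem ip_smul_left (a : R) (x y : Cl R ι) : ip (a • x) y = a * ip x y := by
  simp only [ip, Prod.smul_fst, Prod.smul_snd, Pi.smul_apply, smul_eq_mul, mul_sub,
    Finset.mul_sum, mul_assoc]

theorem ip_smul_right (a : R) (x y : Cl R ι) : ip x (a • y) = a * ip x y := by
  rw [ip_comm, ip_smul_left, ip_comm]

@[simp] theorem ip_zero_left (x : Cl R ι) : ip 0 x = 0 := by simp [ip]

@[simp] theorem ip_zero_right (x : Cl R ι) : ip x 0 = 0 := by simp [ip]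

theorem ip_neg_left (x y : Cl R ι) : ip (-x) y = -ip x y := by
  simp [ip]; ring

theorem ip_neg_right (x y : Cl R ι) : ip x (-y) = -ip x y := by
  rw [ip_comm, ip_neg_left, ip_comm]

theorem ip_sub_left (x y z : Cl R ι) : ip (x - y) z = ip x z - ip y z := by
  rw [sub_eq_add_neg, ip_add_left, ip_neg_left, sub_eq_add_neg]

theorem ip_sub_right (x y z : Cl R ι) : ip x (y - z) = ip x y - ip x z := by
  rw [ip_comm, ip_sub_left, ip_comm y, ip_comm z]

theorem ip_sum_left {κ : Type*} (s : Finset κ) (f : κ → Cl R ι) (y : Cl R ι) :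
    ip (∑ c ∈ s, f c) y = ∑ c ∈ s, ip (f c) y := by
  classical
  induction s using Finset.induction_on with
  | empty => simp
  | insert a s ha ih => rw [Finset.sum_insert ha, Finset.sum_insert ha, ip_add_left, ih]

theorem ip_sum_right {κ : Type*} (s : Finset κ) (f : κ → Cl R ι) (y : Cl R ι) :
    ip y (∑ c ∈ s, f c) = ∑ c ∈ s, ip y (f c) := by
  rw [ip_comm, ip_sum_left]
  exact Finset.sum_congr rfl fun i _ => ip_comm _ _

theorem ip_KK (x : Cl R ι) : ip KK x = -3 * x.1 + ∑ i, x.2 i := by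
  simp [ip, KK]

theorem ip_KK_KK : ip (KK : Cl R ι) KK = 9 - (Fintype.card ι : R) := by
  simp [ip, KK]; ring

end Basic

section Hodge

variable {R : Type*} [CommRing R] [LinearOrder R] [IsStrictOrderedRing R]
  {ι : Type*} [Fintype ι]

/-- **HODGE.** On the orthogonal complement of a class with positive square the form is
negative definite. -/
theorem hodge {A x : Cl R ι} (hA : 0 < ip A A) (hx : ip A x = 0) (h : 0 ≤ ip x x) : x = 0 := by
  have h1 : (∑ i, A.2 i * x.2 i) ^ 2 ≤ (∑ i, A.2 i ^ 2) * ∑ i, x.2 i ^ 2 :=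
    Finset.sum_mul_sq_le_sq_mul_sq _ _ _
  have e1 : ∑ i, A.2 i * x.2 i = A.1 * x.1 := by
    have := hx; simp only [ip] at this; linarith
  have e2 : ∑ i, A.2 i ^ 2 < A.1 ^ 2 := by
    have := hA; simp only [ip] at this
    have h3 : ∑ i, A.2 i ^ 2 = ∑ i, A.2 i * A.2 i := Finset.sum_congr rfl fun i _ => sq _
    rw [h3, sq]; linarith
  have e3 : ∑ i, x.2 i ^ 2 ≤ x.1 ^ 2 := by
    have := h; simp only [ip] at this
    have h3 : ∑ i, x.2 i ^ 2 = ∑ i, x.2 i * x.2 i := Finset.sum_congr rfl fun i _ => sq _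
    rw [h3, sq]; linarith
  have e4 : (0 : R) ≤ ∑ i, A.2 i ^ 2 := Finset.sum_nonneg fun i _ => sq_nonneg _
  have e5 : (0 : R) ≤ ∑ i, x.2 i ^ 2 := Finset.sum_nonneg fun i _ => sq_nonneg _
  rw [e1] at h1
  have e6 : x.1 = 0 := by
    by_contra hne
    have h7 : 0 < x.1 ^ 2 := by positivity
    have h8 : (∑ i, A.2 i ^ 2) * ∑ i, x.2 i ^ 2 ≤ (∑ i, A.2 i ^ 2) * x.1 ^ 2 :=
      mul_le_mul_of_nonneg_left e3 e4
    have h9 : (∑ i, A.2 i ^ 2) * x.1 ^ 2 < A.1 ^ 2 * x.1 ^ 2 :=
      mul_lt_mul_of_pos_right e2 h7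
    have h10 : (A.1 * x.1) ^ 2 = A.1 ^ 2 * x.1 ^ 2 := by ring
    rw [h10] at h1
    linarith
  have e7 : ∑ i, x.2 i ^ 2 = 0 := le_antisymm (by rw [e6] at e3; simpa using e3) e5
  have e8 : ∀ i, x.2 i = 0 := by
    intro i
    have := (Finset.sum_eq_zero_iff_of_nonneg (fun i _ => sq_nonneg (x.2 i))).1 e7 i
      (Finset.mem_univ i)
    exact pow_eq_zero_iff (two_ne_zero) |>.1 this
  exact Prod.ext e6 (funext e8)

/-- **HODGE**, strict form. -/
theorem hodge_neg {A x : Cl R ι} (hA : 0 < ip A A) (hx : ip A x = 0) (h0 : x ≠ 0) :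
    ip x x < 0 := by
  by_contra h
  exact h0 (hodge hA hx (not_lt.1 h))

/-- **HODGE**, weak form. -/
theorem hodge_nonpos {A x : Cl R ι} (hA : 0 < ip A A) (hx : ip A x = 0) : ip x x ≤ 0 := by
  by_contra h
  push Not at h
  have := hodge hA hx h.le
  rw [this] at h
  simp at h

theorem KK_sq_pos (h : Fintype.card ι ≤ 8) : 0 < ip (KK : Cl R ι) KK := by
  rw [ip_KK_KK]
  have : (Fintype.card ι : R) ≤ 8 := by exact_mod_cast h
  have h2 : (8 : R) < 9 := by norm_num
  linarith

/-- **NEG.** `K^perp` is negative definite for at most `8` points. -/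
theorem neg_of_perp (h : Fintype.card ι ≤ 8) {x : Cl R ι} (hx : ip KK x = 0) (h0 : x ≠ 0) :
    ip x x < 0 := hodge_neg (KK_sq_pos h) hx h0

theorem eq_zero_of_perp (h : Fintype.card ι ≤ 8) {x : Cl R ι} (hx : ip KK x = 0)
    (h0 : 0 ≤ ip x x) : x = 0 := hodge (KK_sq_pos h) hx h0

end Hodge

section Ind

variable {ι : Type*} [Fintype ι] {κ : Type*}

/-- **IND.** Curves with `A.C = 0`, pairwise products `≥ 0`, no nontrivial nonnegative
combination of which vanishes, are linearly independent. -/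
theorem ind {A : Cl ℤ ι} (hA : 0 < ip A A) (C : κ → Cl ℤ ι) (hK : ∀ c, ip A (C c) = 0)
    (hC : ∀ c c', c ≠ c' → 0 ≤ ip (C c) (C c'))
    (hpos : ∀ (s : Finset κ) (n : κ → ℤ), (∀ c ∈ s, 0 ≤ n c) → ∑ c ∈ s, n c • C c = 0 →
      ∀ c ∈ s, n c = 0) :
    LinearIndependent ℤ C := by
  classical
  rw [linearIndependent_iff']
  intro s g hg
  set P : Cl ℤ ι := ∑ c ∈ s, (max (g c) 0) • C c with hP
  set N : Cl ℤ ι := ∑ c ∈ s, (max (-g c) 0) • C c with hN
  have hPN : P = N := by
    have : P - N = ∑ c ∈ s, g c • C c := by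
      rw [hP, hN, ← Finset.sum_sub_distrib]
      refine Finset.sum_congr rfl fun c _ => ?_
      rw [← sub_smul]
      congr 1
      rcases le_total (g c) 0 with h | h
      · rw [max_eq_right h, max_eq_left (by omega)]; ring
      · rw [max_eq_left h, max_eq_right (by omega)]; ring
    rw [hg] at this
    exact sub_eq_zero.1 this
  have hPA : ip A P = 0 := by
    rw [hP, ip_sum_right]
    refine Finset.sum_eq_zero fun c _ => ?_
    rw [ip_smul_right, hK, mul_zero]
  have hPP : 0 ≤ ip P P := by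
    have : ip P P = ip P N := by rw [← hPN]
    rw [this, hP, hN, ip_sum_left]
    refine Finset.sum_nonneg fun c _ => ?_
    rw [ip_sum_right]
    refine Finset.sum_nonneg fun c' _ => ?_
    rw [ip_smul_left, ip_smul_right]
    by_cases h : c = c'
    · subst h
      rcases le_total (g c) 0 with h | h
      · rw [max_eq_right h]; simp
      · rw [max_eq_right (a := -g c) (by omega)]; simp
    · exact mul_nonneg (le_max_right _ _) (mul_nonneg (le_max_right _ _) (hC _ _ h))
  have hP0 : P = 0 := hodge hA hPA hPP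
  have hN0 : N = 0 := hPN ▸ hP0
  intro c hc
  have h1 : max (g c) 0 = 0 :=
    hpos s (fun c => max (g c) 0) (fun c _ => le_max_right _ _) hP0 c hc
  have h2 : max (-g c) 0 = 0 :=
    hpos s (fun c => max (-g c) 0) (fun c _ => le_max_right _ _) hN0 c hc
  have h3 : g c ≤ 0 := by rw [← h1]; exact le_max_left _ _
  have h4 : -g c ≤ 0 := by rw [← h2]; exact le_max_left _ _
  omega

/-- the classes with integral coordinates inside those with rational coordinates -/
def toQ : Cl ℤ ι →ₗ[ℤ] Cl ℚ ι where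
  toFun x := ((x.1 : ℚ), fun i => (x.2 i : ℚ))
  map_add' x y := by ext <;> simp
  map_smul' a x := by ext <;> simp

omit [Fintype ι] in
theorem toQ_apply (x : Cl ℤ ι) : toQ x = ((x.1 : ℚ), fun i => (x.2 i : ℚ)) := rfl

omit [Fintype ι] in
theorem toQ_inj : Function.Injective (toQ : Cl ℤ ι → Cl ℚ ι) := by
  intro x y h
  rw [toQ_apply, toQ_apply, Prod.mk.injEq] at h
  refine Prod.ext (by exact_mod_cast h.1) (funext fun i => ?_)
  have := congrFun h.2 i
  exact_mod_cast this

theorem ip_toQ (x y : Cl ℤ ι) : ip (toQ x) (toQ y) = ((ip x y : ℤ) : ℚ) := by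
  simp [ip, toQ_apply]

omit [Fintype ι] in
theorem toQ_KK : toQ (KK : Cl ℤ ι) = KK := by
  ext <;> simp [KK, toQ_apply]

/-- clearing denominators -/
theorem exists_int (x : Cl ℚ ι) : ∃ (n : ℕ) (y : Cl ℤ ι), 0 < n ∧ toQ y = (n : ℚ) • x := by
  classical
  refine ⟨x.1.den * ∏ i, (x.2 i).den,
    (x.1.num * ∏ i, ((x.2 i).den : ℤ),
      fun i => x.1.den * ((x.2 i).num * ∏ j ∈ Finset.univ.erase i, ((x.2 j).den : ℤ))), ?_, ?_⟩
  · exact Nat.mul_pos x.1.pos (Finset.prod_pos fun i _ => (x.2 i).pos)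
  · rw [toQ_apply]
    refine Prod.ext ?_ (funext fun i => ?_)
    · simp only [Prod.smul_fst, smul_eq_mul]
      push_cast
      have h1 : (x.1.num : ℚ) = x.1 * x.1.den := (Rat.mul_den_eq_num x.1).symm
      rw [h1]
      ring
    · simp only [Prod.smul_snd, Pi.smul_apply, smul_eq_mul]
      have h1 : ((x.2 i).num : ℚ) = x.2 i * (x.2 i).den := (Rat.mul_den_eq_num (x.2 i)).symm
      have h2 : (∏ j, ((x.2 j).den : ℚ)) = (x.2 i).den * ∏ j ∈ Finset.univ.erase i,
          ((x.2 j).den : ℚ) := (Finset.mul_prod_erase _ _ (Finset.mem_univ i)).symm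
      push_cast
      rw [h1, h2]
      ring

theorem linInd_toQ {C : κ → Cl ℤ ι} (h : LinearIndependent ℤ C) :
    LinearIndependent ℚ (fun c => toQ (C c)) := by
  rw [← LinearIndependent.iff_fractionRing (R := ℤ) (K := ℚ)]
  exact h.map' toQ (LinearMap.ker_eq_bot.2 toQ_inj)

end Ind

end Pool.Agent.Helper82.LCY
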