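import Pool.Agent.Helper82.LCY.Fib

/-!
The surface identities of the rows QA, QB, QC.
-/

open Polynomial

namespace LCY

noncomputable section

variable {L : Type} [Field L] [Algebra ℂ L]

namespace H82

open H62

variable {P : Coord L}

theorem vl_mono {P Q : Coord L} (hx : Vl P.loc Q.x 0) (hy : Vl P.loc Q.y 0) {z : L} {c : ℂ}
    (h : Vl Q.loc z c) : Vl P.loc z c := by
  rw [vl_loc] at h
  obtain ⟨f, g, hg, hf, rfl⟩ := h
  have h1 := vl_ev hx hy f
  have h2 := vl_ev hx hy g
  rw [eval00] at h1 h2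
  have := vl_div h1 h2 hg
  rwa [hf, mul_div_cancel_right₀ _ hg] at this

/-- values persist at points of the exceptional curve -/
theorem vl_next {u v : L} {R0 R : Subalgebra ℂ L} (h0 : PtAt u v R0) (h : Next R0 R) {z : L}
    {c : ℂ} (hz : Vl R0 z c) : Vl R z c := by
  have hu := h0.ne_x
  have hv := h0.ne_y
  have h' := (next_ptAt h0).1 h
  obtain ⟨Q, rfl, rfl, rfl⟩ := h0
  rcases h' with ⟨a, T, t1, t2, rfl⟩ | ⟨T, t1, t2, rfl⟩
  · have w1 : Vl T.loc Q.x 0 := by rw [← t1]; exact vl_x
    have w2 : Vl T.loc (Q.y / Q.x) a := vl_of_sub (by rw [← t2]; exact vl_y)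
    refine vl_mono w1 ?_ hz
    have := vl_mul w2 w1
    rwa [div_mul_cancel₀ _ hu, mul_zero] at this
  · have w1 : Vl T.loc Q.y 0 := by rw [← t1]; exact vl_x
    have w2 : Vl T.loc (Q.x / Q.y) 0 := by rw [← t2]; exact vl_y
    refine vl_mono ?_ w1 hz
    have := vl_mul w2 w1
    rwa [div_mul_cancel₀ _ hv, mul_zero] at this

theorem PtAt.isLoc {u v : L} {R : Subalgebra ℂ L} (h : PtAt u v R) : ∃ P : Coord L, P.loc = R := by
  obtain ⟨Q, _, _, h⟩ := h
  exact ⟨Q, h⟩

theorem vl_ne {R R' : Subalgebra ℂ L} (hR : ∃ P : Coord L, P.loc = R) {z : L} {a b : ℂ}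
    (h : Vl R z a) (h' : Vl R' z b) (hab : a ≠ b) : R ≠ R' := by
  rintro rfl
  obtain ⟨P, rfl⟩ := hR
  exact hab (vl_unique h h')

theorem vl_ne_inv {R R' : Subalgebra ℂ L} (hR : ∃ P : Coord L, P.loc = R) {z : L} {a : ℂ}
    (hz : z ≠ 0) (h : Vl R z a) (h' : Vl R' z⁻¹ 0) : R ≠ R' := by
  rintro rfl
  obtain ⟨P, rfl⟩ := hR
  exact not_vl_of_inv hz h h'

/-- The surface `blow (plane S) (loc (x, y))`, ruled by `y / x`. -/
def FA (x y : L) : Set (Subalgebra ℂ L) :=
  {R | (∃ b : ℂ, R ∈ W (y / x - algebraMap ℂ L b) x) ∨ R ∈ W (x / y) y}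

theorem blow_A {S : Coord L} {R0 : Subalgebra ℂ L} (h0 : PtAt S.x S.y R0) :
    blow (plane S) R0 = FA S.x S.y := by
  have hx := S.x_ne
  have hy := S.y_ne
  apply Set.Subset.antisymm
  · rintro R (⟨hR, hne⟩ | hR)
    · rw [Set.mem_singleton_iff] at hne
      rcases mem_plane hR with ⟨a, b, h⟩ | ⟨b, h⟩ | h
      · by_cases ha : a = 0
        · by_cases hb : b = 0
          · rw [ha, hb, map_zero, sub_zero, sub_zero] at h
            exact absurd (h.unique h0) hne
          · right; left
            refine ⟨b, ?_⟩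
            obtain ⟨R', h'⟩ := ptAt_tor S 1 (-1) 0 1 (Or.inl (by norm_num)) 0 b
              (u := S.x / S.y) (v := S.y - algebraMap ℂ L b) (by simp [div_eq_mul_inv])
              (by simp)
            rw [ha, map_zero, sub_zero] at h
            obtain ⟨Q, q1, q2, rfl⟩ := h
            obtain ⟨T, t1, t2, rfl⟩ := h'
            have e1 : Vl Q.loc S.x 0 := by rw [← q1]; exact vl_x
            have e2 : Vl Q.loc S.y b := vl_of_sub (by rw [← q2]; exact vl_y)
            have f1 : Vl T.loc (S.x / S.y) 0 := by rw [← t1]; exact vl_x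
            have f2 : Vl T.loc S.y b := vl_of_sub (by rw [← t2]; exact vl_y)
            refine PtAt.change ⟨Q, q1, q2, rfl⟩ ⟨T, t1, t2, rfl⟩ ?_ (sub_of_vl e2) ?_
              (sub_of_vl f2)
            · have := vl_div e1 e2 hb
              rwa [zero_div] at this
            · have := vl_mul f1 f2
              rwa [div_mul_cancel₀ _ hy, zero_mul] at this
        · left
          refine ⟨b / a, Or.inl ⟨a, ?_⟩⟩
          obtain ⟨R', h'⟩ := ptAt_tor S (-1) 1 1 0 (Or.inr (by norm_num)) (b / a) a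
            (u := S.y / S.x - algebraMap ℂ L (b / a)) (v := S.x - algebraMap ℂ L a)
            (by simp [div_eq_mul_inv, mul_comm]) (by simp)
          obtain ⟨Q, q1, q2, rfl⟩ := h
          obtain ⟨T, t1, t2, rfl⟩ := h'
          have e1 : Vl Q.loc S.x a := vl_of_sub (by rw [← q1]; exact vl_x)
          have e2 : Vl Q.loc S.y b := vl_of_sub (by rw [← q2]; exact vl_y)
          have f1 : Vl T.loc (S.y / S.x) (b / a) := vl_of_sub (by rw [← t1]; exact vl_x)
          have f2 : Vl T.loc S.x a := vl_of_sub (by rw [← t2]; exact vl_y)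
          refine PtAt.change ⟨Q, q1, q2, rfl⟩ ⟨T, t1, t2, rfl⟩ (sub_of_vl (vl_div e2 e1 ha))
            (sub_of_vl e1) (sub_of_vl f2) (sub_of_vl ?_)
          have := vl_mul f1 f2
          rwa [div_mul_cancel₀ _ hx, div_mul_cancel₀ _ ha] at this
      · left
        exact ⟨b, Or.inr (ptAt_swap h)⟩
      · right
        exact Or.inr (ptAt_swap h)
    · rcases (next_ptAt h0).1 hR with ⟨c, h⟩ | h
      · left
        exact ⟨c, Or.inl ⟨0, by rw [map_zero, sub_zero]; exact ptAt_swap h⟩⟩
      · right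
        exact Or.inl ⟨0, by rw [map_zero, sub_zero]; exact ptAt_swap h⟩
  · rintro R (⟨b, h⟩ | h)
    · rcases h with ⟨a, h⟩ | h
      · by_cases ha : a = 0
        · right
          rw [ha, map_zero, sub_zero] at h
          exact (next_ptAt h0).2 (Or.inl ⟨b, ptAt_swap h⟩)
        · left
          obtain ⟨R', h'⟩ := ptAt_tor S 1 0 0 1 (Or.inl (by norm_num)) a (a * b)
            (u := S.x - algebraMap ℂ L a) (v := S.y - algebraMap ℂ L (a * b)) (by simp) (by simp)
          have hch : PtAt (S.x - algebraMap ℂ L a) (S.y - algebraMap ℂ L (a * b)) R := by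
            obtain ⟨Q, q1, q2, rfl⟩ := h
            obtain ⟨T, t1, t2, rfl⟩ := h'
            have e1 : Vl Q.loc (S.y / S.x) b := vl_of_sub (by rw [← q1]; exact vl_x)
            have e2 : Vl Q.loc S.x a := vl_of_sub (by rw [← q2]; exact vl_y)
            have f1 : Vl T.loc S.x a := vl_of_sub (by rw [← t1]; exact vl_x)
            have f2 : Vl T.loc S.y (a * b) := vl_of_sub (by rw [← t2]; exact vl_y)
            refine PtAt.change ⟨Q, q1, q2, rfl⟩ ⟨T, t1, t2, rfl⟩ (sub_of_vl e2)
              (sub_of_vl ?_) (sub_of_vl ?_) (sub_of_vl f1)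
            · have := vl_mul e2 e1
              rwa [mul_div_cancel₀ _ hx] at this
            · have := vl_div f2 f1 ha
              rwa [mul_div_cancel_left₀ _ ha] at this
          refine ⟨plane_aff hch, ?_⟩
          rw [Set.mem_singleton_iff]
          exact (vl_ne h0.isLoc h0.vl_x (R' := R) (z := S.x) (b := a) (by
            obtain ⟨T, t1, t2, rfl⟩ := hch
            exact vl_of_sub (by rw [← t1]; exact vl_x)) (Ne.symm ha)).symm
      · left
        refine ⟨plane_inf (ptAt_swap h), ?_⟩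
        rw [Set.mem_singleton_iff]
        exact (vl_ne_inv h0.isLoc hx h0.vl_x h.vl_y).symm
    · rcases h with ⟨a, h⟩ | h
      · by_cases ha : a = 0
        · right
          rw [ha, map_zero, sub_zero] at h
          exact (next_ptAt h0).2 (Or.inr (ptAt_swap h))
        · left
          obtain ⟨R', h'⟩ := ptAt_tor S 1 0 0 1 (Or.inl (by norm_num)) 0 a
            (u := S.x) (v := S.y - algebraMap ℂ L a) (by simp) (by simp)
          have hch : PtAt S.x (S.y - algebraMap ℂ L a) R := by
            obtain ⟨Q, q1, q2, rfl⟩ := h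
            obtain ⟨T, t1, t2, rfl⟩ := h'
            have e1 : Vl Q.loc (S.x / S.y) 0 := by rw [← q1]; exact vl_x
            have e2 : Vl Q.loc S.y a := vl_of_sub (by rw [← q2]; exact vl_y)
            have f1 : Vl T.loc S.x 0 := by rw [← t1]; exact vl_x
            have f2 : Vl T.loc S.y a := vl_of_sub (by rw [← t2]; exact vl_y)
            refine PtAt.change ⟨Q, q1, q2, rfl⟩ ⟨T, t1, t2, rfl⟩ ?_ (sub_of_vl e2) ?_
              (sub_of_vl f2)
            · have := vl_mul e1 e2
              rwa [div_mul_cancel₀ _ hy, zero_mul] at this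
            · have := vl_div f1 f2 ha
              rwa [zero_div] at this
          refine ⟨plane_aff (a := 0) (b := a) (by rwa [map_zero, sub_zero]), ?_⟩
          rw [Set.mem_singleton_iff]
          exact (vl_ne h0.isLoc h0.vl_y (R' := R) (z := S.y) (b := a) (by
            obtain ⟨T, t1, t2, rfl⟩ := hch
            exact vl_of_sub (by rw [← t2]; exact vl_y)) (Ne.symm ha)).symm
      · left
        refine ⟨plane_ver (ptAt_swap h), ?_⟩
        rw [Set.mem_singleton_iff]
        exact (vl_ne_inv h0.isLoc hy h0.vl_y h.vl_y).symm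

/-- The surface `blow (plane S) (loc (x / y, 1 / y))`, ruled by `x`. -/
def FC (x y : L) : Set (Subalgebra ℂ L) :=
  {R | (∃ b : ℂ, R ∈ W (x - algebraMap ℂ L b) y) ∨ R ∈ W x⁻¹ (y / x)}

theorem blow_C {S : Coord L} {R0 : Subalgebra ℂ L} (h0 : PtAt (S.x / S.y) S.y⁻¹ R0) :
    blow (plane S) R0 = FC S.x S.y := by
  have hx := S.x_ne
  have hy := S.y_ne
  have e0 : S.y⁻¹ / (S.x / S.y) = S.x⁻¹ := by field_simp
  have e0' : (S.x / S.y) / S.y⁻¹ = S.x := by field_simp
  apply Set.Subset.antisymm
  · rintro R (⟨hR, hne⟩ | hR)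
    · rw [Set.mem_singleton_iff] at hne
      rcases mem_plane hR with ⟨a, b, h⟩ | ⟨b, h⟩ | h
      · exact Or.inl ⟨a, Or.inl ⟨b, h⟩⟩
      · exact Or.inr (Or.inl ⟨b, h⟩)
      · exact absurd ((ptAt_swap h).unique h0) hne
    · rcases (next_ptAt h0).1 hR with ⟨c, h⟩ | h
      · rw [e0] at h
        by_cases hc : c = 0
        · right; right
          rw [hc, map_zero, sub_zero] at h
          rw [inv_div]
          exact ptAt_swap h
        · left
          refine ⟨c⁻¹, Or.inr ?_⟩
          obtain ⟨R', h'⟩ := ptAt_tor S 1 0 0 (-1) (Or.inr (by norm_num)) c⁻¹ 0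
            (u := S.x - algebraMap ℂ L c⁻¹) (v := S.y⁻¹) (by simp) (by simp)
          obtain ⟨Q, q1, q2, rfl⟩ := h
          obtain ⟨T, t1, t2, rfl⟩ := h'
          have e1 : Vl Q.loc (S.x / S.y) 0 := by rw [← q1]; exact vl_x
          have e2 : Vl Q.loc S.x⁻¹ c := vl_of_sub (by rw [← q2]; exact vl_y)
          have e3 : Vl Q.loc S.x c⁻¹ := by
            have := vl_inv e2 hc; rwa [inv_inv] at this
          have f1 : Vl T.loc S.x c⁻¹ := vl_of_sub (by rw [← t1]; exact vl_x)
          have f2 : Vl T.loc S.y⁻¹ 0 := by rw [← t2]; exact vl_y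
          refine PtAt.change ⟨Q, q1, q2, rfl⟩ ⟨T, t1, t2, rfl⟩ (sub_of_vl e3) ?_ ?_ ?_
          · have := vl_mul e1 e2
            have e4 : S.x / S.y * S.x⁻¹ = S.y⁻¹ := by field_simp
            rwa [e4, zero_mul] at this
          · have := vl_mul f1 f2
            rwa [mul_zero, ← div_eq_mul_inv] at this
          · have := vl_inv f1 (inv_ne_zero hc)
            rw [inv_inv] at this
            exact sub_of_vl this
      · rw [e0'] at h
        left
        exact ⟨0, Or.inr (by rw [map_zero, sub_zero]; exact ptAt_swap h)⟩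
  · rintro R (⟨b, h⟩ | h)
    · rcases h with ⟨a, h⟩ | h
      · left
        refine ⟨plane_aff h, ?_⟩
        rw [Set.mem_singleton_iff]
        refine vl_ne_inv (z := S.y) (a := a) h.isLoc hy ?_ h0.vl_y
        obtain ⟨T, t1, t2, rfl⟩ := h
        exact vl_of_sub (by rw [← t2]; exact vl_y)
      · right
        by_cases hb : b = 0
        · rw [hb, map_zero, sub_zero] at h
          refine (next_ptAt h0).2 (Or.inr ?_)
          rw [e0']
          exact ptAt_swap h
        · refine (next_ptAt h0).2 (Or.inl ⟨b⁻¹, ?_⟩)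
          rw [e0]
          obtain ⟨R', h'⟩ := ptAt_tor S 1 (-1) (-1) 0 (Or.inr (by norm_num)) 0 b⁻¹
            (u := S.x / S.y) (v := S.x⁻¹ - algebraMap ℂ L b⁻¹) (by simp [div_eq_mul_inv])
            (by simp)
          obtain ⟨Q, q1, q2, rfl⟩ := h
          obtain ⟨T, t1, t2, rfl⟩ := h'
          have e1 : Vl Q.loc S.x b := vl_of_sub (by rw [← q1]; exact vl_x)
          have e2 : Vl Q.loc S.y⁻¹ 0 := by rw [← q2]; exact vl_y
          have f1 : Vl T.loc (S.x / S.y) 0 := by rw [← t1]; exact vl_x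
          have f2 : Vl T.loc S.x⁻¹ b⁻¹ := vl_of_sub (by rw [← t2]; exact vl_y)
          have f3 : Vl T.loc S.x b := by
            have := vl_inv f2 (inv_ne_zero hb); rwa [inv_inv, inv_inv] at this
          refine PtAt.change ⟨Q, q1, q2, rfl⟩ ⟨T, t1, t2, rfl⟩ ?_ (sub_of_vl (vl_inv e1 hb))
            (sub_of_vl f3) ?_
          · have := vl_mul e1 e2
            rwa [mul_zero, ← div_eq_mul_inv] at this
          · have := vl_mul f1 f2
            have e4 : S.x / S.y * S.x⁻¹ = S.y⁻¹ := by field_simp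
            rwa [e4, zero_mul] at this
    · rcases h with ⟨a, h⟩ | h
      · left
        refine ⟨plane_inf h, ?_⟩
        rw [Set.mem_singleton_iff]
        rintro rfl
        obtain ⟨Q, q1, q2, q3⟩ := h0
        obtain ⟨T, t1, t2, t3⟩ := h
        have e1 : Vl T.loc (S.y / S.x) a := vl_of_sub (by rw [← t2]; exact vl_y)
        have e2 : Vl T.loc (S.x / S.y) 0 := by rw [t3, ← q3, ← q1]; exact vl_x
        have := vl_mul e1 e2
        have e4 : S.y / S.x * (S.x / S.y) = 1 := by field_simp
        rw [e4, mul_zero] at this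
        exact one_ne_zero (vl_unique vl_one this)
      · right
        rw [inv_div] at h
        refine (next_ptAt h0).2 (Or.inl ⟨0, ?_⟩)
        rw [e0, map_zero, sub_zero]
        exact ptAt_swap h

end H82

end

end LCY
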