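import Pool.Agent.Helper82.LCY.Qset

/-!
The surface identities of the rows QA, QB, QC, part 2.
-/

open Polynomial

namespace LCY

noncomputable section

variable {L : Type} [Field L] [Algebra ℂ L]

namespace H82

open H62

variable {P : Coord L}

/-- The points `R1`, `R2` in different fibres. -/
theorem blow2 {F G A B : Set (Subalgebra ℂ L)} {R1 R2 : Subalgebra ℂ L}
    (hF : ∀ R, R ∈ F ↔ R ∈ G ∨ R ∈ A ∨ R ∈ B) (h1G : R1 ∉ G) (h1B : R1 ∉ B) (h2G : R2 ∉ G)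
    (h2A : R2 ∉ A) (h2N : ¬ Next R1 R2) :
    blow (blow F R1) R2 = G ∪ (((A \ {R1}) ∪ {R | Next R1 R}) ∪ ((B \ {R2}) ∪ {R | Next R2 R})) := by
  ext R
  simp only [blow, Set.mem_union, Set.mem_sdiff, Set.mem_singleton_iff, Set.mem_ofPred_eq, hF]
  constructor
  · rintro (⟨(⟨h, hne⟩ | h), hne'⟩ | h)
    · rcases h with h | h | h
      · exact Or.inl h
      · exact Or.inr (Or.inl (Or.inl ⟨h, hne⟩))
      · exact Or.inr (Or.inr (Or.inl ⟨h, hne'⟩))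
    · exact Or.inr (Or.inl (Or.inr h))
    · exact Or.inr (Or.inr (Or.inr h))
  · rintro (h | (⟨h, hne⟩ | h) | (⟨h, hne⟩ | h))
    · exact Or.inl ⟨Or.inl ⟨Or.inl h, fun e => h1G (e ▸ h)⟩, fun e => h2G (e ▸ h)⟩
    · exact Or.inl ⟨Or.inl ⟨Or.inr (Or.inl h), hne⟩, fun e => h2A (e ▸ h)⟩
    · exact Or.inl ⟨Or.inr h, fun e => h2N (e ▸ h)⟩
    · exact Or.inl ⟨Or.inl ⟨Or.inr (Or.inr h), fun e => h1B (e ▸ h)⟩, hne⟩
    · exact Or.inr h

/-- the fibres over `s = b`, `b ≠ 0` -/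
def GA (s x : L) : Set (Subalgebra ℂ L) := {R | ∃ b : ℂ, b ≠ 0 ∧ R ∈ W (s - algebraMap ℂ L b) x}

theorem GA_sub {s x : L} (hex : ∃ R0, PtAt s x R0) : GA s x ⊆ GA s⁻¹ x := by
  obtain ⟨R0, h0⟩ := hex
  obtain ⟨R1, h1⟩ := h0.exists_tor (-1) 0 0 1 (Or.inr (by norm_num))
  have h1' : PtAt s⁻¹ x R1 := by simpa using h1
  obtain ⟨R2, h2⟩ := h0.exists_tor (-1) 0 0 (-1) (Or.inl (by norm_num))
  have h2' : PtAt s⁻¹ x⁻¹ R2 := by simpa using h2
  rintro R ⟨b, hb, h⟩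
  refine ⟨b⁻¹, inv_ne_zero hb, ?_⟩
  rcases h with ⟨a, h⟩ | h
  · left
    refine ⟨a, ?_⟩
    obtain ⟨R', h'⟩ := h1'.exists_trans b⁻¹ a
    obtain ⟨Q, q1, q2, rfl⟩ := h
    obtain ⟨T, t1, t2, rfl⟩ := h'
    have e1 : Vl Q.loc s b := vl_of_sub (by rw [← q1]; exact vl_x)
    have e2 : Vl Q.loc (x - algebraMap ℂ L a) 0 := by rw [← q2]; exact vl_y
    have f1 : Vl T.loc s⁻¹ b⁻¹ := vl_of_sub (by rw [← t1]; exact vl_x)
    have f2 : Vl T.loc (x - algebraMap ℂ L a) 0 := by rw [← t2]; exact vl_y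
    have f3 := vl_inv f1 (inv_ne_zero hb)
    rw [inv_inv, inv_inv] at f3
    exact PtAt.change ⟨Q, q1, q2, rfl⟩ ⟨T, t1, t2, rfl⟩ (sub_of_vl (vl_inv e1 hb)) e2
      (sub_of_vl f3) f2
  · right
    obtain ⟨R', h'⟩ := h2'.exists_trans b⁻¹ 0
    rw [map_zero, sub_zero] at h'
    obtain ⟨Q, q1, q2, rfl⟩ := h
    obtain ⟨T, t1, t2, rfl⟩ := h'
    have e1 : Vl Q.loc s b := vl_of_sub (by rw [← q1]; exact vl_x)
    have e2 : Vl Q.loc x⁻¹ 0 := by rw [← q2]; exact vl_y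
    have f1 : Vl T.loc s⁻¹ b⁻¹ := vl_of_sub (by rw [← t1]; exact vl_x)
    have f2 : Vl T.loc x⁻¹ 0 := by rw [← t2]; exact vl_y
    have f3 := vl_inv f1 (inv_ne_zero hb)
    rw [inv_inv, inv_inv] at f3
    exact PtAt.change ⟨Q, q1, q2, rfl⟩ ⟨T, t1, t2, rfl⟩ (sub_of_vl (vl_inv e1 hb)) e2
      (sub_of_vl f3) f2

theorem GA_inv {s x : L} (hex : ∃ R0, PtAt s x R0) : GA s⁻¹ x = GA s x := by
  apply Set.Subset.antisymm
  · obtain ⟨R0, h0⟩ := hex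
    obtain ⟨R1, h1⟩ := h0.exists_tor (-1) 0 0 1 (Or.inr (by norm_num))
    have h1' : PtAt s⁻¹ x R1 := by simpa using h1
    have := GA_sub ⟨R1, h1'⟩
    rwa [inv_inv] at this
  · exact GA_sub hex

theorem GA_inv' {s x : L} (hex : ∃ R0, PtAt s x R0) : GA s x⁻¹ = GA s x := by
  obtain ⟨R0, h0⟩ := hex
  ext R
  constructor
  · rintro ⟨b, hb, h⟩
    refine ⟨b, hb, ?_⟩
    obtain ⟨R1, h1⟩ := h0.exists_trans b 0
    rw [map_zero, sub_zero] at h1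
    rwa [W_inv h1] at h
  · rintro ⟨b, hb, h⟩
    refine ⟨b, hb, ?_⟩
    obtain ⟨R1, h1⟩ := h0.exists_trans b 0
    rw [map_zero, sub_zero] at h1
    rwa [W_inv h1]

theorem FA_iff (x y : L) (R : Subalgebra ℂ L) :
    R ∈ FA x y ↔ R ∈ GA (y / x) x ∨ R ∈ W (y / x) x ∨ R ∈ W (x / y) y := by
  constructor
  · rintro (⟨b, h⟩ | h)
    · by_cases hb : b = 0
      · rw [hb, map_zero, sub_zero] at h
        exact Or.inr (Or.inl h)
      · exact Or.inl ⟨b, hb, h⟩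
    · exact Or.inr (Or.inr h)
  · rintro (⟨b, hb, h⟩ | h | h)
    · exact Or.inl ⟨b, h⟩
    · exact Or.inl ⟨0, by rwa [map_zero, sub_zero]⟩
    · exact Or.inr h

theorem vl_GA {s x : L} {R : Subalgebra ℂ L} (h : R ∈ GA s x) : ∃ b : ℂ, b ≠ 0 ∧ Vl R s b := by
  obtain ⟨b, hb, h⟩ := h
  refine ⟨b, hb, ?_⟩
  have h1 := vl_W h
  obtain ⟨P, rfl⟩ := isLoc_W h
  exact vl_of_sub h1

theorem isLoc_GA {s x : L} {R : Subalgebra ℂ L} (h : R ∈ GA s x) : ∃ P : Coord L, P.loc = R := by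
  obtain ⟨b, hb, h⟩ := h
  exact isLoc_W h

/-- The surface after three blow-ups, cases A and B: `R1` lies in the fibre `s = 0`, `R2` in the
fibre `s = ∞`, `s = y / x`. -/
theorem blow3_AB {S : Coord L} {R0 R1 R2 : Subalgebra ℂ L} (h0 : PtAt S.x S.y R0)
    {u1 v1 u2 v2 : L} (p1 : PtAt u1 v1 R1) (_p2 : PtAt u2 v2 R2)
    (h1 : Vl R1 (S.y / S.x) 0) (h2 : Vl R2 (S.x / S.y) 0) :
    blow (blow (blow (plane S) R0) R1) R2 = GA (S.y / S.x) S.x ∪
      (((W (S.y / S.x) S.x \ {R1}) ∪ {R | Next R1 R}) ∪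
        ((W (S.x / S.y) S.y \ {R2}) ∪ {R | Next R2 R})) := by
  have hx := S.x_ne
  have hy := S.y_ne
  have hs : S.y / S.x ≠ 0 := div_ne_zero hy hx
  have h2' : Vl R2 (S.y / S.x)⁻¹ 0 := by rw [inv_div]; exact h2
  rw [blow_A h0]
  refine blow2 (FA_iff _ _) ?_ ?_ ?_ ?_ ?_
  · intro h
    obtain ⟨b, hb, hv⟩ := vl_GA h
    exact vl_ne (isLoc_GA h) hv h1 hb rfl
  · intro h
    have hv := vl_W h
    rw [← inv_div] at hv
    exact vl_ne_inv p1.isLoc hs h1 hv rfl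
  · intro h
    obtain ⟨b, hb, hv⟩ := vl_GA h
    exact vl_ne_inv (isLoc_GA h) hs hv h2' rfl
  · intro h
    exact vl_ne_inv (isLoc_W h) hs (vl_W h) h2' rfl
  · intro h
    have hv := vl_next p1 h h1
    obtain ⟨T, t1, t2, t3⟩ := _p2
    exact vl_ne_inv ⟨T, t3⟩ hs hv h2' rfl

/-- **Surface identity, case A.** -/
theorem surfA {S S' : Coord L} (hx' : S'.x = S.x⁻¹) (hy' : S'.y = S.y⁻¹)
    {R0 R1 R2 R0' R1' R2' : Subalgebra ℂ L}
    (r0 : PtAt S.x S.y R0) (r1 : PtAt S.x⁻¹ (S.y / S.x) R1) (r2 : PtAt S.y⁻¹ (S.x / S.y) R2)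
    (r0' : PtAt S'.x S'.y R0') (r1' : PtAt S'.x⁻¹ (S'.y / S'.x) R1')
    (r2' : PtAt S'.y⁻¹ (S'.x / S'.y) R2') :
    blow (blow (blow (plane S') R0') R1') R2' = blow (blow (blow (plane S) R0) R1) R2 := by
  have hx := S.x_ne
  have hy := S.y_ne
  rw [blow3_AB r0 r1 r2 r1.vl_y r2.vl_y, blow3_AB r0' r1' r2' r1'.vl_y r2'.vl_y]
  have e1 : S'.y / S'.x = (S.y / S.x)⁻¹ := by rw [hx', hy']; field_simp
  have e2 : S'.x / S'.y = S.y / S.x := by rw [hx', hy']; field_simp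
  have e3 : S.x / S.y = (S.y / S.x)⁻¹ := by rw [inv_div]
  set s := S.y / S.x with hs
  have hs0 : s ≠ 0 := div_ne_zero hy hx
  -- auxiliary points
  obtain ⟨Ra, pa⟩ := ptAt_tor S (-1) 1 1 0 (Or.inr (by norm_num)) 0 0 (u := s) (v := S.x)
    (by rw [hs]; simp [div_eq_mul_inv, mul_comm]) (by simp)
  obtain ⟨Rb, pb⟩ := ptAt_tor S (-1) 1 0 1 (Or.inr (by norm_num)) 0 0 (u := s) (v := S.y)
    (by rw [hs]; simp [div_eq_mul_inv, mul_comm]) (by simp)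
  obtain ⟨Rc, pc⟩ := ptAt_tor S 1 (-1) 1 0 (Or.inl (by norm_num)) 0 0 (u := s⁻¹) (v := S.x)
    (by rw [hs, inv_div]; simp [div_eq_mul_inv]) (by simp)
  obtain ⟨Rd, pd⟩ := ptAt_tor S 1 (-1) 0 1 (Or.inl (by norm_num)) 0 0 (u := s⁻¹) (v := S.y)
    (by rw [hs, inv_div]; simp [div_eq_mul_inv]) (by simp)
  -- the two elementary transformations
  have E0 : (W s S.x \ {R1}) ∪ {R | Next R1 R} = (W s S.y \ {R2'}) ∪ {R | Next R2' R} := by
    have q1 : PtAt s S.x⁻¹ R1 := ptAt_swap r1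
    have q2 : PtAt s (s * S.x) R2' := by
      have : s * S.x = S'.y⁻¹ := by rw [hs, hy', inv_inv]; field_simp
      rw [this]
      rw [e2] at r2'
      exact ptAt_swap r2'
    have := elem q1 q2
    rwa [show s * S.x = S.y by rw [hs]; field_simp] at this
  have E1 : (W s⁻¹ S.y \ {R2}) ∪ {R | Next R2 R} = (W s⁻¹ S.x \ {R1'}) ∪ {R | Next R1' R} := by
    have q1 : PtAt s⁻¹ S.y⁻¹ R2 := by
      rw [e3] at r2
      exact ptAt_swap r2
    have q2 : PtAt s⁻¹ (s⁻¹ * S.y) R1' := by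
      have : s⁻¹ * S.y = S'.x⁻¹ := by rw [hs, hx', inv_inv]; field_simp
      rw [this]
      rw [e1] at r1'
      exact ptAt_swap r1'
    have := elem q1 q2
    rwa [show s⁻¹ * S.y = S.x by rw [hs]; field_simp] at this
  rw [e1, e2, e3, hx', hy', GA_inv' ⟨Rc, pc⟩, GA_inv ⟨Ra, pa⟩, W_inv pc, W_inv pb, E0, E1]
  congr 1
  exact Set.union_comm _ _

/-- **Surface identity, case B.** -/
theorem surfB {S S' : Coord L} (hx' : S'.x = S.x) (hy' : S'.y = S.x ^ 2 / S.y)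
    {R0 R1 R2 R0' R1' R2' : Subalgebra ℂ L}
    (r0 : PtAt S.x S.y R0) (r1 : PtAt S.x (S.y / S.x) R1) (r2 : PtAt S.y⁻¹ (S.x / S.y) R2)
    (r0' : PtAt S'.x S'.y R0') (r1' : PtAt S'.x (S'.y / S'.x) R1')
    (r2' : PtAt S'.y⁻¹ (S'.x / S'.y) R2') :
    blow (blow (blow (plane S') R0') R1') R2' = blow (blow (blow (plane S) R0) R1) R2 := by
  have hx := S.x_ne
  have hy := S.y_ne
  rw [blow3_AB r0 r1 r2 r1.vl_y r2.vl_y, blow3_AB r0' r1' r2' r1'.vl_y r2'.vl_y]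
  have e1 : S'.y / S'.x = (S.y / S.x)⁻¹ := by rw [hx', hy']; field_simp
  have e2 : S'.x / S'.y = S.y / S.x := by rw [hx', hy']; field_simp
  have e3 : S.x / S.y = (S.y / S.x)⁻¹ := by rw [inv_div]
  set s := S.y / S.x with hs
  have hs0 : s ≠ 0 := div_ne_zero hy hx
  obtain ⟨Ra, pa⟩ := ptAt_tor S (-1) 1 1 0 (Or.inr (by norm_num)) 0 0 (u := s) (v := S.x)
    (by rw [hs]; simp [div_eq_mul_inv, mul_comm]) (by simp)
  obtain ⟨Rb, pb⟩ := ptAt_tor S (-1) 1 2 (-1) (Or.inr (by norm_num)) 0 0 (u := s) (v := S'.y)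
    (by rw [hs]; simp [div_eq_mul_inv, mul_comm])
    (by rw [hy']; simp [div_eq_mul_inv])
  -- the two elementary transformations
  have E0 : (W s S.x \ {R1}) ∪ {R | Next R1 R} = (W s S'.y \ {R2'}) ∪ {R | Next R2' R} := by
    have q1 : PtAt s (S.x⁻¹)⁻¹ R1 := by rw [inv_inv]; exact ptAt_swap r1
    have h3 : s * S.x⁻¹ = S'.y⁻¹ := by rw [hs, hy']; field_simp
    have q2 : PtAt s (s * S.x⁻¹) R2' := by
      rw [h3]
      rw [e2] at r2'
      exact ptAt_swap r2'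
    have := elem q1 q2
    rwa [h3, W_inv pa, W_inv pb] at this
  have E1 : (W s⁻¹ S.y \ {R2}) ∪ {R | Next R2 R} = (W s⁻¹ S.x \ {R1'}) ∪ {R | Next R1' R} := by
    have q1 : PtAt s⁻¹ S.y⁻¹ R2 := by
      rw [e3] at r2
      exact ptAt_swap r2
    have h3 : s⁻¹ * S.y = S.x := by rw [hs]; field_simp
    have q2 : PtAt s⁻¹ (s⁻¹ * S.y) R1' := by
      rw [h3]
      rw [e1, hx'] at r1'
      exact ptAt_swap r1'
    have := elem q1 q2
    rwa [h3] at this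
  rw [e1, e2, e3, hx', GA_inv ⟨Ra, pa⟩, E0, E1]
  congr 1
  exact Set.union_comm _ _

/-- **Surface identity, case C.** -/
theorem surfC {S S' : Coord L} (hx' : S'.x = S.x) (hy' : S'.y = S.x ^ 2 - S.y)
    {R0 R1 R2 R0' R1' R2' : Subalgebra ℂ L}
    (r0 : PtAt (S.x / S.y) S.y⁻¹ R0) (r1 : PtAt (S.x / S.y) S.x⁻¹ R1)
    (r2 : PtAt (S.x / S.y) (S.y / S.x ^ 2 - 1) R2)
    (r0' : PtAt (S'.x / S'.y) S'.y⁻¹ R0') (r1' : PtAt (S'.x / S'.y) S'.x⁻¹ R1')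
    (r2' : PtAt (S'.x / S'.y) (S'.y / S'.x ^ 2 - 1) R2') :
    blow (blow (blow (plane S') R0') R1') R2' = blow (blow (blow (plane S) R0) R1) R2 := by
  have key : ∀ (S S' : Coord L) (hx' : S'.x = S.x) (hy' : S'.y = S.x ^ 2 - S.y)
      {R0 R1 R2 : Subalgebra ℂ L}
      (r0 : PtAt (S.x / S.y) S.y⁻¹ R0) (r1 : PtAt (S.x / S.y) S.x⁻¹ R1)
      (r2 : PtAt (S.x / S.y) (S.y / S.x ^ 2 - 1) R2)
      {Z0 Z1 : Subalgebra ℂ L} (z0 : PtAt S.x⁻¹ (S.y / S.x ^ 2) Z0)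
      (z1 : PtAt S.x⁻¹ (S'.y / S.x ^ 2) Z1),
      blow (blow (blow (plane S) R0) R1) R2 =
        {R | ∃ b : ℂ, R ∈ W (S.x - algebraMap ℂ L b) S.y} ∪
        (((W S.x⁻¹ (S.y / S.x ^ 2) \ {Z0}) \ {Z1}) ∪ ({R | Next Z0 R} ∪ {R | Next Z1 R})) := by
    intro S S' hx' hy' R0 R1 R2 r0 r1 r2 Z0 Z1 z0 z1
    have hx := S.x_ne
    have hy := S.y_ne
    -- `R2` is the point `w = 1` of the fibre
    have hR2 : R2 = Z1 := by
      obtain ⟨Q, q1, q2, rfl⟩ := r2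
      obtain ⟨T, t1, t2, rfl⟩ := z1
      have e1 : Vl Q.loc (S.x / S.y) 0 := by rw [← q1]; exact vl_x
      have e2 : Vl Q.loc (S.y / S.x ^ 2) 1 := by
        refine vl_of_sub ?_
        rw [map_one, ← q2]; exact vl_y
      have f1 : Vl T.loc S.x⁻¹ 0 := by rw [← t1]; exact vl_x
      have f2 : Vl T.loc (S'.y / S.x ^ 2) 0 := by rw [← t2]; exact vl_y
      have f3 : Vl T.loc (S.y / S.x ^ 2) 1 := by
        have := vl_sub (vl_one (P := T)) f2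
        rw [sub_zero] at this
        have e : 1 - S'.y / S.x ^ 2 = S.y / S.x ^ 2 := by rw [hy']; field_simp; ring
        rwa [e] at this
      refine loc_eq ?_ ?_ ?_ ?_
      · rw [t1]
        have := vl_mul e1 e2
        have e : S.x / S.y * (S.y / S.x ^ 2) = S.x⁻¹ := by field_simp
        rwa [e, zero_mul] at this
      · rw [t2]
        have := vl_sub (vl_one (P := Q)) e2
        rw [sub_self] at this
        have e : 1 - S.y / S.x ^ 2 = S'.y / S.x ^ 2 := by rw [hy']; field_simp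
        rwa [e] at this
      · rw [q1]
        have := vl_div f1 f3 one_ne_zero
        rw [zero_div] at this
        have e : S.x⁻¹ / (S.y / S.x ^ 2) = S.x / S.y := by field_simp
        rwa [e] at this
      · rw [q2]
        have := vl_sub f3 (vl_one (P := T))
        rwa [sub_self] at this
    -- the elementary transformation at `R1`
    have hE : (W S.x⁻¹ (S.y / S.x) \ {R1}) ∪ {R | Next R1 R}
        = (W S.x⁻¹ (S.y / S.x ^ 2) \ {Z0}) ∪ {R | Next Z0 R} := by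
      have q1 : PtAt S.x⁻¹ (S.y / S.x)⁻¹ R1 := by rw [inv_div]; exact ptAt_swap r1
      have h3 : S.x⁻¹ * (S.y / S.x) = S.y / S.x ^ 2 := by field_simp
      have q2 : PtAt S.x⁻¹ (S.x⁻¹ * (S.y / S.x)) Z0 := by rw [h3]; exact z0
      have := elem q1 q2
      rwa [h3] at this
    have v1 : Vl R1 S.x⁻¹ 0 := r1.vl_y
    have vZ1 : Vl Z1 S.x⁻¹ 0 := z1.vl_x
    have vZ0 : Vl Z0 (S.y / S.x ^ 2) 0 := z0.vl_y
    have vZ1' : Vl Z1 (S.y / S.x ^ 2) 1 := by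
      obtain ⟨T, t1, t2, rfl⟩ := z1
      have f2 : Vl T.loc (S'.y / S.x ^ 2) 0 := by rw [← t2]; exact vl_y
      have := vl_sub (vl_one (P := T)) f2
      rw [sub_zero] at this
      have e : 1 - S'.y / S.x ^ 2 = S.y / S.x ^ 2 := by rw [hy']; field_simp; ring
      rwa [e] at this
    rw [blow_C r0, hR2]
    ext R
    have hE' := Set.ext_iff.1 hE R
    simp only [Set.mem_union, Set.mem_sdiff, Set.mem_singleton_iff, Set.mem_ofPred_eq] at hE'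
    simp only [blow, FC, Set.mem_union, Set.mem_sdiff, Set.mem_singleton_iff, Set.mem_ofPred_eq]
    -- the points of the fibres `x = b` are different from `R1`, `Z1`
    have hG1 : (∃ b : ℂ, R ∈ W (S.x - algebraMap ℂ L b) S.y) → R ≠ R1 ∧ R ≠ Z1 := by
      rintro ⟨b, h⟩
      have hv : Vl R S.x b := by
        have := vl_W h
        obtain ⟨P, rfl⟩ := isLoc_W h
        exact vl_of_sub this
      exact ⟨vl_ne_inv (isLoc_W h) hx hv v1, vl_ne_inv (isLoc_W h) hx hv vZ1⟩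
    have hN : Next Z0 R → R ≠ Z1 := fun h => by
      have hv := vl_next z0 h vZ0
      intro e
      rw [e] at hv
      exact vl_ne z1.isLoc hv vZ1' zero_ne_one rfl
    constructor
    · rintro (⟨(⟨h | h, hne⟩ | h), hne'⟩ | h)
      · exact Or.inl h
      · rcases hE'.1 (Or.inl ⟨h, hne⟩) with h' | h'
        · exact Or.inr (Or.inl ⟨h', hne'⟩)
        · exact Or.inr (Or.inr (Or.inl h'))
      · rcases hE'.1 (Or.inr h) with h' | h'
        · exact Or.inr (Or.inl ⟨h', hne'⟩)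
        · exact Or.inr (Or.inr (Or.inl h'))
      · exact Or.inr (Or.inr (Or.inr h))
    · rintro (h | ⟨h, hne⟩ | h | h)
      · exact Or.inl ⟨Or.inl ⟨Or.inl h, (hG1 h).1⟩, (hG1 h).2⟩
      · rcases hE'.2 (Or.inl h) with h' | h'
        · exact Or.inl ⟨Or.inl ⟨Or.inr h'.1, h'.2⟩, hne⟩
        · exact Or.inl ⟨Or.inr h', hne⟩
      · rcases hE'.2 (Or.inr h) with h' | h'
        · exact Or.inl ⟨Or.inl ⟨Or.inr h'.1, h'.2⟩, hN h⟩
        · exact Or.inl ⟨Or.inr h', hN h⟩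
      · exact Or.inr h
  have hx := S.x_ne
  have hy := S.y_ne
  have hyy : S.y = S'.x ^ 2 - S'.y := by rw [hx', hy']; ring
  obtain ⟨Z0, z0⟩ := ptAt_tor S (-1) 0 (-2) 1 (Or.inr (by norm_num)) 0 0 (u := S.x⁻¹)
    (v := S.y / S.x ^ 2) (by simp) (by simp [div_eq_mul_inv, mul_comm])
  obtain ⟨Z1, z1⟩ := ptAt_tor S' (-1) 0 (-2) 1 (Or.inr (by norm_num)) 0 0 (u := S.x⁻¹)
    (v := S'.y / S.x ^ 2) (by rw [← hx']; simp)
    (by rw [← hx']; simp [div_eq_mul_inv, mul_comm])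
  rw [key S S' hx' hy' r0 r1 r2 z0 z1,
    key S' S hx'.symm hyy r0' r1' r2' (by rw [hx']; exact z1) (by rw [hx']; exact z0)]
  -- the fibres
  have hW1 : ∀ (S S' : Coord L), S'.x = S.x → S'.y = S.x ^ 2 - S.y → ∀ b : ℂ,
      W (S.x - algebraMap ℂ L b) S.y ⊆ W (S'.x - algebraMap ℂ L b) S'.y := by
    intro S S' hx' hy' b R h
    have hx := S.x_ne
    have hy := S.y_ne
    have hyS' := S'.y_ne
    rcases h with ⟨a, h⟩ | h
    · left
      refine ⟨b ^ 2 - a, ?_⟩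
      obtain ⟨R', h'⟩ := ptAt_tor S' 1 0 0 1 (Or.inl (by norm_num)) b (b ^ 2 - a)
        (u := S'.x - algebraMap ℂ L b) (v := S'.y - algebraMap ℂ L (b ^ 2 - a)) (by simp)
        (by simp)
      obtain ⟨Q, q1, q2, rfl⟩ := h
      obtain ⟨T, t1, t2, rfl⟩ := h'
      have e1 : Vl Q.loc S.x b := vl_of_sub (by rw [← q1]; exact vl_x)
      have e2 : Vl Q.loc S.y a := vl_of_sub (by rw [← q2]; exact vl_y)
      have f1 : Vl T.loc S'.x b := vl_of_sub (by rw [← t1]; exact vl_x)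
      have f2 : Vl T.loc S'.y (b ^ 2 - a) := vl_of_sub (by rw [← t2]; exact vl_y)
      refine PtAt.change ⟨Q, q1, q2, rfl⟩ ⟨T, t1, t2, rfl⟩ ?_ (sub_of_vl ?_) ?_ (sub_of_vl ?_)
      · rw [hx']; exact sub_of_vl e1
      · rw [hy', sq, sq]
        exact vl_sub (vl_mul e1 e1) e2
      · rw [← hx']; exact sub_of_vl f1
      · have e : S.y = S'.x * S'.x - S'.y := by rw [hx', hy']; ring
        have e' : a = b * b - (b ^ 2 - a) := by ring
        rw [e, e']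
        exact vl_sub (vl_mul f1 f1) f2
    · right
      obtain ⟨R', h'⟩ := ptAt_tor S' 1 0 0 (-1) (Or.inr (by norm_num)) b 0
        (u := S'.x - algebraMap ℂ L b) (v := S'.y⁻¹) (by simp) (by simp)
      obtain ⟨Q, q1, q2, rfl⟩ := h
      obtain ⟨T, t1, t2, rfl⟩ := h'
      have e1 : Vl Q.loc S.x b := vl_of_sub (by rw [← q1]; exact vl_x)
      have e2 : Vl Q.loc S.y⁻¹ 0 := by rw [← q2]; exact vl_y
      have f1 : Vl T.loc S'.x b := vl_of_sub (by rw [← t1]; exact vl_x)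
      have f2 : Vl T.loc S'.y⁻¹ 0 := by rw [← t2]; exact vl_y
      have inv_aux : ∀ {P : Coord L} {x y : L} {b : ℂ}, Vl P.loc x b → Vl P.loc y⁻¹ 0 → y ≠ 0 →
          x ^ 2 - y ≠ 0 → Vl P.loc (x ^ 2 - y)⁻¹ 0 := by
        intro P x y b h1 h2 hy0 hne
        have h3 := vl_sub (vl_mul (vl_mul h1 h1) h2) (vl_one (P := P))
        rw [mul_zero, zero_sub] at h3
        have h4 := vl_div h2 h3 (neg_ne_zero.2 one_ne_zero)
        rw [zero_div] at h4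
        have e : y⁻¹ / (x * x * y⁻¹ - 1) = (x ^ 2 - y)⁻¹ := by
          have h5 : x * x * y⁻¹ - 1 = (x ^ 2 - y) / y := by field_simp
          rw [h5]
          field_simp
        rwa [e] at h4
      refine PtAt.change ⟨Q, q1, q2, rfl⟩ ⟨T, t1, t2, rfl⟩ ?_ ?_ ?_ ?_
      · rw [hx']; exact sub_of_vl e1
      · rw [hy']
        exact inv_aux e1 e2 hy (by rw [← hy']; exact hyS')
      · rw [← hx']; exact sub_of_vl f1
      · have e : S.y = S'.x ^ 2 - S'.y := by rw [hx', hy']; ring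
        rw [e]
        exact inv_aux f1 f2 hyS' (by rw [← e]; exact hy)
  have hG : {R | ∃ b : ℂ, R ∈ W (S'.x - algebraMap ℂ L b) S'.y}
      = {R | ∃ b : ℂ, R ∈ W (S.x - algebraMap ℂ L b) S.y} := by
    ext R
    simp only [Set.mem_ofPred_eq]
    constructor
    · rintro ⟨b, h⟩; exact ⟨b, hW1 S' S hx'.symm hyy b h⟩
    · rintro ⟨b, h⟩; exact ⟨b, hW1 S S' hx' hy' b h⟩
  -- the fibre at infinity
  have hW2 : ∀ (S S' : Coord L), S'.x = S.x → S'.y = S.x ^ 2 - S.y →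
      W S.x⁻¹ (S.y / S.x ^ 2) ⊆ W S'.x⁻¹ (S'.y / S'.x ^ 2) := by
    intro S S' hx' hy' R h
    have hx := S.x_ne
    have hy := S.y_ne
    have hyS' := S'.y_ne
    have hw : S'.y / S'.x ^ 2 = 1 - S.y / S.x ^ 2 := by rw [hx', hy']; field_simp
    have hw' : S.y / S.x ^ 2 = 1 - S'.y / S'.x ^ 2 := by rw [hw]; ring
    rcases h with ⟨a, h⟩ | h
    · left
      refine ⟨1 - a, ?_⟩
      obtain ⟨R', h'⟩ := ptAt_tor S' (-1) 0 (-2) 1 (Or.inr (by norm_num)) 0 (1 - a)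
        (u := S'.x⁻¹) (v := S'.y / S'.x ^ 2 - algebraMap ℂ L (1 - a)) (by simp)
        (by simp [div_eq_mul_inv, mul_comm])
      obtain ⟨Q, q1, q2, rfl⟩ := h
      obtain ⟨T, t1, t2, rfl⟩ := h'
      have e1 : Vl Q.loc S.x⁻¹ 0 := by rw [← q1]; exact vl_x
      have e2 : Vl Q.loc (S.y / S.x ^ 2) a := vl_of_sub (by rw [← q2]; exact vl_y)
      have f1 : Vl T.loc S'.x⁻¹ 0 := by rw [← t1]; exact vl_x
      have f2 : Vl T.loc (S'.y / S'.x ^ 2) (1 - a) := vl_of_sub (by rw [← t2]; exact vl_y)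
      refine PtAt.change ⟨Q, q1, q2, rfl⟩ ⟨T, t1, t2, rfl⟩ ?_ (sub_of_vl ?_) ?_ (sub_of_vl ?_)
      · rw [hx']; exact e1
      · rw [hw]; exact vl_sub vl_one e2
      · rw [← hx']; exact f1
      · rw [hw']
        have := vl_sub (vl_one (P := T)) f2
        rwa [sub_sub_cancel] at this
    · right
      obtain ⟨R', h'⟩ := ptAt_tor S' (-1) 0 2 (-1) (Or.inl (by norm_num)) 0 0
        (u := S'.x⁻¹) (v := (S'.y / S'.x ^ 2)⁻¹) (by simp)
        (by rw [inv_div]; simp [div_eq_mul_inv])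
      obtain ⟨Q, q1, q2, rfl⟩ := h
      obtain ⟨T, t1, t2, rfl⟩ := h'
      have e1 : Vl Q.loc S.x⁻¹ 0 := by rw [← q1]; exact vl_x
      have e2 : Vl Q.loc (S.y / S.x ^ 2)⁻¹ 0 := by rw [← q2]; exact vl_y
      have f1 : Vl T.loc S'.x⁻¹ 0 := by rw [← t1]; exact vl_x
      have f2 : Vl T.loc (S'.y / S'.x ^ 2)⁻¹ 0 := by rw [← t2]; exact vl_y
      have inv_aux : ∀ {P : Coord L} {w : L}, Vl P.loc w⁻¹ 0 → w ≠ 0 → 1 - w ≠ 0 →
          Vl P.loc (1 - w)⁻¹ 0 := by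
        intro P w h2 hw0 hne
        have h3 := vl_sub h2 (vl_one (P := P))
        rw [zero_sub] at h3
        have h4 := vl_div h2 h3 (neg_ne_zero.2 one_ne_zero)
        rw [zero_div] at h4
        have e : w⁻¹ / (w⁻¹ - 1) = (1 - w)⁻¹ := by
          have h5 : w⁻¹ - 1 = (1 - w) / w := by field_simp
          rw [h5]
          field_simp
        rwa [e] at h4
      have hw0 : S.y / S.x ^ 2 ≠ 0 := div_ne_zero hy (pow_ne_zero _ hx)
      have hw0' : S'.y / S'.x ^ 2 ≠ 0 := div_ne_zero hyS' (pow_ne_zero _ S'.x_ne)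
      refine PtAt.change ⟨Q, q1, q2, rfl⟩ ⟨T, t1, t2, rfl⟩ ?_ ?_ ?_ ?_
      · rw [hx']; exact e1
      · rw [hw]; exact inv_aux e2 hw0 (by rw [← hw]; exact hw0')
      · rw [← hx']; exact f1
      · rw [hw']; exact inv_aux f2 hw0' (by rw [← hw']; exact hw0)
  have hW3 : W S'.x⁻¹ (S'.y / S'.x ^ 2) = W S.x⁻¹ (S.y / S.x ^ 2) :=
    Set.Subset.antisymm (hW2 S' S hx'.symm hyy) (hW2 S S' hx' hy')
  rw [hG, hW3]
  congr 1
  congr 1
  · ext R
    simp only [Set.mem_sdiff, Set.mem_singleton_iff]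
    tauto
  · exact Set.union_comm _ _

end H82

end

end LCY
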