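import Pool.Agent.Helper82.LCY.Qset2

/-!
The surface part of the rows QA, QB, QC.
-/

open Polynomial

namespace LCY

noncomputable section

variable {L : Type} [Field L] [Algebra ℂ L]

namespace H82

open H62

theorem surf_three (S : Coord L) (R : Fin 3 → Subalgebra ℂ L) :
    surf S R 3 = blow (blow (blow (plane S) (R 0)) (R 1)) (R 2) := by
  simp [surf]

theorem mem_surf_three {S : Coord L} {R : Fin 3 → Subalgebra ℂ L} (h0 : R 0 ∈ plane S)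
    (h1 : R 1 ∈ blow (plane S) (R 0)) (h2 : R 2 ∈ blow (blow (plane S) (R 0)) (R 1)) :
    ∀ i : Fin 3, R i ∈ surf S R i := by
  intro i
  fin_cases i
  · exact h0
  · simpa [surf] using h1
  · simpa [surf] using h2

/-- the triple -/
def tri (A B C : Subalgebra ℂ L) : Fin 3 → Subalgebra ℂ L := ![A, B, C]

theorem stdA_mem {S S' : Coord L} {R : Fin 3 → Subalgebra ℂ L} (h : StdA S S' R) :
    ∀ i : Fin 3, R i ∈ surf S R i := by
  have hx := S.x_ne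
  have hy := S.y_ne
  have r0 : PtAt S.x S.y (R 0) := h.r0
  have r1 : PtAt S.x⁻¹ (S.y / S.x) (R 1) := h.r1
  have r2 : PtAt S.y⁻¹ (S.x / S.y) (R 2) := h.r2
  have n1 : R 1 ≠ R 0 := fun e => by
    refine vl_ne_inv r1.isLoc (inv_ne_zero hx) r1.vl_x (R' := R 0) ?_ e
    rw [inv_inv]; exact r0.vl_x
  have n2 : R 2 ≠ R 0 := fun e => by
    refine vl_ne_inv r2.isLoc (inv_ne_zero hy) r2.vl_x (R' := R 0) ?_ e
    rw [inv_inv]; exact r0.vl_y
  have n3 : R 2 ≠ R 1 := fun e => by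
    refine vl_ne_inv r2.isLoc (div_ne_zero hx hy) r2.vl_y (R' := R 1) ?_ e
    rw [inv_div]; exact r1.vl_y
  refine mem_surf_three ?_ ?_ ?_
  · exact plane_aff (a := 0) (b := 0) (by rw [map_zero, sub_zero, sub_zero]; exact r0)
  · exact Or.inl ⟨plane_inf (b := 0) (by rw [map_zero, sub_zero]; exact r1), n1⟩
  · exact Or.inl ⟨Or.inl ⟨plane_ver r2, n2⟩, n3⟩

theorem stdB_mem {S S' : Coord L} {R : Fin 3 → Subalgebra ℂ L} (h : StdB S S' R) :
    ∀ i : Fin 3, R i ∈ surf S R i := by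
  have hx := S.x_ne
  have hy := S.y_ne
  have r0 : PtAt S.x S.y (R 0) := h.r0
  have r1 : PtAt S.x (S.y / S.x) (R 1) := h.r1
  have r2 : PtAt S.y⁻¹ (S.x / S.y) (R 2) := h.r2
  have n2 : R 2 ≠ R 0 := fun e => by
    refine vl_ne_inv r2.isLoc (inv_ne_zero hy) r2.vl_x (R' := R 0) ?_ e
    rw [inv_inv]; exact r0.vl_y
  have n3 : R 2 ≠ R 1 := fun e => by
    refine vl_ne_inv r2.isLoc (div_ne_zero hx hy) r2.vl_y (R' := R 1) ?_ e
    rw [inv_div]; exact r1.vl_y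
  refine mem_surf_three ?_ ?_ ?_
  · exact plane_aff (a := 0) (b := 0) (by rw [map_zero, sub_zero, sub_zero]; exact r0)
  · exact Or.inr ((next_ptAt r0).2 (Or.inl ⟨0, by rw [map_zero, sub_zero]; exact r1⟩))
  · exact Or.inl ⟨Or.inl ⟨plane_ver r2, n2⟩, n3⟩

theorem stdC_mem {S S' : Coord L} {R : Fin 3 → Subalgebra ℂ L} (h : StdC S S' R) :
    ∀ i : Fin 3, R i ∈ surf S R i := by
  have hx := S.x_ne
  have hy := S.y_ne
  have r0 : PtAt (S.x / S.y) S.y⁻¹ (R 0) := h.r0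
  have r1 : PtAt (S.x / S.y) S.x⁻¹ (R 1) := h.r1
  have r2 : PtAt (S.x / S.y) (S.y / S.x ^ 2 - 1) (R 2) := h.r2
  refine mem_surf_three ?_ ?_ ?_
  · exact plane_ver (ptAt_swap r0)
  · refine Or.inr ((next_ptAt r0).2 (Or.inl ⟨0, ?_⟩))
    rw [map_zero, sub_zero]
    have e : S.y⁻¹ / (S.x / S.y) = S.x⁻¹ := by field_simp
    rw [e]; exact r1
  · refine Or.inr ((next_ptAt r1).2 (Or.inl ⟨1, ?_⟩))
    have e : S.x⁻¹ / (S.x / S.y) = S.y / S.x ^ 2 := by field_simp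
    rw [e, map_one]; exact r2

/-- **QA, surface part.** -/
theorem qA {S S' : Coord L} {R : Fin 3 → Subalgebra ℂ L} (h : StdA S S' R) :
    ∃ R', StdA S' S R' ∧ (∀ i : Fin 3, R' i ∈ surf S' R' i) ∧ surf S' R' 3 = surf S R 3 := by
  obtain ⟨A, a⟩ := ptAt_tor S' 1 0 0 1 (Or.inl (by norm_num)) 0 0 (u := S'.x) (v := S'.y)
    (by simp) (by simp)
  obtain ⟨B, b⟩ := ptAt_tor S' (-1) 0 (-1) 1 (Or.inr (by norm_num)) 0 0 (u := S'.x⁻¹)
    (v := S'.y / S'.x) (by simp) (by simp [div_eq_mul_inv, mul_comm])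
  obtain ⟨C, c⟩ := ptAt_tor S' 0 (-1) 1 (-1) (Or.inl (by norm_num)) 0 0 (u := S'.y⁻¹)
    (v := S'.x / S'.y) (by simp) (by simp [div_eq_mul_inv])
  have hS : StdA S' S (tri A B C) := by
    refine ⟨?_, ?_, ?_, ?_, ?_⟩
    · rw [h.x, inv_inv]
    · rw [h.y, inv_inv]
    · exact a
    · exact b
    · exact c
  refine ⟨_, hS, stdA_mem hS, ?_⟩
  rw [surf_three, surf_three]
  exact surfA h.x h.y h.r0 h.r1 h.r2 a b c

/-- **QB, surface part.** -/
theorem qB {S S' : Coord L} {R : Fin 3 → Subalgebra ℂ L} (h : StdB S S' R) :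
    ∃ R', StdB S' S R' ∧ (∀ i : Fin 3, R' i ∈ surf S' R' i) ∧ surf S' R' 3 = surf S R 3 := by
  have hx := S.x_ne
  have hy := S.y_ne
  obtain ⟨A, a⟩ := ptAt_tor S' 1 0 0 1 (Or.inl (by norm_num)) 0 0 (u := S'.x) (v := S'.y)
    (by simp) (by simp)
  obtain ⟨B, b⟩ := ptAt_tor S' 1 0 (-1) 1 (Or.inl (by norm_num)) 0 0 (u := S'.x)
    (v := S'.y / S'.x) (by simp) (by simp [div_eq_mul_inv, mul_comm])
  obtain ⟨C, c⟩ := ptAt_tor S' 0 (-1) 1 (-1) (Or.inl (by norm_num)) 0 0 (u := S'.y⁻¹)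
    (v := S'.x / S'.y) (by simp) (by simp [div_eq_mul_inv])
  have hS : StdB S' S (tri A B C) := by
    refine ⟨?_, ?_, ?_, ?_, ?_⟩
    · rw [h.x]
    · rw [h.x, h.y]; field_simp
    · exact a
    · exact b
    · exact c
  refine ⟨_, hS, stdB_mem hS, ?_⟩
  rw [surf_three, surf_three]
  exact surfB h.x h.y h.r0 h.r1 h.r2 a b c

/-- translated coordinates of the third point in the case C -/
theorem exists_c2 (S : Coord L) : ∃ C, PtAt (S.x / S.y) (S.y / S.x ^ 2 - 1) C :=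
  ptAt_tor S 1 (-1) (-2) 1 (Or.inr (by norm_num)) 0 1 (u := S.x / S.y)
    (v := S.y / S.x ^ 2 - 1) (by simp [div_eq_mul_inv]) (by simp [div_eq_mul_inv, mul_comm])

/-- **QC, surface part.** -/
theorem qC {S S' : Coord L} {R : Fin 3 → Subalgebra ℂ L} (h : StdC S S' R) :
    ∃ R', StdC S' S R' ∧ (∀ i : Fin 3, R' i ∈ surf S' R' i) ∧ surf S' R' 3 = surf S R 3 := by
  obtain ⟨A, a⟩ := ptAt_tor S' 1 (-1) 0 (-1) (Or.inr (by norm_num)) 0 0 (u := S'.x / S'.y)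
    (v := S'.y⁻¹) (by simp [div_eq_mul_inv]) (by simp)
  obtain ⟨B, b⟩ := ptAt_tor S' 1 (-1) (-1) 0 (Or.inr (by norm_num)) 0 0 (u := S'.x / S'.y)
    (v := S'.x⁻¹) (by simp [div_eq_mul_inv]) (by simp)
  obtain ⟨C, c⟩ := exists_c2 S'
  have hS : StdC S' S (tri A B C) := by
    refine ⟨?_, ?_, ?_, ?_, ?_⟩
    · rw [h.x]
    · rw [h.x, h.y]; ring
    · exact a
    · exact b
    · exact c
  refine ⟨_, hS, stdC_mem hS, ?_⟩
  rw [surf_three, surf_three]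
  exact surfC h.x h.y h.r0 h.r1 h.r2 a b c

end H82

end

end LCY
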