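import Pool.Agent.Helper82.LCY.Gm

/-!
Row STEP in abstract form.
-/

namespace Pool.Agent.Helper82.LCY

open Finset

variable {k : ℕ}

/-- the degree of `f_j` -/
def fdeg (j : ℕ) : ℤ := if j = 0 then 1 else if j = 1 then 1 else if j = 2 then 2 else 3

theorem ip_fcl (j : ℕ) (C : Cl ℤ (Fin k)) :
    ip (fcl k j) C = fdeg j * C.1 - ∑ i ∈ range j, ext C.2 i := by
  have h1 : ∑ i : Fin k, (if (i : ℕ) < j then 1 else 0) * C.2 i
      = ∑ i ∈ range k, (if i < j then 1 else 0) * ext C.2 i := by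
    rw [Finset.sum_range]
    exact Finset.sum_congr rfl fun i _ => by rw [ext_fin]
  have h2 : ∑ i ∈ range k, (if i < j then (1 : ℤ) else 0) * ext C.2 i
      = ∑ i ∈ range (max k j), (if i < j then (1 : ℤ) else 0) * ext C.2 i := by
    refine Finset.sum_subset (Finset.range_mono (le_max_left _ _)) fun i _ hi => ?_
    rw [ext_ge _ (by simpa using hi), mul_zero]
  have h3 : ∑ i ∈ range j, ext C.2 i
      = ∑ i ∈ range (max k j), (if i < j then (1 : ℤ) else 0) * ext C.2 i := by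
    rw [← Finset.sum_subset (Finset.range_mono (le_max_right k j)) fun i _ hi => ?_]
    · refine Finset.sum_congr rfl fun i hi => ?_
      rw [if_pos (Finset.mem_range.1 hi), one_mul]
    · rw [if_neg (by simpa using hi), zero_mul]
  simp only [ip, fcl]
  rw [h1, h2, ← h3]
  rfl

theorem ip_KK_ext (C : Cl ℤ (Fin k)) : ip KK C = -3 * C.1 + ∑ i ∈ range k, ext C.2 i := by
  rw [ip_KK, Finset.sum_range]
  congr 1
  exact Finset.sum_congr rfl fun i _ => by rw [ext_fin]

theorem TypeA.ext_nonneg {C : Cl ℤ (Fin k)} (h : TypeA C) (i : ℕ) : 0 ≤ ext C.2 i := by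
  unfold ext
  split_ifs with hi
  · exact (h.2 _).1
  · exact le_rfl

theorem TypeA.ext_le {C : Cl ℤ (Fin k)} (h : TypeA C) (i : ℕ) : ext C.2 i ≤ C.1 := by
  unfold ext
  split_ifs with hi
  · exact (h.2 _).2
  · have := h.1; omega

theorem TypeB.ext_lt {p : Fin k} {C : Cl ℤ (Fin k)} (h : TypeB p C) {i : ℕ} (hi : i < p) :
    ext C.2 i = 0 := by
  unfold ext
  split_ifs with hi'
  · exact h.2.2.1 _ hi
  · rfl

theorem TypeB.ext_self {p : Fin k} {C : Cl ℤ (Fin k)} (h : TypeB p C) :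
    ext C.2 p = -1 := by
  rw [ext_fin]; exact h.2.1

theorem TypeB.ext_gt {p : Fin k} {C : Cl ℤ (Fin k)} (h : TypeB p C) {i : ℕ} (hi : (p : ℕ) < i) :
    ext C.2 i = 0 ∨ ext C.2 i = 1 := by
  unfold ext
  split_ifs with hi'
  · exact h.2.2.2 _ hi
  · exact Or.inl rfl

theorem fcl_small_nonneg {C : Cl ℤ (Fin k)} (h : TypeA C ∨ ∃ p, TypeB p C) {j : ℕ} (hj : j ≤ 2) :
    0 ≤ ip (fcl k j) C := by
  rw [ip_fcl]
  rcases h with h | ⟨p, h⟩
  · have h0 := h.ext_le 0
    have h1 := h.ext_le 1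
    have h2 := h.1
    interval_cases j
    · simp [fdeg]; omega
    · simp [fdeg]; omega
    · simp [fdeg, Finset.sum_range_succ]; omega
  · rw [h.1, mul_zero, zero_sub]
    interval_cases j
    · simp
    · simp only [Finset.sum_range_one]
      rcases Nat.eq_zero_or_pos (p : ℕ) with hp | hp
      · have := h.ext_self; rw [hp] at this; rw [this]; norm_num
      · rw [h.ext_lt hp]; norm_num
    · simp only [Finset.sum_range_succ, Finset.sum_range_zero, zero_add]
      rcases Nat.eq_zero_or_pos (p : ℕ) with hp | hp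
      · have h1 := h.ext_self
        rw [hp] at h1
        rw [h1]
        rcases h.ext_gt (i := 1) (by omega) with h2 | h2 <;> rw [h2] <;> norm_num
      · rw [h.ext_lt hp]
        rcases Nat.lt_or_ge 1 (p : ℕ) with hp' | hp'
        · rw [h.ext_lt hp']; norm_num
        · have hp1 : (p : ℕ) = 1 := by omega
          have h1 := h.ext_self
          rw [hp1] at h1
          rw [h1]; norm_num

/-- `f_j` is nonnegative on the curves orthogonal to `K` -/
theorem fcl_nonneg_of_K {C : Cl ℤ (Fin k)} (h : TypeA C ∨ ∃ p, TypeB p C)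
    (hK : ip KK C = 0) {j : ℕ} (hj : j ≤ k) : 0 ≤ ip (fcl k j) C := by
  rcases Nat.lt_or_ge j 3 with h3 | h3
  · exact fcl_small_nonneg h (by omega)
  · rw [ip_fcl]
    rw [ip_KK_ext] at hK
    have hfd : fdeg j = 3 := by
      unfold fdeg
      rw [if_neg (by omega), if_neg (by omega), if_neg (by omega)]
    have hsplit : ∑ i ∈ range k, ext C.2 i
        = ∑ i ∈ range j, ext C.2 i + ∑ i ∈ Finset.Ico j k, ext C.2 i := by
      rw [Finset.range_eq_Ico, Finset.range_eq_Ico, Finset.sum_Ico_consecutive _ (Nat.zero_le _) hj]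
    rw [hfd]
    rw [hsplit] at hK
    rcases h with h | ⟨p, h⟩
    · have : 0 ≤ ∑ i ∈ Finset.Ico j k, ext C.2 i := Finset.sum_nonneg fun i _ => h.ext_nonneg i
      linarith
    · rcases Nat.lt_or_ge (p : ℕ) j with hp | hp
      · have : 0 ≤ ∑ i ∈ Finset.Ico j k, ext C.2 i := Finset.sum_nonneg fun i hi => by
          rw [Finset.mem_Ico] at hi
          rcases h.ext_gt (i := i) (by omega) with h2 | h2 <;> rw [h2]
          norm_num
        linarith
      · have : ∑ i ∈ range j, ext C.2 i = 0 := Finset.sum_eq_zero fun i hi =>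
          h.ext_lt (by have := Finset.mem_range.1 hi; omega)
        rw [this, h.1]; norm_num

/-- nefness of `f_j` when the first `j` multiplicities of a nef class are equal -/
theorem fcl_nonneg_of_nef {B C : Cl ℤ (Fin k)} (h : TypeA C ∨ ∃ p, TypeB p C)
    (hBC : 0 ≤ ip B C) (hB0 : ∀ i, 0 ≤ B.2 i) {j : ℕ} (hj3 : 3 ≤ j) {μ : ℤ} (hμ : 0 < μ)
    (hb : B.1 = 3 * μ) (hm : ∀ i, i < j → ext B.2 i = μ) (hj : j ≤ k) : 0 ≤ ip (fcl k j) C := by
  have hfd : fdeg j = 3 := by
    unfold fdeg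
    rw [if_neg (by omega), if_neg (by omega), if_neg (by omega)]
  have hBC' : ip B C = B.1 * C.1 - ∑ i ∈ range k, ext B.2 i * ext C.2 i := by
    simp only [ip]
    congr 1
    rw [Finset.sum_range]
    exact Finset.sum_congr rfl fun i _ => by rw [ext_fin, ext_fin]
  have hsplit : ∑ i ∈ range k, ext B.2 i * ext C.2 i
      = μ * ∑ i ∈ range j, ext C.2 i + ∑ i ∈ Finset.Ico j k, ext B.2 i * ext C.2 i := by
    rw [Finset.range_eq_Ico, ← Finset.sum_Ico_consecutive _ (Nat.zero_le _) hj,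
      ← Finset.range_eq_Ico, Finset.mul_sum]
    congr 1
    refine Finset.sum_congr rfl fun i hi => ?_
    rw [hm i (Finset.mem_range.1 hi)]
  have hB0' : ∀ i, 0 ≤ ext B.2 i := ext_nonneg hB0
  have key : (0 ≤ ∑ i ∈ Finset.Ico j k, ext B.2 i * ext C.2 i) → 0 ≤ ip (fcl k j) C := by
    intro h0
    have h1 : μ * ip (fcl k j) C = ip B C + ∑ i ∈ Finset.Ico j k, ext B.2 i * ext C.2 i := by
      rw [hBC', hsplit, ip_fcl, hfd, hb]; ring
    have h2 : 0 ≤ μ * ip (fcl k j) C := by rw [h1]; linarith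
    exact nonneg_of_mul_nonneg_right h2 hμ
  rcases h with h | ⟨p, h⟩
  · exact key (Finset.sum_nonneg fun i _ => mul_nonneg (hB0' i) (h.ext_nonneg i))
  · rcases Nat.lt_or_ge (p : ℕ) j with hp | hp
    · refine key (Finset.sum_nonneg fun i hi => mul_nonneg (hB0' i) ?_)
      rw [Finset.mem_Ico] at hi
      rcases h.ext_gt (i := i) (by omega) with h2 | h2 <;> rw [h2]
      norm_num
    · rw [ip_fcl, h.1, mul_zero, zero_sub]
      have : ∑ i ∈ range j, ext C.2 i = 0 := Finset.sum_eq_zero fun i hi =>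
        h.ext_lt (by have := Finset.mem_range.1 hi; omega)
      rw [this]; norm_num

variable {κ : Type*} {PS : Type*} (M : Marks κ PS k)

/-- **STEP.** If `EE` is a set of curves orthogonal to `K` whose classes do not span `K^perp`
then in a suitable structure a nef class `f_j`, `j < k`, is orthogonal to `EE`. -/
theorem Marks.step (hk : 3 ≤ k) (hk8 : k ≤ 8) (s0 : PS) (hK : ∀ c, ip KK (M.cl s0 c) ≤ 0)
    (hC : ∀ c c', c ≠ c' → 0 ≤ ip (M.cl s0 c) (M.cl s0 c'))
    (hpos : ∀ (s : Finset κ) (n : κ → ℤ), (∀ c ∈ s, 0 ≤ n c) → ∑ c ∈ s, n c • M.cl s0 c = 0 →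
      ∀ c ∈ s, n c = 0)
    (hR5 : ∀ G : Cl ℤ (Fin k), 0 ≤ G.1 → (∀ i, 0 ≤ G.2 i) → 0 < ip G G - ip KK G + 2 →
      Eff (M.cl s0) G)
    (EE : Set κ) (hEK : ∀ e ∈ EE, ip KK (M.cl s0 e) = 0)
    (hns : ¬ SpansPerp (M.cl s0 '' EE)) :
    ∃ (s : PS) (φ : Isom k) (j : ℕ), (∀ c, M.cl s c = φ.f (M.cl s0 c)) ∧ j < k ∧
      (∀ e ∈ EE, ip (fcl k j) (M.cl s e) = 0) ∧ ∀ c, 0 ≤ ip (fcl k j) (M.cl s c) := by
  obtain ⟨B, hB, hBE, hBB, hBK⟩ := nef_exists (by simpa using hk8) (M.cl s0) hC hK hpos hR5 EE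
    hEK hns
  obtain ⟨s, φ, hφ, hanti, hn0, hdom⟩ := M.gm (fun h => absurd h (by omega)) s0 hK B hB
  have hφB : ip (φ.f B) (φ.f B) = ip B B := φ.iso B B
  obtain ⟨j, hjk, hj8, hxj, hx0, hdj⟩ := dom (φ.f B).1 (φ.f B).2 hanti hn0 hdom
    (by change 0 < ip (φ.f B) (φ.f B); rw [hφB]; exact hBB)
  have hjne : j ≠ k := by
    rintro rfl
    have h1 : φ.f B = (-ext (φ.f B).2 0) • KK := dom_K hk hx0
    have h2 : φ.f B = φ.f ((-ext (φ.f B).2 0) • KK) := by
      rw [map_smul, φ.canon]; exact h1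
    exact hBK _ (φ.inj h2)
  refine ⟨s, φ, j, hφ, lt_of_le_of_ne hjk hjne, fun e he => ?_, fun c => ?_⟩
  · refine hdj (M.cl s e) (fun i hi => fcl_nonneg_of_K (M.types s e) ?_ hi) ?_
    · rw [hφ e]
      have : ip (KK : Cl ℤ (Fin k)) (φ.f (M.cl s0 e)) = ip (φ.f KK) (φ.f (M.cl s0 e)) := by
        rw [φ.canon]
      rw [this, φ.iso]
      exact hEK e he
    · change ip (φ.f B) (M.cl s e) = 0
      rw [hφ e, φ.iso]
      exact hBE e he
  · rcases Nat.lt_or_ge j 3 with h3 | h3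
    · exact fcl_small_nonneg (M.types s c) (by omega)
    · have hm := ext_eq_of_xco hx0
      have hb3 := b_eq_of_xco h3 hx0
      have hμ : 0 < ext (φ.f B).2 0 := by
        have h1 : j = (j - 1) + 1 := by omega
        rw [h1, xco_succ, hm (j - 1) (by omega)] at hxj
        have h2 := ext_nonneg hn0 (j - 1 + 1)
        linarith
      refine fcl_nonneg_of_nef (B := φ.f B) (M.types s c) ?_ hn0 h3 hμ hb3 hm hjk
      rw [hφ c, φ.iso]
      exact hB c

end Pool.Agent.Helper82.LCY
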