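import Pool.Agent.Helper82.LCY.GmGeo

/-!
Row STEP: the geometric form of the theorems of `Step.lean`.
-/

open Polynomial Pool.Agent.Helper82.LCY

namespace LCY

noncomputable section

variable {L : Type} [Field L] [Algebra ℂ L]

namespace H82

/-- A nonnegative combination of curves of class zero is zero. -/
theorem pos_comb (hTY : ST_TY) {k : ℕ} (T : PStr L k) (s : Finset {v : DVal L // v ∈ T.C})
    (n : {v : DVal L // v ∈ T.C} → ℤ) (hn : ∀ c ∈ s, 0 ≤ n c)
    (h0 : ∑ c ∈ s, n c • T.cl c.1 = 0) : ∀ c ∈ s, n c = 0 := by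
  classical
  have hd : ∀ c ∈ s, n c * (T.cl c.1).1 = 0 := by
    have h1 : ∑ c ∈ s, n c * (T.cl c.1).1 = 0 := by
      have := congrArg Prod.fst h0
      rw [Prod.fst_sum] at this
      simpa using this
    refine (Finset.sum_eq_zero_iff_of_nonneg fun c hc => mul_nonneg (hn c hc) ?_).1 h1
    rcases types_cur hTY c.2.2 with h | ⟨p, h, _⟩
    · have := h.1; omega
    · rw [h.1]
  have htype : ∀ c ∈ s, n c ≠ 0 → ∃ p, TypeB p (T.cl c.1) ∧ IsOrd (T.R p) c.1 := by
    intro c hc hne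
    rcases types_cur hTY c.2.2 with h | h
    · exfalso
      have h2 := (mul_eq_zero.1 (hd c hc)).resolve_left hne
      have := h.1
      omega
    · exact h
  by_contra hcon
  push Not at hcon
  obtain ⟨c0, hc0, hn0⟩ := hcon
  obtain ⟨p0, hp0⟩ := htype c0 hc0 hn0
  obtain ⟨p, ⟨c1, hc1, hn1, hB1, hO1⟩, hmin⟩ := WellFounded.has_min (wellFounded_lt (α := Fin k))
    {p | ∃ c ∈ s, n c ≠ 0 ∧ TypeB p (T.cl c.1) ∧ IsOrd (T.R p) c.1} ⟨p0, c0, hc0, hn0, hp0⟩
  have h1 : ∑ c ∈ s, n c * (T.cl c.1).2 p = 0 := by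
    have := congrFun (congrArg Prod.snd h0) p
    rw [Prod.snd_sum, Finset.sum_apply] at this
    simpa using this
  rw [Finset.sum_eq_single c1 _ fun h => absurd hc1 h, hB1.2.1] at h1
  · exact hn1 (by omega)
  · intro c hc hne
    by_cases h2 : n c = 0
    · rw [h2, zero_mul]
    obtain ⟨q, hBq, hOq⟩ := htype c hc h2
    rcases lt_trichotomy q p with h3 | h3 | h3
    · exact absurd h3 (hmin q ⟨c, hc, h2, hBq, hOq⟩)
    · exfalso
      apply hne
      subst h3
      exact Subtype.ext (H97.eq_of_same c.2.1 c1.2.1 (H50.isOrd_same hOq hO1))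
    · rw [hBq.2.2.1 p h3, mul_zero]

theorem step_geo (h13 : ST_A13) (h16 : ST_A16) (h17 : ST_A17) (h18 : ST_A18) (hTY : ST_TY)
    (hSW : ST_SW) (hQD : ST_QD) (hC3 : ST_C3) (hC5 : ST_C5) {k : ℕ} (hk : 3 ≤ k) (hk8 : k ≤ 8)
    (T : PStr L k) (hK : ∀ v, T.Cur v → ip KK (T.cl v) ≤ 0) (E : Set (DVal L))
    (hE : ∀ v ∈ E, T.Cur v ∧ ip KK (T.cl v) = 0) (hns : ¬ SpansPerp (T.cl '' E)) :
    ∃ (T' : PStr L k) (φ : Isom k) (j : ℕ), T'.X = T.X ∧
      (∀ v, T.Cur v → T'.cl v = φ.f (T.cl v)) ∧ j < k ∧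
      (∀ v ∈ E, ip (fcl k j) (T'.cl v) = 0) ∧ ∀ v, T.Cur v → 0 ≤ ip (fcl k j) (T'.cl v) := by
  set M := marks h13 h16 h17 h18 hTY hSW hQD T with hM
  set EE : Set {v : DVal L // v ∈ T.C} := {c | ∃ w ∈ E, w.Same c.1} with hEE
  have himg : M.cl ⟨T, rfl⟩ '' EE = T.cl '' E := by
    ext x
    constructor
    · rintro ⟨c, ⟨w, hw, hs⟩, rfl⟩
      exact ⟨w, hw, H97.cl_congr hs T⟩
    · rintro ⟨w, hw, rfl⟩
      refine ⟨⟨H97.nrm w, nrm_mem (hE w hw).1⟩, ⟨w, hw, H97.nrm_same w⟩, ?_⟩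
      exact cl_nrm T w
  obtain ⟨s, φ, j, h1, h2, h3, h4⟩ := M.step hk hk8 ⟨T, rfl⟩ (fun c => hK _ c.2.2)
    (fun c c' hne => hC3 L k T c.1 c'.1 c.2.2 c'.2.2 fun h =>
      hne (Subtype.ext (H97.eq_of_same c.2.1 c'.2.1 h)))
    (fun s n hn h0 => pos_comb hTY T s n hn h0)
    (fun G h0 _ h => eff_of hC5 T G h0 (by rw [chi2_eq]; exact h)) EE
    (by
      rintro c ⟨w, hw, hs⟩
      have := (hE w hw).2
      rw [H97.cl_congr hs T] at this
      exact this)
    (by rw [himg]; exact hns)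
  have hcl : ∀ v, T.Cur v → s.1.cl v = φ.f (T.cl v) := by
    intro v hv
    have := h1 ⟨H97.nrm v, nrm_mem hv⟩
    change s.1.cl (H97.nrm v) = φ.f (T.cl (H97.nrm v)) at this
    rwa [cl_nrm, cl_nrm] at this
  refine ⟨s.1, φ, j, s.2, hcl, h2, fun v hv => ?_, fun v hv => ?_⟩
  · have := h3 ⟨H97.nrm v, nrm_mem (hE v hv).1⟩ ⟨v, hv, H97.nrm_same v⟩
    change ip (fcl k j) (s.1.cl (H97.nrm v)) = 0 at this
    rwa [cl_nrm] at this
  · have := h4 ⟨H97.nrm v, nrm_mem hv⟩
    change 0 ≤ ip (fcl k j) (s.1.cl (H97.nrm v)) at this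
    rwa [cl_nrm] at this

/-! ### Extension of isometries -/

variable {j l : ℕ}

/-- the first multiplicities -/
def resJ (x : Cl ℤ (Fin (j + l))) : Cl ℤ (Fin j) := (x.1, fun i => x.2 (Fin.castAdd l i))

/-- a map acting on the first multiplicities -/
def extF (f : Cl ℤ (Fin j) → Cl ℤ (Fin j)) (x : Cl ℤ (Fin (j + l))) : Cl ℤ (Fin (j + l)) :=
  ((f (resJ x)).1, Fin.append (f (resJ x)).2 fun i => x.2 (Fin.natAdd j i))

theorem resJ_extF (f : Cl ℤ (Fin j) → Cl ℤ (Fin j)) (x : Cl ℤ (Fin (j + l))) :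
    resJ (extF f x) = f (resJ x) := by
  refine Prod.ext rfl (funext fun i => ?_)
  show Fin.append (f (resJ x)).2 (fun i => x.2 (Fin.natAdd j i)) (Fin.castAdd l i) = _
  rw [Fin.append_left]

theorem extF_right (f : Cl ℤ (Fin j) → Cl ℤ (Fin j)) (x : Cl ℤ (Fin (j + l))) (i : Fin l) :
    (extF f x).2 (Fin.natAdd j i) = x.2 (Fin.natAdd j i) := by
  show Fin.append (f (resJ x)).2 (fun i => x.2 (Fin.natAdd j i)) (Fin.natAdd j i) = _
  rw [Fin.append_right]

theorem ext_jl {x y : Cl ℤ (Fin (j + l))} (h1 : resJ x = resJ y)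
    (h2 : ∀ i : Fin l, x.2 (Fin.natAdd j i) = y.2 (Fin.natAdd j i)) : x = y := by
  have e1 : (resJ x).1 = (resJ y).1 := by rw [h1]
  refine Prod.ext e1 (funext fun i => ?_)
  refine Fin.addCases (fun i => ?_) (fun i => ?_) i
  · have e2 : (resJ x).2 i = (resJ y).2 i := by rw [h1]
    exact e2
  · exact h2 i

theorem ip_jl (x y : Cl ℤ (Fin (j + l))) : ip x y = ip (resJ x) (resJ y)
    - ∑ i : Fin l, x.2 (Fin.natAdd j i) * y.2 (Fin.natAdd j i) := by
  simp only [ip, resJ]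
  rw [Fin.sum_univ_add]
  ring

/-- extension of an isometry -/
def extI (φ : Isom j) (l : ℕ) : Isom (j + l) where
  f :=
    { toFun := extF φ.f
      invFun := extF φ.f.symm
      map_add' := fun x y => by
        refine ext_jl ?_ fun i => ?_
        · rw [resJ_extF]
          show φ.f (resJ x + resJ y) = resJ (extF φ.f x) + resJ (extF φ.f y)
          rw [resJ_extF, resJ_extF, map_add]
        · rw [extF_right]
          show _ = (extF φ.f x).2 (Fin.natAdd j i) + (extF φ.f y).2 (Fin.natAdd j i)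
          rw [extF_right, extF_right]
          rfl
      map_smul' := fun a x => by
        refine ext_jl ?_ fun i => ?_
        · rw [resJ_extF]
          show φ.f (a • resJ x) = a • resJ (extF φ.f x)
          rw [resJ_extF, map_smul]
        · rw [extF_right]
          show _ = a • (extF φ.f x).2 (Fin.natAdd j i)
          rw [extF_right]
          rfl
      left_inv := fun x => by
        refine ext_jl ?_ fun i => ?_
        · rw [resJ_extF, resJ_extF, LinearEquiv.symm_apply_apply]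
        · rw [extF_right, extF_right]
      right_inv := fun x => by
        refine ext_jl ?_ fun i => ?_
        · rw [resJ_extF, resJ_extF, LinearEquiv.apply_symm_apply]
        · rw [extF_right, extF_right] }
  iso x y := by
    show ip (extF φ.f x) (extF φ.f y) = ip x y
    rw [ip_jl, ip_jl x y, resJ_extF, resJ_extF, φ.iso]
    simp only [extF_right]
  canon := by
    show extF φ.f KK = KK
    refine ext_jl ?_ fun i => ?_
    · rw [resJ_extF]
      exact φ.canon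
    · rw [extF_right]

theorem extI_apply (φ : Isom j) (x : Cl ℤ (Fin (j + l))) : (extI φ l).f x = extF φ.f x := rfl

theorem low0 (h18 : ST_A18) {k : ℕ} (T : PStr L k) {i j : Fin k} {v : DVal L}
    (h : IsOrd (T.R i) v) (hj : j < i) : mul (T.R j) v = 0 := by
  obtain ⟨-, -, h3, h4, -⟩ := h18 L k T i v h
  unfold mul
  rw [if_neg, if_neg (h4 j hj)]
  intro h5
  exact hj.ne (h3 j h5)

/-- The class on the truncation of a curve that is not a curve of the truncation. -/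
theorem cl_trunc_zero (h17 : ST_A17) (h18 : ST_A18) {k : ℕ} (T : PStr L k) (j : ℕ) (hj : j ≤ k)
    {v : DVal L} (hv : T.Cur v) (hn : ¬ (T.trunc j hj).Cur v) : (T.trunc j hj).cl v = 0 := by
  rcases (h17 L k T v).1 hv with h | ⟨i, h⟩
  · exact absurd ((h17 L j (T.trunc j hj) v).2 (Or.inl h)) hn
  · have hij : j ≤ (i : ℕ) := by
      by_contra hlt
      push Not at hlt
      exact hn ((h17 L j (T.trunc j hj) v).2 (Or.inr ⟨⟨i, hlt⟩, h⟩))
    refine Prod.ext (h18 L k T i v h).2.1 (funext fun m => ?_)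
    refine low0 h18 T h ?_
    rw [Fin.lt_def, Fin.val_castLE]
    exact m.2.trans_le hij

theorem ext_trunc {k : ℕ} (T : PStr L k) (j : ℕ) (hj : j ≤ k) (v : DVal L) {m : ℕ} (hm : m < j) :
    ext ((T.trunc j hj).cl v).2 m = ext (T.cl v).2 m := by
  have h1 := ext_fin ((T.trunc j hj).cl v).2 ⟨m, hm⟩
  have h2 := ext_fin (T.cl v).2 ⟨m, hm.trans_le hj⟩
  dsimp only at h1 h2
  rw [h1, h2]
  rfl

theorem ip_fcl_trunc {k : ℕ} (T : PStr L k) (j : ℕ) (hj : j ≤ k) (v : DVal L) {i : ℕ}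
    (hi : i ≤ j) : ip (fcl k i) (T.cl v) = ip (fcl j i) ((T.trunc j hj).cl v) := by
  rw [ip_fcl, ip_fcl]
  have h : ∑ m ∈ Finset.range i, ext (T.cl v).2 m
      = ∑ m ∈ Finset.range i, ext ((T.trunc j hj).cl v).2 m :=
    Finset.sum_congr rfl fun m hm => by
      rw [ext_trunc T j hj v ((Finset.mem_range.1 hm).trans_le hi)]
  rw [h]
  rfl

theorem ip_KK_trunc {k : ℕ} (T : PStr L k) (j : ℕ) (hj : j ≤ k) (v : DVal L) (h3 : 3 ≤ j) :
    ip KK ((T.trunc j hj).cl v) = - ip (fcl k j) (T.cl v) := by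
  rw [ip_fcl_trunc T j hj v le_rfl, ip_KK_ext, ip_fcl]
  have hfd : fdeg j = 3 := by
    unfold fdeg
    rw [if_neg (by omega), if_neg (by omega), if_neg (by omega)]
  rw [hfd]
  ring

/-- The classes in an extended structure. -/
theorem extend_cl (h17 : ST_A17) (h18 : ST_A18) {T T' : PStr L (j + l)} (hj : j ≤ j + l)
    {s : PStr L j} (hX : T'.X = T.X) (hs : T'.trunc j hj = s) (hsX : s.X = (T.trunc j hj).X)
    (hR : ∀ i : Fin (j + l), j ≤ (i : ℕ) → T'.R i = T.R i) (φ : Isom j)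
    (hcl : ∀ v, (T.trunc j hj).Cur v → s.cl v = φ.f ((T.trunc j hj).cl v)) {v : DVal L}
    (hv : T.Cur v) : T'.cl v = (extI φ l).f (T.cl v) := by
  refine ext_jl ?_ fun i => ?_
  · rw [extI_apply, resJ_extF]
    have e1 : resJ (T'.cl v) = (T'.trunc j hj).cl v := rfl
    have e2 : resJ (T.cl v) = (T.trunc j hj).cl v := rfl
    rw [e1, e2]
    by_cases h : (T.trunc j hj).Cur v
    · rw [hs, hcl v h]
    · rw [cl_trunc_zero h17 h18 T j hj hv h, map_zero]
      refine cl_trunc_zero h17 h18 T' j hj ((cur_iff_of_X hX v).2 hv) ?_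
      rw [hs]
      exact fun h' => h ((cur_iff_of_X hsX v).1 h')
  · rw [extI_apply, extF_right]
    show mul (T'.R (Fin.natAdd j i)) v = mul (T.R (Fin.natAdd j i)) v
    rw [hR _ (by simp)]

end H82

end

end LCY
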