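import Pool.Agent.Helper11.LCY.State

/-!
Value calculus in the local rings of points.
-/

open Polynomial

namespace LCY

noncomputable section

variable {L : Type} [Field L] [Algebra ℂ L]

namespace H82

open H62

/-- `z` lies in the maximal ideal of the local ring `R`. -/
def InM (R : Subalgebra ℂ L) (z : L) : Prop := z ∈ R ∧ (z = 0 ∨ z⁻¹ ∉ R)

/-- The function `z` has the value `c` at the point `R`. -/
def Vl (R : Subalgebra ℂ L) (z : L) (c : ℂ) : Prop := InM R (z - algebraMap ℂ L c)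

theorem cf0_mul (f g : ℂ[X][X]) : cf (f * g) (0, 0) = cf f (0, 0) * cf g (0, 0) := by
  unfold cf
  rw [mul_coeff_zero, mul_coeff_zero]

theorem cf0_add (f g : ℂ[X][X]) : cf (f + g) (0, 0) = cf f (0, 0) + cf g (0, 0) := cf_add _ _ _

theorem cf0_one : cf (1 : ℂ[X][X]) (0, 0) = 1 := by simp [cf]

theorem cf0_CC (c : ℂ) : cf (C (C c)) (0, 0) = c := by simp [cf]

theorem ne_of_cf0 {g : ℂ[X][X]} (h : cf g (0, 0) ≠ 0) : g ≠ 0 := by
  rintro rfl; exact h (cf_zero _)

theorem inM_loc {P : Coord L} {z : L} : InM P.loc z ↔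
    ∃ f g : ℂ[X][X], cf g (0, 0) ≠ 0 ∧ cf f (0, 0) = 0 ∧ z = ev P.x P.y f / ev P.x P.y g := by
  constructor
  · rintro ⟨⟨f, g, hg, hz⟩, h⟩
    refine ⟨f, g, hg, ?_, hz⟩
    by_contra hf
    have hf0 : f ≠ 0 := ne_of_cf0 hf
    rcases h with h | h
    · rw [h] at hz
      exact (div_ne_zero (P.ne hf0) (P.ne (ne_of_cf0 hg))) hz.symm
    · apply h
      exact ⟨g, f, hf, by rw [hz, inv_div]⟩
  · rintro ⟨f, g, hg, hf, hz⟩
    refine ⟨⟨f, g, hg, hz⟩, ?_⟩
    by_contra hcon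
    push Not at hcon
    obtain ⟨hz0, f', g', hg', hz'⟩ := hcon
    have hg0 := P.ne (ne_of_cf0 hg)
    have hg0' := P.ne (ne_of_cf0 hg')
    have h1 : ev P.x P.y (f * f') = ev P.x P.y (g * g') := by
      have h2 : z * z⁻¹ = 1 := mul_inv_cancel₀ hz0
      rw [hz', hz, div_mul_div_comm, div_eq_one_iff_eq (mul_ne_zero hg0 hg0')] at h2
      rw [map_mul, map_mul, h2]
    have h3 : f * f' = g * g' := by
      have := P.inj (f * f' - g * g') (by rw [map_sub, h1, sub_self])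
      exact sub_eq_zero.1 this
    have h4 := congrArg (fun p => cf p (0, 0)) h3
    simp only [cf0_mul, hf, zero_mul] at h4
    exact mul_ne_zero hg hg' h4.symm

theorem vl_loc {P : Coord L} {z : L} {c : ℂ} : Vl P.loc z c ↔
    ∃ f g : ℂ[X][X], cf g (0, 0) ≠ 0 ∧ cf f (0, 0) = c * cf g (0, 0) ∧
      z = ev P.x P.y f / ev P.x P.y g := by
  unfold Vl
  rw [inM_loc]
  constructor
  · rintro ⟨f, g, hg, hf, hz⟩
    refine ⟨f + C (C c) * g, g, hg, ?_, ?_⟩
    · rw [cf0_add, cf0_mul, cf0_CC, hf, zero_add]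
    · have := P.ne (ne_of_cf0 hg)
      rw [map_add, map_mul, ev_CC, add_div, mul_div_cancel_right₀ _ this, ← hz]
      ring
  · rintro ⟨f, g, hg, hf, hz⟩
    refine ⟨f - C (C c) * g, g, hg, ?_, ?_⟩
    · rw [cf_sub, cf0_mul, cf0_CC, hf, sub_self]
    · have := P.ne (ne_of_cf0 hg)
      rw [map_sub, map_mul, ev_CC, sub_div, mul_div_cancel_right₀ _ this, ← hz]

theorem vl_zero_iff {R : Subalgebra ℂ L} {z : L} : Vl R z 0 ↔ InM R z := by
  unfold Vl
  rw [map_zero, sub_zero]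

variable {P : Coord L}

theorem vl_const (c : ℂ) : Vl P.loc (algebraMap ℂ L c) c :=
  vl_loc.2 ⟨C (C c), 1, by rw [cf0_one]; exact one_ne_zero, by rw [cf0_CC, cf0_one, mul_one],
    by rw [ev_CC, map_one, div_one]⟩

theorem vl_one : Vl P.loc (1 : L) 1 := by
  have := vl_const (P := P) 1
  rwa [map_one] at this

theorem vl_x : Vl P.loc P.x 0 :=
  vl_loc.2 ⟨C X, 1, by rw [cf0_one]; exact one_ne_zero, by simp [cf], by
    rw [ev_CX, map_one, div_one]⟩

theorem vl_y : Vl P.loc P.y 0 :=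
  vl_loc.2 ⟨X, 1, by rw [cf0_one]; exact one_ne_zero, by simp [cf], by
    rw [ev_X, map_one, div_one]⟩

theorem vl_add {z w : L} {a b : ℂ} (hz : Vl P.loc z a) (hw : Vl P.loc w b) :
    Vl P.loc (z + w) (a + b) := by
  rw [vl_loc] at *
  obtain ⟨f, g, hg, hf, hz⟩ := hz
  obtain ⟨f', g', hg', hf', hw⟩ := hw
  refine ⟨f * g' + g * f', g * g', by rw [cf0_mul]; exact mul_ne_zero hg hg', ?_, ?_⟩
  · rw [cf0_add, cf0_mul, cf0_mul, cf0_mul, hf, hf']; ring
  · rw [hz, hw, div_add_div _ _ (P.ne (ne_of_cf0 hg)) (P.ne (ne_of_cf0 hg')), map_add, map_mul,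
      map_mul, map_mul]

theorem vl_mul {z w : L} {a b : ℂ} (hz : Vl P.loc z a) (hw : Vl P.loc w b) :
    Vl P.loc (z * w) (a * b) := by
  rw [vl_loc] at *
  obtain ⟨f, g, hg, hf, hz⟩ := hz
  obtain ⟨f', g', hg', hf', hw⟩ := hw
  refine ⟨f * f', g * g', by rw [cf0_mul]; exact mul_ne_zero hg hg', ?_, ?_⟩
  · rw [cf0_mul, cf0_mul, hf, hf']; ring
  · rw [hz, hw, div_mul_div_comm, map_mul, map_mul]

theorem vl_neg {z : L} {a : ℂ} (hz : Vl P.loc z a) : Vl P.loc (-z) (-a) := by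
  have h := vl_mul (vl_const (P := P) (-1)) hz
  rw [map_neg, map_one] at h
  simpa using h

theorem vl_sub {z w : L} {a b : ℂ} (hz : Vl P.loc z a) (hw : Vl P.loc w b) :
    Vl P.loc (z - w) (a - b) := by
  rw [sub_eq_add_neg, sub_eq_add_neg]
  exact vl_add hz (vl_neg hw)

theorem vl_inv {z : L} {a : ℂ} (hz : Vl P.loc z a) (ha : a ≠ 0) : Vl P.loc z⁻¹ a⁻¹ := by
  rw [vl_loc] at *
  obtain ⟨f, g, hg, hf, hz⟩ := hz
  have hf0 : cf f (0, 0) ≠ 0 := by rw [hf]; exact mul_ne_zero ha hg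
  refine ⟨g, f, hf0, ?_, by rw [hz, inv_div]⟩
  rw [hf, inv_mul_cancel_left₀ ha]

theorem vl_div {z w : L} {a b : ℂ} (hz : Vl P.loc z a) (hw : Vl P.loc w b) (hb : b ≠ 0) :
    Vl P.loc (z / w) (a / b) := by
  rw [div_eq_mul_inv, div_eq_mul_inv]
  exact vl_mul hz (vl_inv hw hb)

theorem vl_unique {z : L} {a b : ℂ} (hz : Vl P.loc z a) (hw : Vl P.loc z b) : a = b := by
  by_contra hab
  have h := vl_sub hz hw
  rw [sub_self] at h
  have h1 := vl_inv h (sub_ne_zero.2 hab)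
  rw [inv_zero] at h1
  have h2 : Vl P.loc (0 : L) 0 := by
    have := vl_const (P := P) 0
    rwa [map_zero] at this
  -- `0` has a nonzero value: contradiction
  rw [vl_loc] at h
  obtain ⟨f, g, hg, hf, hz0⟩ := h
  have hf0 : cf f (0, 0) ≠ 0 := by
    rw [hf]; exact mul_ne_zero (sub_ne_zero.2 hab) hg
  exact div_ne_zero (P.ne (ne_of_cf0 hf0)) (P.ne (ne_of_cf0 hg)) hz0.symm

theorem mem_of_vl {R : Subalgebra ℂ L} {z : L} {c : ℂ} (h : Vl R z c) : z ∈ R := by
  have := R.add_mem h.1 (R.algebraMap_mem c)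
  simpa using this

theorem exists_vl {z : L} (h : z ∈ P.loc) : ∃ c, Vl P.loc z c := by
  obtain ⟨f, g, hg, hz⟩ := h
  exact ⟨cf f (0, 0) / cf g (0, 0), vl_loc.2 ⟨f, g, hg, by rw [div_mul_cancel₀ _ hg], hz⟩⟩

/-- values at poles: if `1/z` vanishes then `z` has no value -/
theorem not_vl_of_inv {z : L} {c : ℂ} (h0 : z ≠ 0) (h : Vl P.loc z c) (h' : Vl P.loc z⁻¹ 0) :
    False := by
  have := vl_mul h h'
  rw [mul_inv_cancel₀ h0, mul_zero] at this
  exact one_ne_zero (vl_unique vl_one this)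

theorem vl_ev {x y : L} {a b : ℂ} (hx : Vl P.loc x a) (hy : Vl P.loc y b) (f : ℂ[X][X]) :
    Vl P.loc (ev x y f) ((f.eval (C b)).eval a) := by
  induction f using Polynomial.induction_on' with
  | add f g hf hg =>
    rw [map_add, eval_add, eval_add]
    exact vl_add hf hg
  | monomial n p =>
    have hp : ∀ p : ℂ[X], Vl P.loc (aeval x p) (p.eval a) := by
      intro p
      induction p using Polynomial.induction_on' with
      | add f g hf hg => rw [map_add, eval_add]; exact vl_add hf hg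
      | monomial n c =>
        rw [aeval_monomial, eval_monomial]
        refine vl_mul (vl_const _) ?_
        induction n with
        | zero => simpa using vl_one
        | succ n ih => rw [pow_succ, pow_succ]; exact vl_mul ih hx
    have hpow : ∀ n : ℕ, Vl P.loc (y ^ n) (b ^ n) := by
      intro n
      induction n with
      | zero => simpa using vl_one
      | succ n ih => rw [pow_succ, pow_succ]; exact vl_mul ih hy
    have h1 : ev x y (monomial n p) = aeval x p * y ^ n := by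
      rw [ev_apply, eval₂_monomial]; rfl
    rw [h1, eval_monomial, eval_mul, eval_pow, eval_C]
    exact vl_mul (hp p) (hpow n)

theorem eval00 (f : ℂ[X][X]) : (f.eval (C 0)).eval 0 = cf f (0, 0) := by
  unfold cf
  rw [map_zero, ← coeff_zero_eq_eval_zero, ← coeff_zero_eq_eval_zero]

/-- one local ring is contained in another one -/
theorem loc_le {P Q : Coord L} (hx : Vl P.loc Q.x 0) (hy : Vl P.loc Q.y 0) : Q.loc ≤ P.loc := by
  rintro z ⟨f, g, hg, rfl⟩
  have h1 := vl_ev hx hy f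
  have h2 := vl_ev hx hy g
  rw [eval00] at h1 h2
  exact mem_of_vl (vl_div h1 h2 hg)

/-- **A11.** Equality of points from four values. -/
theorem loc_eq {P Q : Coord L} (h1 : Vl P.loc Q.x 0) (h2 : Vl P.loc Q.y 0)
    (h3 : Vl Q.loc P.x 0) (h4 : Vl Q.loc P.y 0) : P.loc = Q.loc :=
  le_antisymm (loc_le h3 h4) (loc_le h1 h2)

theorem loc_eq_iff {P Q : Coord L} : P.loc = Q.loc ↔
    Vl P.loc Q.x 0 ∧ Vl P.loc Q.y 0 ∧ Vl Q.loc P.x 0 ∧ Vl Q.loc P.y 0 := by
  constructor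
  · intro h
    refine ⟨?_, ?_, ?_, ?_⟩
    · rw [h]; exact vl_x
    · rw [h]; exact vl_y
    · rw [← h]; exact vl_x
    · rw [← h]; exact vl_y
  · rintro ⟨h1, h2, h3, h4⟩
    exact loc_eq h1 h2 h3 h4

theorem loc_congr {P Q : Coord L} (h1 : P.x = Q.x) (h2 : P.y = Q.y) : P.loc = Q.loc := by
  refine loc_eq ?_ ?_ ?_ ?_
  · rw [← h1]; exact vl_x
  · rw [← h2]; exact vl_y
  · rw [h1]; exact vl_x
  · rw [h2]; exact vl_y

end H82

end

end LCY
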